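import Pool.Agent.Lib.MP_562567_gt.Q.Spec
import Pool.Agent.Lib.MP_562567_gt.Poinc

/-!
# MP_562567_gt, part Q: the average of the squared chords
-/

set_option autoImplicit false

namespace Pool.Agent.MP562567.Q

open MeasureTheory Set

/-! ### the functions `P2`, `P3`, `P4` -/

private theorem cont_P2 : Continuous P2 := by
  unfold P2
  fun_prop

private theorem cont_P3 : Continuous P3 := by
  unfold P3
  fun_prop

private theorem cont_hh : Continuous hh := by
  unfold hh
  have h : Continuous fun u : ℝ => u ^ (3 / 2 : ℝ) := Real.continuous_rpow_const (by norm_num)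
  fun_prop

private theorem cont_P4 : Continuous P4 := by
  unfold P4
  exact cont_hh.comp (continuous_id.max continuous_const)

private theorem conv_base : ConvexOn ℝ univ fun u : ℝ => max (1 - u) 0 := by
  have h1 : ConvexOn ℝ univ fun u : ℝ => 1 - u := by
    refine ⟨convex_univ, fun x _ y _ a b _ _ hab => ?_⟩
    simp only [smul_eq_mul]
    have : b = 1 - a := by linarith
    subst this
    exact le_of_eq (by ring)
  exact h1.sup (convexOn_const 0 convex_univ)

private theorem conv_P2 : ConvexOn ℝ univ P2 :=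
  conv_base.pow (fun _ _ => le_max_right _ _) 2

private theorem conv_P3 : ConvexOn ℝ univ P3 :=
  conv_base.pow (fun _ _ => le_max_right _ _) 3

private theorem conv_hh : ConvexOn ℝ (Ici 1) hh := by
  have h1 : ConvexOn ℝ (Ici (0 : ℝ)) fun u : ℝ => u ^ (3 / 2 : ℝ) := convexOn_rpow (by norm_num)
  have h2 : ConvexOn ℝ (Ici (1 : ℝ)) fun u : ℝ => u ^ (3 / 2 : ℝ) :=
    h1.subset (Ici_subset_Ici.2 zero_le_one) (convex_Ici 1)
  have h3 : ConvexOn ℝ (Ici (1 : ℝ)) fun u : ℝ => -1 - 3 / 2 * (u - 1) := by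
    refine ⟨convex_Ici 1, fun x _ y _ a b _ _ hab => ?_⟩
    simp only [smul_eq_mul]
    have : b = 1 - a := by linarith
    subst this
    exact le_of_eq (by ring)
  have h4 := h2.add h3
  refine h4.congr fun u _ => ?_
  simp only [Pi.add_apply]
  unfold hh
  ring

private theorem mono_hh : MonotoneOn hh (Ici 1) := by
  have hd : ∀ u : ℝ, u ∈ Ioi (1 : ℝ) →
      HasDerivAt hh (3 / 2 * u ^ ((3 / 2 : ℝ) - 1) - 3 / 2) u := by
    intro u hu
    have h1 : HasDerivAt (fun u : ℝ => u ^ (3 / 2 : ℝ)) (3 / 2 * u ^ ((3 / 2 : ℝ) - 1)) u :=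
      Real.hasDerivAt_rpow_const (Or.inl (ne_of_gt (lt_trans zero_lt_one hu)))
    have h2 := (h1.sub_const 1).sub (((hasDerivAt_id u).sub_const 1).const_mul (3 / 2 : ℝ))
    rw [mul_one] at h2
    exact h2
  refine monotoneOn_of_deriv_nonneg (convex_Ici 1) cont_hh.continuousOn ?_ ?_
  · rw [interior_Ici]
    exact fun u hu => (hd u hu).differentiableAt.differentiableWithinAt
  · rw [interior_Ici]
    intro u hu
    rw [(hd u hu).deriv]
    have : (1 : ℝ) ≤ u ^ ((3 / 2 : ℝ) - 1) := Real.one_le_rpow (le_of_lt hu) (by norm_num)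
    linarith

private theorem hh_one : hh 1 = 0 := by
  unfold hh
  rw [Real.one_rpow]
  ring

private theorem P4_nonneg (u : ℝ) : 0 ≤ P4 u := by
  rw [← hh_one]
  exact mono_hh (mem_Ici.2 (le_refl 1)) (mem_Ici.2 (le_max_right u 1)) (le_max_right u 1)

private theorem conv_P4 : ConvexOn ℝ univ P4 := by
  have h1 : ConvexOn ℝ univ fun u : ℝ => max u 1 :=
    (convexOn_id convex_univ).sup (convexOn_const 1 convex_univ)
  have himg : (fun u : ℝ => max u 1) '' univ = Ici 1 := by
    ext y
    constructor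
    · rintro ⟨u, -, rfl⟩
      exact mem_Ici.2 (le_max_right u 1)
    · intro hy
      exact ⟨y, mem_univ _, max_eq_left hy⟩
  exact ConvexOn.comp (g := hh) (f := fun u : ℝ => max u 1) (by rw [himg]; exact conv_hh) h1
    (by rw [himg]; exact mono_hh)

/-! ### Jensen -/

private theorem jensen (φ : ℝ → ℝ) (hc : Continuous φ) (hφ : ConvexOn ℝ univ φ) (ω : ℝ → ℝ)
    (hω : Continuous ω) (r : ℝ) (hr : 0 < r) :
    φ ((∫ t in (0 : ℝ)..r, ω t) / r) ≤ (∫ t in (0 : ℝ)..r, φ (ω t)) / r := by
  have h := hφ.map_set_average_le (μ := volume) (t := Ioc 0 r) (f := ω) hc.continuousOn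
    isClosed_univ (by simp [hr]) (by simp) (Filter.Eventually.of_forall fun _ => mem_univ _)
    (hω.intervalIntegrable 0 r).1 ((hc.comp hω).intervalIntegrable 0 r).1
  rw [setAverage_eq, setAverage_eq, Real.volume_real_Ioc_of_le hr.le, sub_zero,
    ← intervalIntegral.integral_of_le hr.le, ← intervalIntegral.integral_of_le hr.le,
    smul_eq_mul, smul_eq_mul, ← div_eq_inv_mul, ← div_eq_inv_mul] at h
  exact h

/-! ### the majorant -/

private theorem maj (h1 : S_Maj1) (h2 : S_Maj2) (h3 : S_Maj3) (r : ℝ) (hr : r ∈ Icc 0 Real.pi)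
    (u : ℝ) (hu : 0 ≤ u) :
    phi (r * u) ≤ phi r + 2 * r * Real.sin r * (u - 1) + ca r * P2 u + cb r * P3 u +
      3 / 2 * P4 u := by
  rcases le_total 1 u with h | h
  · exact h3 r hr u h
  · rcases le_or_gt r (Real.pi / 2) with h' | h'
    · exact h1 r ⟨hr.1, h'⟩ u ⟨hu, h⟩
    · exact h2 r ⟨h', hr.2⟩ u ⟨hu, h⟩

private theorem ca_nonneg (r : ℝ) (hr : r ∈ Icc 0 Real.pi) : 0 ≤ ca r := by
  unfold ca
  split_ifs with h
  · exact mul_nonneg (sq_nonneg _) (Real.cos_nonneg_of_mem_Icc
      ⟨by linarith [hr.1, Real.pi_pos], h⟩)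
  · exact mul_nonneg two_pos.le (le_max_right _ _)

private theorem cb_nonneg (r : ℝ) (hr : r ∈ Icc 0 Real.pi) : 0 ≤ cb r := by
  unfold cb
  split_ifs with h
  · have := Real.sin_nonneg_of_mem_Icc hr
    have := hr.1
    positivity
  · exact le_refl 0

/-! ### Fubini -/

variable {n : ℕ}

private theorem swapR (A : Avg n) (r : ℝ) (hr : 0 ≤ r) (f : ℝ → A.G → ℝ)
    (hf : Measurable (Function.uncurry f)) (C : ℝ) (hC : ∀ t g, ‖f t g‖ ≤ C) (I : ℝ)
    (hI : ∀ t, ∫ g, f t g ∂A.μ = I) :
    Integrable (fun g => ∫ t in (0 : ℝ)..r, f t g) A.μ ∧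
      ∫ g, (∫ t in (0 : ℝ)..r, f t g) ∂A.μ = r * I := by
  have h_int : Integrable (Function.uncurry f)
      ((volume.restrict (uIoc 0 r)).prod A.μ) := by
    have hfin : IsFiniteMeasure ((volume : Measure ℝ).restrict (uIoc 0 r)) := by
      rw [uIoc_of_le hr]
      infer_instance
    exact Integrable.of_bound hf.aestronglyMeasurable C
      (Filter.Eventually.of_forall fun q => hC q.1 q.2)
  refine ⟨?_, ?_⟩
  · have h1 := h_int.integral_prod_right
    refine h1.congr (Filter.Eventually.of_forall fun g => ?_)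
    simp only
    rw [intervalIntegral.integral_of_le hr, uIoc_of_le hr]
    rfl
  · rw [← MeasureTheory.intervalIntegral_integral_swap h_int]
    simp only [hI]
    rw [intervalIntegral.integral_const, smul_eq_mul, sub_zero]

private theorem keyI (A : Avg n) (w : E n → ℝ) (C : ℝ) (hwm : Measurable w)
    (hwC : ∀ x, |w x| ≤ C) (e b : E n) (he : ‖e‖ = 1) (hb : ‖b‖ = 1) (heb : inner ℝ e b = 0)
    (r : ℝ) (hr : 0 ≤ r) (φ : ℝ → ℝ) (hφ : Continuous φ) :
    Integrable (fun g => ∫ t in (0 : ℝ)..r, φ (w (A.ρ g (X e b t)))) A.μ ∧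
      ∫ g, (∫ t in (0 : ℝ)..r, φ (w (A.ρ g (X e b t)))) ∂A.μ =
        r * ∫ g, φ (w (A.ρ g e)) ∂A.μ := by
  obtain ⟨D, hD⟩ := (isCompact_Icc (a := -C) (b := C)).exists_bound_of_continuousOn
    hφ.continuousOn
  have hm2 : Measurable fun q : ℝ × A.G => A.ρ q.2 (X e b q.1) :=
    A.measJ.comp (measurable_snd.prodMk ((poincAux.X_cont e b).measurable.comp measurable_fst))
  refine swapR A r hr (fun t g => φ (w (A.ρ g (X e b t))))
    (hφ.measurable.comp (hwm.comp hm2)) D (fun t g => hD _ (abs_le.1 (hwC _)))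
    (∫ g, φ (w (A.ρ g e)) ∂A.μ) fun t => ?_
  obtain ⟨k, hk⟩ := poincAux.exists_rho A (y := e) (y' := X e b t)
    (by rw [he]; exact (poincAux.X_norm e b he hb heb t).symm)
  have h1 := poincAux.rinv A k (fun g => φ (w (A.ρ g e)))
    (hφ.measurable.comp (hwm.comp (poincAux.meas A _))).aestronglyMeasurable
  simp only [poincAux.rho_mul, hk] at h1
  exact h1

theorem arc : S_Arc := by
  intro hM1 hM2 hM3 n A F w C hFm hwm hw hw0 hwC hF1 hFw e b he hb heb r hr
  have hXs : ∀ g t, A.ρ g (X e b t) ∈ Metric.sphere (0 : E n) 1 := by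
    intro g t
    rw [mem_sphere_zero_iff_norm, LinearIsometryEquiv.norm_map]
    exact poincAux.X_norm e b he hb heb t
  have hX0 : X e b 0 = e := poincAux.X_zero e b
  rcases eq_or_lt_of_le hr.1 with h0 | h0
  · subst h0
    have hL : ∀ g, ‖F (A.ρ g (X e b 0)) - F (A.ρ g e)‖ ^ 2 = 0 := by
      intro g
      rw [hX0, sub_self, norm_zero]
      norm_num
    simp only [hL, integral_zero]
    have hp : phi 0 = 0 := by
      unfold phi
      rw [min_eq_left Real.pi_pos.le, Real.cos_zero]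
      norm_num
    have hca : ca 0 = 0 := by
      unfold ca
      rw [if_pos (by positivity)]
      norm_num
    have hcb : cb 0 = 0 := by
      unfold cb
      rw [if_pos (by positivity)]
      norm_num
    rw [hp, hca, hcb]
    have h4 : 0 ≤ ∫ g, P4 (w (A.ρ g e)) ∂A.μ := integral_nonneg fun g => P4_nonneg _
    simp only [mul_zero, zero_mul, zero_add]
    linarith
  -- the pointwise inequality
  have hcw : ∀ g, Continuous fun t => w (A.ρ g (X e b t)) := fun g =>
    hw.comp_continuous ((A.ρ g).continuous.comp (poincAux.X_cont e b)) (hXs g)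
  have hpt : ∀ g, ‖F (A.ρ g (X e b r)) - F (A.ρ g e)‖ ^ 2 ≤
      phi r + 2 * r * Real.sin r * ((∫ t in (0 : ℝ)..r, w (A.ρ g (X e b t))) / r - 1) +
        ca r * ((∫ t in (0 : ℝ)..r, P2 (w (A.ρ g (X e b t)))) / r) +
        cb r * ((∫ t in (0 : ℝ)..r, P3 (w (A.ρ g (X e b t)))) / r) +
        3 / 2 * ((∫ t in (0 : ℝ)..r, P4 (w (A.ρ g (X e b t)))) / r) := by
    intro g
    set a : ℝ := ∫ t in (0 : ℝ)..r, w (A.ρ g (X e b t)) with ha
    have ha0 : 0 ≤ a := intervalIntegral.integral_nonneg h0.le fun t _ => hw0 _ (hXs g t)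
    have hang : InnerProductGeometry.angle (F (A.ρ g e)) (F (A.ρ g (X e b r))) ≤ a := by
      have h1 := hFw (A.ρ g e) (A.ρ g b) (by rw [LinearIsometryEquiv.norm_map, he])
        (by rw [LinearIsometryEquiv.norm_map, hb])
        (by rw [LinearIsometryEquiv.inner_map_map, heb]) 0 r h0.le
      have h2 : ∀ t, X (A.ρ g e) (A.ρ g b) t = A.ρ g (X e b t) := fun t =>
        (poincAux.X_rho A g e b t).symm
      simp only [h2, hX0] at h1
      exact h1
    have hn1 : ‖F (A.ρ g (X e b r))‖ = 1 := hF1 _ (hXs g r)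
    have hn0 : ‖F (A.ρ g e)‖ = 1 := by
      have := hF1 _ (hXs g 0)
      rwa [hX0] at this
    have hle : ‖F (A.ρ g (X e b r)) - F (A.ρ g e)‖ ^ 2 ≤ phi a := by
      rw [norm_sub_sq_real, hn1, hn0]
      have h1 := InnerProductGeometry.cos_angle_mul_norm_mul_norm (F (A.ρ g e))
        (F (A.ρ g (X e b r)))
      rw [hn1, hn0, mul_one, mul_one, real_inner_comm] at h1
      rw [← h1]
      have h2 : InnerProductGeometry.angle (F (A.ρ g e)) (F (A.ρ g (X e b r))) ≤ min a Real.pi :=
        le_min hang (InnerProductGeometry.angle_le_pi _ _)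
      have h3 := Real.cos_le_cos_of_nonneg_of_le_pi (InnerProductGeometry.angle_nonneg _ _)
        (min_le_right a Real.pi) h2
      unfold phi
      linarith
    have hra : r * (a / r) = a := mul_div_cancel₀ _ h0.ne'
    have h5 := maj hM1 hM2 hM3 r hr (a / r) (div_nonneg ha0 h0.le)
    rw [hra] at h5
    have j2 := mul_le_mul_of_nonneg_left (jensen P2 cont_P2 conv_P2 _ (hcw g) r h0)
      (ca_nonneg r hr)
    have j3 := mul_le_mul_of_nonneg_left (jensen P3 cont_P3 conv_P3 _ (hcw g) r h0)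
      (cb_nonneg r hr)
    have j4 := jensen P4 cont_P4 conv_P4 _ (hcw g) r h0
    linarith
  have K1 := keyI A w C hwm hwC e b he hb heb r h0.le (fun x => x) continuous_id
  have K2 := keyI A w C hwm hwC e b he hb heb r h0.le P2 cont_P2
  have K3 := keyI A w C hwm hwC e b he hb heb r h0.le P3 cont_P3
  have K4 := keyI A w C hwm hwC e b he hb heb r h0.le P4 cont_P4
  have hLi : Integrable (fun g => ‖F (A.ρ g (X e b r)) - F (A.ρ g e)‖ ^ 2) A.μ := by
    refine Integrable.of_bound ((((hFm.comp (poincAux.meas A _)).sub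
      (hFm.comp (poincAux.meas A _))).norm).pow_const 2).aestronglyMeasurable 4
      (Filter.Eventually.of_forall fun g => ?_)
    rw [Real.norm_eq_abs, abs_of_nonneg (by positivity)]
    have hn1 : ‖F (A.ρ g (X e b r))‖ = 1 := hF1 _ (hXs g r)
    have hn0 : ‖F (A.ρ g e)‖ = 1 := by
      have := hF1 _ (hXs g 0)
      rwa [hX0] at this
    have h1 : ‖F (A.ρ g (X e b r)) - F (A.ρ g e)‖ ≤ 2 :=
      (norm_sub_le _ _).trans (by rw [hn1, hn0]; norm_num)
    nlinarith [norm_nonneg (F (A.ρ g (X e b r)) - F (A.ρ g e))]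
  have c1 : Integrable (fun _ : A.G => phi r) A.μ := integrable_const _
  have c2 : Integrable (fun g : A.G =>
      2 * r * Real.sin r * ((∫ t in (0 : ℝ)..r, w (A.ρ g (X e b t))) / r - 1)) A.μ :=
    ((K1.1.div_const r).sub (integrable_const 1)).const_mul _
  have c3 : Integrable (fun g : A.G =>
      ca r * ((∫ t in (0 : ℝ)..r, P2 (w (A.ρ g (X e b t)))) / r)) A.μ :=
    (K2.1.div_const r).const_mul _
  have c4 : Integrable (fun g : A.G =>
      cb r * ((∫ t in (0 : ℝ)..r, P3 (w (A.ρ g (X e b t)))) / r)) A.μ :=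
    (K3.1.div_const r).const_mul _
  have c5 : Integrable (fun g : A.G =>
      3 / 2 * ((∫ t in (0 : ℝ)..r, P4 (w (A.ρ g (X e b t)))) / r)) A.μ :=
    (K4.1.div_const r).const_mul _
  have hmain := integral_mono hLi ((((c1.add c2).add c3).add c4).add c5) hpt
  refine hmain.trans (le_of_eq ?_)
  have e5 := integral_add (((c1.add c2).add c3).add c4) c5
  have e4 := integral_add ((c1.add c2).add c3) c4
  have e3 := integral_add (c1.add c2) c3
  have e2 := integral_add c1 c2
  simp only [Pi.add_apply] at e5 e4 e3 e2 ⊢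
  rw [e5, e4, e3, e2, integral_const_mul, integral_const_mul, integral_const_mul,
    integral_const_mul, integral_sub (K1.1.div_const r) (integrable_const 1), integral_div,
    integral_div, integral_div, integral_div, K1.2, K2.2, K3.2, K4.2]
  simp only [integral_const, probReal_univ, smul_eq_mul, one_mul]
  field_simp

end Pool.Agent.MP562567.Q
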