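import Pool.Agent.Lib.MP_562567_gt.Q.Spec
import Pool.Agent.Lib.MP_562567_gt.Core

/-!
# MP_562567_gt, part Q: the centered conformal transform, exponent `3/2`
-/

set_option autoImplicit false

namespace Pool.Agent.MP562567.Q

open MeasureTheory Set

open CoreAux in
theorem core3 : S_Core3 := by
  intro hAtom hLapB hMob1 hMob2 hMob3 hCov hCovB hTr hHersch hLen hLip hPoi
  intro n A s R e hn hn5 hs he hsup hR hRad
  obtain ⟨f, hnull, hlip⟩ := hRad
  have hn' : (3 : ℝ) ≤ n := by exact_mod_cast hn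
  have hp : 0 < pp n := by
    unfold pp
    linarith
  obtain ⟨a, ha, hint⟩ := hHersch hAtom hMob1 n A (by omega) f hnull (ext f) (ext_coe f) e he
  obtain ⟨hv1, hv2⟩ := hTr hLapB hMob1 hMob2 hMob3 hCov hCovB n a _ hn ha hsup
  refine ⟨tr a (fun x => Real.exp (pp n * s x)), hv1, hv2, ?_⟩
  have hden : ∀ x ∈ Metric.sphere (0 : E n) 1, 0 < den a x ∧ 0 < lam a x ∧
      mob a x ∈ Metric.sphere (0 : E n) 1 := by
    intro x hx
    have hx1 : ‖x‖ = 1 := mem_sphere_zero_iff_norm.mp hx
    obtain ⟨h1, h2, h3⟩ := hMob1 n a x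
    obtain ⟨h11, h12, _⟩ := h1 ha hx1.le
    have hxa : x ≠ -a := by
      intro h
      rw [h, norm_neg] at hx1
      linarith
    obtain ⟨_, h22⟩ := h2 ha.le hx1 hxa
    exact ⟨h11, h12, mem_sphere_zero_iff_norm.mpr h22⟩
  have hmobc : ContinuousOn (mob a) (Metric.sphere 0 1) := fun x hx =>
    (hMob2 n a x ha (hden x hx).1).1.continuousAt.continuousWithinAt
  have hlamc : ContinuousOn (lam a) (Metric.sphere 0 1) := by
    unfold lam
    exact continuousOn_const.div (den_cont a).continuousOn fun x hx => (hden x hx).1.ne'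
  have hmaps : MapsTo (mob a) (Metric.sphere 0 1) (Metric.sphere 0 1) := fun x hx => (hden x hx).2.2
  set w : E n → ℝ := fun x => Real.exp (s (mob a x)) * lam a x / R with hw
  have hwc : ContinuousOn w (Metric.sphere 0 1) := by
    refine ContinuousOn.div_const ?_ R
    exact (Real.continuous_exp.comp_continuousOn (hs.comp_continuousOn hmobc)).mul hlamc
  have key := hPoi n A hn hn5 (fun x => ext f (mob a x)) w
    ((ext_cont f).comp hmobc hmaps) hwc
    (fun x hx => (div_pos (mul_pos (Real.exp_pos _) (hden x hx).2.1) hR).le)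
    (fun x hx => ext_norm f (hmaps hx))
    (fun b c hb hc hbc σ τ hστ => hLip hMob1 hMob2 hLen n s R f (ext f) a hR hs ha (ext_coe f)
      hlip b c hb hc hbc σ τ hστ) e he hint
  have hR32 : 0 < R ^ (3 / 2 : ℝ) := Real.rpow_pos_of_pos hR _
  have hpt : ∀ g : A.G, w (A.ρ g e) ^ (3 / 2 : ℝ) =
      (1 / R ^ (3 / 2 : ℝ)) *
        tr a (fun x => Real.exp (pp n * s x)) (A.ρ g e) ^ (3 / (2 * pp n)) := by
    intro g
    have hx := mem_sphere_orb A he g
    have hl := (hden _ hx).2.1
    simp only [hw, tr]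
    rw [Real.mul_rpow (Real.rpow_nonneg hl.le _) (Real.exp_pos _).le, ← Real.rpow_mul hl.le,
      ← Real.exp_mul, Real.div_rpow (mul_pos (Real.exp_pos _) hl).le hR.le,
      Real.mul_rpow (Real.exp_pos _).le hl.le, ← Real.exp_mul]
    have e1 : pp n * s (mob a (A.ρ g e)) * (3 / (2 * pp n)) = s (mob a (A.ρ g e)) * (3 / 2) := by
      field_simp
    have e2 : pp n * (3 / (2 * pp n)) = 3 / 2 := by
      field_simp
    rw [e1, e2]
    ring
  have hI : ∫ g, w (A.ρ g e) ^ (3 / 2 : ℝ) ∂A.μ =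
      (1 / R ^ (3 / 2 : ℝ)) *
        ∫ g, tr a (fun x => Real.exp (pp n * s x)) (A.ρ g e) ^ (3 / (2 * pp n)) ∂A.μ := by
    rw [← integral_const_mul]
    exact integral_congr_ae (Filter.Eventually.of_forall hpt)
  rw [hI] at key
  rw [one_div, inv_mul_eq_div, le_div_iff₀ hR32, one_mul] at key
  exact key

end Pool.Agent.MP562567.Q
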