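import Pool.Agent.Lib.MP_562567_gt.Spec

/-!
# MP_562567_gt, part Q: definitions for the Poincaré inequality with the exponent `3/2`
-/

set_option autoImplicit false

namespace Pool.Agent.MP562567.Q

open MeasureTheory Set

/-- the squared chord of an arc of length `a` on the unit sphere, `4` for `a ≥ π` -/
noncomputable def phi (a : ℝ) : ℝ := 2 - 2 * Real.cos (min a Real.pi)

noncomputable def P2 (u : ℝ) : ℝ := max (1 - u) 0 ^ 2

noncomputable def P3 (u : ℝ) : ℝ := max (1 - u) 0 ^ 3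

/-- `u^(3/2) - 1 - (3/2) (u - 1)` -/
noncomputable def hh (u : ℝ) : ℝ := u ^ (3 / 2 : ℝ) - 1 - 3 / 2 * (u - 1)

/-- `hh u` for `u ≥ 1`, `0` for `u ≤ 1` -/
noncomputable def P4 (u : ℝ) : ℝ := hh (max u 1)

/-- the coefficient of `P2` -/
noncomputable def ca (r : ℝ) : ℝ :=
  if r ≤ Real.pi / 2 then r ^ 2 * Real.cos r
  else 2 * max (571 / 1000 - 785 / 1000 * (r - Real.pi / 2) ^ 2) 0

/-- the coefficient of `P3` -/
noncomputable def cb (r : ℝ) : ℝ := if r ≤ Real.pi / 2 then r ^ 3 * Real.sin r / 3 else 0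

/-- the density of the angle -/
noncomputable def dens (n : ℕ) (r : ℝ) : ℝ := Real.sin r ^ (n - 2)

/-- the point `cos r e + sin r b` -/
noncomputable def X {n : ℕ} (e b : E n) (t : ℝ) : E n := Real.cos t • e + Real.sin t • b

end Pool.Agent.MP562567.Q
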