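import Pool.Agent.Lib.MP_562567_gt.Q.Spec
import Pool.Agent.Lib.MP_562567_gt.Final

/-!
# MP_562567_gt, part Q: the final theorem from the main inequalities and the caps
-/

set_option autoImplicit false

namespace Pool.Agent.MP562567.Q

open MeasureTheory Set

/-- the numerical condition -/
def Cond (n : ℕ) (R : ℝ) : Prop := 5 ≤ n ∨ (3 ≤ n ∧ R ^ 2 ≤ ((n : ℝ) - 2) / 3)

private theorem nonneg_c {n : ℕ} (hn : 3 ≤ n) {h : ℝ} (hh : 0 ≤ h) : 0 ≤ h / ((n : ℝ) - 1) := by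
  have : (3 : ℝ) ≤ n := by exact_mod_cast hn
  exact div_nonneg hh (by linarith)

/-- the inequality in all the cases -/
private theorem main_ineq (hMI : S_MI) (hMI3 : S_MI3) {n : ℕ} {s : E n → ℝ} {R r : ℝ}
    (hn : 3 ≤ n) (hs : ContDiff ℝ (↑(⊤ : ℕ∞)) s)
    (hscal : ∀ x ∈ Metric.closedBall (0 : E n) 1, (n : ℝ) * ((n : ℝ) - 1) ≤ scal (conf s) x)
    (hR : 0 < R) (hRad : RadGe (conf s) R) (hr : 0 < r) (hcond : Cond n r) {h : ℝ} (hh : 0 ≤ h)
    (hmc : ∀ x ∈ Metric.sphere (0 : E n) 1, h ≤ meanCurv (conf s) x)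
    (hc : 1 / r ^ 2 - 1 ≤ (h / ((n : ℝ) - 1)) ^ 2) :
    R ^ 2 * (1 + (h / ((n : ℝ) - 1)) ^ 2) ≤ 1 := by
  by_cases h6 : 6 ≤ n
  · exact (hMI n s R hn hs hscal hR hRad).2 h hh hmc (Or.inl h6)
  · refine (hMI3 n s R hn (by omega) hs hscal hR hRad).2 h hh hmc ?_
    rcases hcond with h5 | ⟨_, h3⟩
    · exact Or.inl (by omega)
    · refine Or.inr ?_
      have hr2 : 0 < r ^ 2 := by positivity
      have h1 : 1 / r ^ 2 ≤ 1 + (h / ((n : ℝ) - 1)) ^ 2 := by linarith
      have h2 : 1 / (1 + (h / ((n : ℝ) - 1)) ^ 2) ≤ r ^ 2 := by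
        rw [div_le_iff₀ (by positivity)]
        rw [div_le_iff₀ hr2] at h1
        linarith
      exact h2.trans h3

open FinalAux in
theorem final3 (hMI : S_MI) (hMI3 : S_MI3) (hCap : S_Cap) (hCapRad : S_CapRad) (hId : S_IdNot)
    (hLen : S_Len) (hAng : S_Ang) (hSc : S_Sc) (hH : S_H) (n : ℕ) (R : ℝ) (hR : 0 < R)
    (hcond : 5 ≤ n ∨ (3 ≤ n ∧ R ^ 2 ≤ ((n : ℝ) - 2) / 3)) :
    PhiConf n R = if R ≤ 1 then (((((n : ℝ) - 1) * Real.sqrt (1 / R ^ 2 - 1) : ℝ)) : EReal)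
      else ⊥ := by
  have hn : 3 ≤ n := by
    rcases hcond with h | h
    · omega
    · exact h.1
  have hn' : (3 : ℝ) ≤ n := by exact_mod_cast hn
  have hn1 : (0 : ℝ) < (n : ℝ) - 1 := by linarith
  have hC : Cond n R := hcond
  -- upper bound
  have upper : ∀ s : E n → ℝ, R ≤ 1 → ContDiff ℝ (↑(⊤ : ℕ∞)) s →
      (∀ x ∈ Metric.closedBall (0 : E n) 1, (n : ℝ) * ((n : ℝ) - 1) ≤ scal (conf s) x) →
      HasRad (conf s) R →
      ⨅ y : Sph n, ((meanCurv (conf s) (y : E n) : ℝ) : EReal) ≤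
        (((((n : ℝ) - 1) * Real.sqrt (1 / R ^ 2 - 1) : ℝ)) : EReal) := by
    intro s hR1 hs hscal hrad
    by_contra hcon
    push Not at hcon
    obtain ⟨h, h1, h2⟩ := EReal.lt_iff_exists_real_btwn.mp hcon
    have h1' : ((n : ℝ) - 1) * Real.sqrt (1 / R ^ 2 - 1) < h := by exact_mod_cast h1
    have hsn : 0 ≤ Real.sqrt (1 / R ^ 2 - 1) := Real.sqrt_nonneg _
    have hh0 : 0 ≤ h := le_trans (mul_nonneg hn1.le hsn) h1'.le
    have hmc : ∀ x ∈ Metric.sphere (0 : E n) 1, h ≤ meanCurv (conf s) x := by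
      intro x hx
      have h3 : (h : EReal) < ((meanCurv (conf s) x : ℝ) : EReal) :=
        lt_of_lt_of_le h2 (iInf_le (fun y : Sph n => ((meanCurv (conf s) (y : E n) : ℝ) : EReal))
          ⟨x, hx⟩)
      have h4 : h < meanCurv (conf s) x := by exact_mod_cast h3
      exact h4.le
    have hlt : Real.sqrt (1 / R ^ 2 - 1) < h / ((n : ℝ) - 1) := by
      rw [lt_div_iff₀ hn1]
      linarith
    have hc2 : 1 / R ^ 2 - 1 < (h / ((n : ℝ) - 1)) ^ 2 := by
      rw [← sq_val hR hR1]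
      exact pow_lt_pow_left₀ hlt hsn (by norm_num)
    have hin := main_ineq hMI hMI3 hn hs hscal hR hrad.1.2 hR hC hh0 hmc hc2.le
    have hR2 : 0 < R ^ 2 := by positivity
    have : R ^ 2 * (1 + (1 / R ^ 2 - 1)) < R ^ 2 * (1 + (h / ((n : ℝ) - 1)) ^ 2) :=
      mul_lt_mul_of_pos_left (by linarith) hR2
    have e : R ^ 2 * (1 + (1 / R ^ 2 - 1)) = 1 := by
      field_simp
      ring
    linarith
  split_ifs with hR1
  · refine le_antisymm ?_ ?_
    · unfold PhiConf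
      refine iSup_le fun s => iSup_le fun hs => iSup_le fun hscal => iSup_le fun hrad => ?_
      exact upper s hR1 hs hscal hrad
    · obtain ⟨hc1, hc2, hc3⟩ := hCap hSc hH n R (by omega) hR hR1
      have hscal : ∀ x ∈ Metric.closedBall (0 : E n) 1,
          (n : ℝ) * ((n : ℝ) - 1) ≤ scal (conf (capS n R)) x := fun x _ => (hc2 x).ge
      have hrad : HasRad (conf (capS n R)) R := by
        refine ⟨⟨hR, hCapRad hId hLen hAng hSc hH hCap n R (by omega) hR hR1⟩, ?_⟩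
        intro r hr
        obtain ⟨hr0, hr1⟩ := hr
        have hsn : 0 ≤ Real.sqrt (1 / R ^ 2 - 1) := Real.sqrt_nonneg _
        have ec : ((n : ℝ) - 1) * Real.sqrt (1 / R ^ 2 - 1) / ((n : ℝ) - 1) =
            Real.sqrt (1 / R ^ 2 - 1) := by
          field_simp
        have hin := main_ineq hMI hMI3 hn hc1 hscal hr0 hr1 hR hC
          (h := ((n : ℝ) - 1) * Real.sqrt (1 / R ^ 2 - 1)) (mul_nonneg hn1.le hsn)
          (fun x hx => (hc3 x hx).2.ge) (by rw [ec, sq_val hR hR1])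
        rw [ec, sq_val hR hR1] at hin
        have hR2 : 0 < R ^ 2 := by positivity
        have e : r ^ 2 * (1 + (1 / R ^ 2 - 1)) = r ^ 2 / R ^ 2 := by
          field_simp
          ring
        rw [e, div_le_one hR2] at hin
        exact le_of_sq_le_sq hin hR.le
      unfold PhiConf
      refine le_trans ?_ (le_iSup_of_le (capS n R) (le_iSup_of_le hc1
        (le_iSup_of_le hscal (le_iSup_of_le hrad le_rfl))))
      refine le_iInf fun y => ?_
      rw [(hc3 y y.2).2]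
  · have h5 : 5 ≤ n := by
      rcases hcond with h | ⟨h3, h⟩
      · exact h
      · by_contra h5
        have h4 : (n : ℝ) ≤ 4 := by
          have : n ≤ 4 := by omega
          exact_mod_cast this
        apply hR1
        nlinarith
    unfold PhiConf
    rw [eq_bot_iff]
    refine iSup_le fun s => iSup_le fun hs => iSup_le fun hscal => iSup_le fun hrad => ?_
    by_cases h6 : 6 ≤ n
    · exact absurd ((hMI n s R hn hs hscal hR hrad.1.2).1 h6) hR1
    · exact absurd ((hMI3 n s R hn (by omega) hs hscal hR hrad.1.2).1 (by omega)) hR1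

end Pool.Agent.MP562567.Q
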