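import Pool.Agent.Lib.MP_562567_gt.Q.Spec
import Pool.Agent.Lib.MP_562567_gt.Ineq

/-!
# MP_562567_gt, part Q: the main inequality for `n = 3, 4, 5`
-/

set_option autoImplicit false

namespace Pool.Agent.MP562567.Q

open MeasureTheory Set

/-- Cauchy-Schwarz -/
private theorem ineq3_cs {n : ℕ} (A : Avg n) {e : E n} (he : ‖e‖ = 1) {v : E n → ℝ}
    (hv : ContinuousOn v (Metric.sphere 0 1)) (hpos : ∀ x ∈ Metric.sphere (0 : E n) 1, 0 < v x)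
    (hM : 0 < ∫ g, v (A.ρ g e) ∂A.μ) :
    (∫ g, v (A.ρ g e) ^ (3 / 2 : ℝ) ∂A.μ) ^ 2 ≤
      (∫ g, v (A.ρ g e) ∂A.μ) * ∫ g, v (A.ρ g e) ^ (2 : ℝ) ∂A.μ := by
  set M := ∫ g, v (A.ρ g e) ∂A.μ with hMd
  set N := ∫ g, v (A.ρ g e) ^ (3 / 2 : ℝ) ∂A.μ with hNd
  set K := ∫ g, v (A.ρ g e) ^ (2 : ℝ) ∂A.μ with hKd
  have hc : ∀ q : ℝ, ContinuousOn (fun x => v x ^ q) (Metric.sphere 0 1) := fun q =>
    hv.rpow_const fun x hx => Or.inl (hpos x hx).ne'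
  have i1 := (IneqAux.integrable_cont A he hv).const_mul ((N / M) ^ 2)
  have i2 := (IneqAux.integrable_cont A he (hc (3 / 2))).const_mul (2 * (N / M))
  have i3 := IneqAux.integrable_cont A he (hc 2)
  have h0 : 0 ≤ ∫ g, (v (A.ρ g e) ^ (2 : ℝ) - 2 * (N / M) * v (A.ρ g e) ^ (3 / 2 : ℝ) +
      (N / M) ^ 2 * v (A.ρ g e)) ∂A.μ := by
    refine integral_nonneg fun g => ?_
    have hp := hpos _ (IneqAux.mem_sphere_orb A he g)
    have e1 : v (A.ρ g e) ^ (3 / 2 : ℝ) = v (A.ρ g e) * v (A.ρ g e) ^ (1 / 2 : ℝ) := by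
      rw [show (3 / 2 : ℝ) = 1 + 1 / 2 by norm_num, Real.rpow_add hp, Real.rpow_one]
    have e2 : (v (A.ρ g e) ^ (1 / 2 : ℝ)) ^ 2 = v (A.ρ g e) := by
      rw [← Real.rpow_natCast, ← Real.rpow_mul hp.le]
      norm_num
    have e3 : v (A.ρ g e) ^ (2 : ℝ) = v (A.ρ g e) * (v (A.ρ g e) ^ (1 / 2 : ℝ)) ^ 2 := by
      rw [e2, Real.rpow_two, sq]
    change 0 ≤ v (A.ρ g e) ^ (2 : ℝ) - 2 * (N / M) * v (A.ρ g e) ^ (3 / 2 : ℝ) +
      (N / M) ^ 2 * v (A.ρ g e)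
    rw [e1, e3]
    have e4 : v (A.ρ g e) * (v (A.ρ g e) ^ (1 / 2 : ℝ)) ^ 2 -
        2 * (N / M) * (v (A.ρ g e) * v (A.ρ g e) ^ (1 / 2 : ℝ)) + (N / M) ^ 2 * v (A.ρ g e) =
        v (A.ρ g e) * (v (A.ρ g e) ^ (1 / 2 : ℝ) - N / M) ^ 2 := by ring
    rw [e4]
    exact mul_nonneg hp.le (sq_nonneg _)
  have i32 : Integrable (fun g => v (A.ρ g e) ^ (2 : ℝ) - 2 * (N / M) * v (A.ρ g e) ^ (3 / 2 : ℝ))
      A.μ := i3.sub i2
  rw [integral_add i32 i1, integral_sub i3 i2, integral_const_mul, integral_const_mul,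
    ← hMd, ← hNd, ← hKd] at h0
  have e5 : K - 2 * (N / M) * N + (N / M) ^ 2 * M = (M * K - N ^ 2) / M := by
    field_simp
    ring
  rw [e5] at h0
  have := (div_nonneg_iff.1 h0)
  rcases this with h | h
  · linarith [h.1]
  · exact absurd h.2 (not_le.2 hM)

/-- the numerical part for `n = 3` -/
private theorem ineq3_num3 {x K c R : ℝ} (hR : 0 < R) (h1 : c ^ 2 * x ^ 2 ≤ 1 - x ^ 2)
    (hc : 1 / (1 + c ^ 2) ≤ 1 / 3) (h2 : c ^ 2 * K ^ 2 ≤ x * (1 - x ^ 2)) (h3 : R ^ 3 ≤ K ^ 2) :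
    R ^ 2 * (1 + c ^ 2) ≤ 1 := by
  have hd : 0 < 1 + c ^ 2 := by positivity
  have hc2 : 2 ≤ c ^ 2 := by
    rw [div_le_div_iff₀ hd (by norm_num)] at hc
    linarith
  obtain ⟨ρ, hρ, hρ2⟩ : ∃ ρ : ℝ, 0 < ρ ∧ ρ ^ 2 = 1 / (1 + c ^ 2) :=
    ⟨Real.sqrt (1 / (1 + c ^ 2)), Real.sqrt_pos.2 (by positivity), Real.sq_sqrt (by positivity)⟩
  have hρ3 : ρ ^ 2 ≤ 1 / 3 := by rw [hρ2]; exact hc
  have hρ4 : ρ ^ 2 * (1 + c ^ 2) = 1 := by
    rw [hρ2]; field_simp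
  have hxρ : x ≤ ρ := by
    refine le_of_sq_le_sq ?_ hρ.le
    have : x ^ 2 * (1 + c ^ 2) ≤ ρ ^ 2 * (1 + c ^ 2) := by linarith
    exact le_of_mul_le_mul_right this hd
  have h4 : x * (1 - x ^ 2) ≤ ρ * (1 - ρ ^ 2) := by
    have e1 : ρ * (1 - ρ ^ 2) - x * (1 - x ^ 2) = (ρ - x) * (1 - ρ ^ 2 - ρ * x - x ^ 2) := by ring
    have e2 : ρ * x ≤ ρ ^ 2 := by nlinarith
    have e3 : x ^ 2 ≤ ρ ^ 2 := by nlinarith
    have : 0 ≤ (ρ - x) * (1 - ρ ^ 2 - ρ * x - x ^ 2) :=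
      mul_nonneg (by linarith) (by linarith)
    linarith
  have h5 : ρ * (1 - ρ ^ 2) = c ^ 2 * ρ ^ 3 := by
    have : 1 - ρ ^ 2 = c ^ 2 * ρ ^ 2 := by linarith
    rw [this]; ring
  have h6 : c ^ 2 * R ^ 3 ≤ c ^ 2 * ρ ^ 3 := by
    have : c ^ 2 * R ^ 3 ≤ c ^ 2 * K ^ 2 := mul_le_mul_of_nonneg_left h3 (sq_nonneg c)
    linarith
  have h7 : R ^ 3 ≤ ρ ^ 3 := le_of_mul_le_mul_left h6 (by linarith)
  have h8 : R ≤ ρ := le_of_pow_le_pow_left₀ (by norm_num) hρ.le h7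
  have h9 : R ^ 2 ≤ ρ ^ 2 := pow_le_pow_left₀ hR.le h8 2
  calc R ^ 2 * (1 + c ^ 2) ≤ ρ ^ 2 * (1 + c ^ 2) := mul_le_mul_of_nonneg_right h9 hd.le
    _ = 1 := hρ4

/-- the numerical part for `n = 4` -/
private theorem ineq3_num4 {M K c R : ℝ} (hM : 0 < M) (hR : 0 < R)
    (h1 : c ^ 2 * M ^ 2 ≤ 1 - M ^ 2) (hc : 1 / (1 + c ^ 2) ≤ 2 / 3)
    (h2 : c ^ 2 * K ^ 2 ≤ M ^ 2 * (1 - M ^ 2)) (h3 : R ^ 3 ≤ M * K) :
    R ^ 2 * (1 + c ^ 2) ≤ 1 := by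
  have hd : 0 < 1 + c ^ 2 := by positivity
  have hc2 : 1 / 2 ≤ c ^ 2 := by
    rw [div_le_div_iff₀ hd (by norm_num)] at hc
    linarith
  obtain ⟨y, hy⟩ : ∃ y : ℝ, y = 1 / (1 + c ^ 2) := ⟨_, rfl⟩
  have hy0 : 0 < y := by rw [hy]; positivity
  have hy1 : y ≤ 2 / 3 := by rw [hy]; exact hc
  have hy2 : y * (1 + c ^ 2) = 1 := by
    rw [hy]; field_simp
  obtain ⟨z, hz⟩ : ∃ z : ℝ, z = M ^ 2 := ⟨_, rfl⟩
  have hz0 : 0 < z := by rw [hz]; positivity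
  rw [← hz] at h1 h2
  have hzy : z ≤ y := by
    have : z * (1 + c ^ 2) ≤ y * (1 + c ^ 2) := by linarith
    exact le_of_mul_le_mul_right this hd
  have h4 : z ^ 2 * (1 - z) ≤ y ^ 2 * (1 - y) := by
    have e1 : y ^ 2 * (1 - y) - z ^ 2 * (1 - z) =
        (y - z) * (z * (y - z) + y * (2 / 3 - y) + 2 * z * (2 / 3 - y) + (y - z) / 3) := by ring
    have : 0 ≤ (y - z) * (z * (y - z) + y * (2 / 3 - y) + 2 * z * (2 / 3 - y) + (y - z) / 3) := by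
      have a1 : 0 ≤ y - z := by linarith
      have a2 : 0 ≤ 2 / 3 - y := by linarith
      positivity
    linarith
  have h5 : y ^ 2 * (1 - y) = c ^ 2 * y ^ 3 := by
    have : 1 - y = c ^ 2 * y := by linarith
    rw [this]; ring
  have h6 : c ^ 2 * (R ^ 2) ^ 3 ≤ c ^ 2 * y ^ 3 := by
    have a1 : (R ^ 3) ^ 2 ≤ (M * K) ^ 2 := pow_le_pow_left₀ (by positivity) h3 2
    have a2 : (R ^ 2) ^ 3 = (R ^ 3) ^ 2 := by ring
    have a3 : (M * K) ^ 2 = z * K ^ 2 := by rw [hz]; ring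
    have a4 : c ^ 2 * (R ^ 3) ^ 2 ≤ c ^ 2 * (z * K ^ 2) := by
      rw [← a3]
      exact mul_le_mul_of_nonneg_left a1 (sq_nonneg c)
    have a5 : z * (c ^ 2 * K ^ 2) ≤ z * (z * (1 - z)) := mul_le_mul_of_nonneg_left h2 hz0.le
    rw [a2]
    have a6 : c ^ 2 * (z * K ^ 2) = z * (c ^ 2 * K ^ 2) := by ring
    have a7 : z * (z * (1 - z)) = z ^ 2 * (1 - z) := by ring
    linarith
  have h7 : (R ^ 2) ^ 3 ≤ y ^ 3 := le_of_mul_le_mul_left h6 (by linarith)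
  have h8 : R ^ 2 ≤ y := le_of_pow_le_pow_left₀ (by norm_num) hy0.le h7
  calc R ^ 2 * (1 + c ^ 2) ≤ y * (1 + c ^ 2) := mul_le_mul_of_nonneg_right h8 hd.le
    _ = 1 := hy2

private theorem ineq3_sq {q M N c s : ℝ} (hq : 0 < q) (hN : 0 ≤ N) (hc : 0 ≤ c) (hs : 0 ≤ s)
    (h : q * c * N ≤ q * M * Real.sqrt s) : c ^ 2 * N ^ 2 ≤ M ^ 2 * s := by
  have h1 : c * N ≤ M * Real.sqrt s := by
    have : q * (c * N) ≤ q * (M * Real.sqrt s) := by linarith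
    exact le_of_mul_le_mul_left this hq
  have h2 : (c * N) ^ 2 ≤ (M * Real.sqrt s) ^ 2 := pow_le_pow_left₀ (mul_nonneg hc hN) h1 2
  rw [mul_pow, mul_pow, Real.sq_sqrt hs] at h2
  exact h2

private theorem ineq3_R {R : ℝ} (hR : 0 < R) : (R ^ (3 / 2 : ℝ)) ^ 2 = R ^ 3 := by
  rw [← Real.rpow_natCast, ← Real.rpow_mul hR.le, ← Real.rpow_natCast R 3]
  norm_num

theorem ineq3 : S_Ineq3 := by
  intro n A v R e hn3 hn5 he hR hsup hRv hM0 hM1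
  obtain ⟨U, hU, hsub, hUd⟩ := hsup.smooth
  have hv : ContinuousOn v (Metric.sphere 0 1) :=
    hUd.continuousOn.mono (Metric.sphere_subset_closedBall.trans hsub)
  have hpos : ∀ x ∈ Metric.sphere (0 : E n) 1, 0 < v x := fun x hx =>
    hsup.pos x (Metric.sphere_subset_closedBall hx)
  have hint0 : ∀ q : ℝ, 0 ≤ ∫ g, v (A.ρ g e) ^ q ∂A.μ := fun q =>
    integral_nonneg fun g => (Real.rpow_pos_of_pos (hpos _ (IneqAux.mem_sphere_orb A he g)) _).le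
  have hM1' : ∫ g, v (A.ρ g e) ∂A.μ = ∫ g, v (A.ρ g e) ^ (1 : ℝ) ∂A.μ := by
    simp only [Real.rpow_one]
  have hjen : ∀ q : ℝ, 1 ≤ q → (∫ g, v (A.ρ g e) ∂A.μ) ^ q ≤ ∫ g, v (A.ρ g e) ^ q ∂A.μ := by
    intro q hq
    have hq0 : 0 < q := by linarith
    have h := IneqAux.pm A he hv hpos one_pos hq
    rw [← hM1'] at h
    have h2 := Real.rpow_le_rpow hM0.le h hq0.le
    rwa [← Real.rpow_mul (hint0 q), one_div_mul_cancel hq0.ne', Real.rpow_one] at h2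
  have hcs := ineq3_cs A he hv hpos hM0
  set M := ∫ g, v (A.ρ g e) ∂A.μ with hMdef
  obtain rfl | rfl | rfl : n = 3 ∨ n = 4 ∨ n = 5 := by omega
  · -- n = 3
    have hp : pp 3 = 1 / 2 := by unfold pp; norm_num
    rw [hp] at hRv ⊢
    norm_num only at hRv
    refine ⟨fun h => absurd h (by norm_num), fun c hc hineq hcase => ?_⟩
    have hcase' : 1 / (1 + c ^ 2) ≤ 1 / 3 := by
      rcases hcase with h | h
      · exact absurd h (by norm_num)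
      · norm_num at h ⊢
        exact h
    norm_num only at hineq
    have hK0 := hint0 3
    have hJ := hjen 3 (by norm_num)
    set K := ∫ g, v (A.ρ g e) ^ (3 : ℝ) ∂A.μ with hKdef
    have eM : M ^ (4 : ℝ) = M ^ 4 := by exact_mod_cast Real.rpow_natCast M 4
    have eM3 : M ^ (3 : ℝ) = M ^ 3 := by exact_mod_cast Real.rpow_natCast M 3
    rw [eM] at hineq
    rw [eM3] at hJ
    have hM4 : M ^ 4 ≤ 1 := pow_le_one₀ hM0.le hM1
    have hsq := ineq3_sq (by norm_num) hK0 hc (by linarith) hineq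
    have hK6 : (M ^ 3) ^ 2 ≤ K ^ 2 := pow_le_pow_left₀ (by positivity) hJ 2
    have h1 : c ^ 2 * (M ^ 2) ^ 2 ≤ 1 - (M ^ 2) ^ 2 := by
      have a1 : c ^ 2 * (M ^ 3) ^ 2 ≤ M ^ 2 * (1 - M ^ 4) :=
        (mul_le_mul_of_nonneg_left hK6 (sq_nonneg c)).trans hsq
      have a2 : M ^ 2 * (c ^ 2 * (M ^ 2) ^ 2) ≤ M ^ 2 * (1 - (M ^ 2) ^ 2) := by
        have e1 : M ^ 2 * (c ^ 2 * (M ^ 2) ^ 2) = c ^ 2 * (M ^ 3) ^ 2 := by ring
        have e2 : M ^ 2 * (1 - (M ^ 2) ^ 2) = M ^ 2 * (1 - M ^ 4) := by ring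
        rw [e1, e2]; exact a1
      exact le_of_mul_le_mul_left a2 (by positivity)
    refine ineq3_num3 (x := M ^ 2) (K := K) hR h1 hcase' ?_ ?_
    · have e2 : M ^ 2 * (1 - (M ^ 2) ^ 2) = M ^ 2 * (1 - M ^ 4) := by ring
      rw [e2]; exact hsq
    · rw [← ineq3_R hR]
      exact pow_le_pow_left₀ (by positivity) hRv 2
  · -- n = 4
    have hp : pp 4 = 1 := by unfold pp; norm_num
    rw [hp] at hRv ⊢
    norm_num only at hRv
    refine ⟨fun h => absurd h (by norm_num), fun c hc hineq hcase => ?_⟩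
    have hcase' : 1 / (1 + c ^ 2) ≤ 2 / 3 := by
      rcases hcase with h | h
      · exact absurd h (by norm_num)
      · norm_num at h ⊢
        exact h
    norm_num only at hineq
    have hK0 := hint0 2
    have hJ := hjen 2 (by norm_num)
    set K := ∫ g, v (A.ρ g e) ^ (2 : ℝ) ∂A.μ with hKdef
    have eM : M ^ (2 : ℝ) = M ^ 2 := by exact_mod_cast Real.rpow_natCast M 2
    rw [eM] at hineq hJ
    have hM2 : M ^ 2 ≤ 1 := pow_le_one₀ hM0.le hM1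
    have hsq := ineq3_sq (by norm_num) hK0 hc (by linarith) hineq
    have hK6 : (M ^ 2) ^ 2 ≤ K ^ 2 := pow_le_pow_left₀ (by positivity) hJ 2
    have h1 : c ^ 2 * M ^ 2 ≤ 1 - M ^ 2 := by
      have a1 : c ^ 2 * (M ^ 2) ^ 2 ≤ M ^ 2 * (1 - M ^ 2) :=
        (mul_le_mul_of_nonneg_left hK6 (sq_nonneg c)).trans hsq
      have a2 : M ^ 2 * (c ^ 2 * M ^ 2) ≤ M ^ 2 * (1 - M ^ 2) := by
        have e1 : M ^ 2 * (c ^ 2 * M ^ 2) = c ^ 2 * (M ^ 2) ^ 2 := by ring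
        rw [e1]; exact a1
      exact le_of_mul_le_mul_left a2 (by positivity)
    refine ineq3_num4 hM0 hR h1 hcase' hsq ?_
    rw [← ineq3_R hR]
    exact (pow_le_pow_left₀ (by positivity) hRv 2).trans hcs
  · -- n = 5
    have hp : pp 5 = 3 / 2 := by unfold pp; norm_num
    rw [hp] at hRv ⊢
    norm_num only at hRv
    rw [← hM1'] at hRv
    have hR1 : R ≤ 1 := by
      have h1 : R ^ (3 / 2 : ℝ) ≤ 1 := hRv.trans hM1
      by_contra h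
      push Not at h
      exact absurd h1 (not_le.2 (Real.one_lt_rpow h (by norm_num)))
    refine ⟨fun _ => hR1, fun c hc hineq _ => ?_⟩
    norm_num only at hineq
    have hK0 := hint0 (5 / 3)
    have hJ := hjen (5 / 3) (by norm_num)
    set K := ∫ g, v (A.ρ g e) ^ (5 / 3 : ℝ) ∂A.μ with hKdef
    have hM43 : M ^ (4 / 3 : ℝ) ≤ 1 := Real.rpow_le_one hM0.le hM1 (by norm_num)
    have hsq := ineq3_sq (by norm_num) hK0 hc (by linarith) hineq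
    have hK6 : (M ^ (5 / 3 : ℝ)) ^ 2 ≤ K ^ 2 := pow_le_pow_left₀ (by positivity) hJ 2
    have e1 : (M ^ (5 / 3 : ℝ)) ^ 2 = M ^ 2 * M ^ (4 / 3 : ℝ) := by
      rw [← Real.rpow_natCast, ← Real.rpow_mul hM0.le, ← Real.rpow_natCast M 2,
        ← Real.rpow_add hM0]
      norm_num
    rw [e1] at hK6
    have a1 : c ^ 2 * (M ^ 2 * M ^ (4 / 3 : ℝ)) ≤ M ^ 2 * (1 - M ^ (4 / 3 : ℝ)) :=
      (mul_le_mul_of_nonneg_left hK6 (sq_nonneg c)).trans hsq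
    have a2 : M ^ 2 * (c ^ 2 * M ^ (4 / 3 : ℝ)) ≤ M ^ 2 * (1 - M ^ (4 / 3 : ℝ)) := by linarith
    have a3 := le_of_mul_le_mul_left a2 (by positivity)
    have a4 : R ^ 2 ≤ M ^ (4 / 3 : ℝ) := by
      have := Real.rpow_le_rpow (by positivity) hRv (show (0 : ℝ) ≤ 4 / 3 by norm_num)
      rw [← Real.rpow_mul hR.le] at this
      norm_num at this
      exact this
    have a5 : R ^ 2 * (1 + c ^ 2) ≤ M ^ (4 / 3 : ℝ) * (1 + c ^ 2) :=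
      mul_le_mul_of_nonneg_right a4 (by positivity)
    linarith

end Pool.Agent.MP562567.Q
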