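import Pool.Agent.Lib.MP_562567_gt.Q.Spec
import Pool.Agent.Lib.MP_562567_gt.LapB
import Pool.Agent.Lib.MP_562567_gt.Rad2
import Pool.Agent.Lib.MP_562567_gt.Poinc

/-!
# MP_562567_gt, part Q: the law of the angle of a random unit vector
-/

set_option autoImplicit false

namespace Pool.Agent.MP562567.Q

open MeasureTheory Set

variable {n : ℕ}

private noncomputable def fL (e : E n) : E n →L[ℝ] ℝ := innerSL ℝ e

private theorem fL_apply (e x : E n) : fL e x = inner ℝ x e := by
  rw [real_inner_comm]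
  rfl

private theorem der1 (e : E n) (j : ℕ) (x : E n) :
    HasFDerivAt (fun x : E n => fL e x ^ (j + 2)) ((((j + 2 : ℕ) : ℝ) * fL e x ^ (j + 1)) • fL e)
      x := by
  have h := (hasDerivAt_pow (j + 2) (fL e x)).comp_hasFDerivAt x (fL e).hasFDerivAt
  exact h

private theorem der2 (e : E n) (j : ℕ) (x : E n) :
    HasFDerivAt (fun x : E n => (((j + 2 : ℕ) : ℝ) * fL e x ^ (j + 1)) • fL e)
      (((((j + 2 : ℕ) : ℝ) * ((((j + 1 : ℕ) : ℝ) * fL e x ^ j))) • fL e).smulRight (fL e)) x := by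
  have h := (hasDerivAt_pow (j + 1) (fL e x)).comp_hasFDerivAt x (fL e).hasFDerivAt
  have h2 := (h.const_mul ((j + 2 : ℕ) : ℝ)).smul_const (fL e)
  refine h2.congr_fderiv ?_
  congr 1
  rw [smul_smul]
  rfl

private theorem fd1 (e : E n) (j : ℕ) : fderiv ℝ (fun x : E n => fL e x ^ (j + 2)) =
    fun x => (((j + 2 : ℕ) : ℝ) * fL e x ^ (j + 1)) • fL e := by
  funext x
  exact (der1 e j x).fderiv

private theorem fd2 (e : E n) (j : ℕ) (x y z : E n) :
    fderiv ℝ (fderiv ℝ (fun x : E n => fL e x ^ (j + 2))) x y z =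
      ((j + 2 : ℕ) : ℝ) * ((j + 1 : ℕ) : ℝ) * fL e x ^ j * (fL e y * fL e z) := by
  rw [fd1, (der2 e j x).fderiv]
  simp only [ContinuousLinearMap.smulRight_apply, smul_apply, smul_eq_mul]
  ring

private theorem smoothP (e : E n) (j : ℕ) : ContDiff ℝ 2 fun x : E n => fL e x ^ (j + 2) :=
  (fL e).contDiff.pow _

private theorem lapP (e : E n) (he : ‖e‖ = 1) (j : ℕ) (x : E n) :
    lap (fun x : E n => fL e x ^ (j + 2)) x =
      ((j + 2 : ℕ) : ℝ) * ((j + 1 : ℕ) : ℝ) * fL e x ^ j := by
  rw [lapB n _ x (smoothP e j).contDiffAt (EuclideanSpace.basisFun (Fin n) ℝ)]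
  simp only [fd2]
  rw [← Finset.mul_sum]
  have h : ∑ i, fL e (EuclideanSpace.basisFun (Fin n) ℝ i) *
      fL e (EuclideanSpace.basisFun (Fin n) ℝ i) = 1 := by
    have h1 := (EuclideanSpace.basisFun (Fin n) ℝ).sum_inner_mul_inner e e
    rw [real_inner_self_eq_norm_sq, he, one_pow] at h1
    rw [← h1]
    refine Finset.sum_congr rfl fun i _ => ?_
    rw [fL_apply]
    rw [real_inner_comm]
  rw [h, mul_one]

private noncomputable def TT (A : Avg n) (e : E n) (g : A.G) : ℝ := inner ℝ (A.ρ g e) e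

private theorem TT_meas (A : Avg n) (e : E n) : Measurable (TT A e) :=
  (poincAux.meas A e).inner measurable_const

private theorem TT_abs (A : Avg n) (e : E n) (he : ‖e‖ = 1) (g : A.G) : |TT A e g| ≤ 1 := by
  have h := abs_real_inner_le_norm (A.ρ g e) e
  rwa [LinearIsometryEquiv.norm_map, he, one_mul] at h

private theorem TT_int (A : Avg n) (e : E n) (he : ‖e‖ = 1) (j : ℕ) :
    Integrable (fun g => TT A e g ^ j) A.μ :=
  Integrable.of_bound ((TT_meas A e).pow_const j).aestronglyMeasurable 1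
    (Filter.Eventually.of_forall fun g => by
      rw [Real.norm_eq_abs, abs_pow]
      exact pow_le_one₀ (abs_nonneg _) (TT_abs A e he g))

private theorem M_one (A : Avg n) (e : E n) : ∫ g, TT A e g ∂A.μ = 0 := by
  obtain ⟨k, hk⟩ := poincAux.exists_rho A (y := e) (y' := -e) (by rw [norm_neg])
  have h3 := poincAux.rinv A k (fun g => TT A e g) (TT_meas A e).aestronglyMeasurable
  simp only [TT, poincAux.rho_mul, hk, map_neg, inner_neg_left] at h3
  rw [integral_neg] at h3
  unfold TT
  linarith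

private theorem M_rec (A : Avg n) (e : E n) (he : ‖e‖ = 1) (j : ℕ) :
    ((j : ℝ) + n) * ∫ g, TT A e g ^ (j + 2) ∂A.μ = ((j : ℝ) + 1) * ∫ g, TT A e g ^ j ∂A.μ := by
  have h := rad2 lapB n A (fun x : E n => fL e x ^ (j + 2)) univ isOpen_univ (subset_univ _)
    (smoothP e j).contDiffOn e he 1 ⟨zero_le_one, le_refl 1⟩
  simp only [one_smul, fd2, lapP e he, one_mul] at h
  have h2 : ∀ g, fderiv ℝ (fun x : E n => fL e x ^ (j + 2)) (A.ρ g e) (A.ρ g e) =
      ((j + 2 : ℕ) : ℝ) * TT A e g ^ (j + 2) := by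
    intro g
    rw [fd1]
    simp only [smul_apply, smul_eq_mul, fL_apply]
    rw [TT]
    ring
  have hf : ∀ g, fL e (A.ρ g e) = TT A e g := fun g => fL_apply e _
  simp only [h2, hf] at h
  have h3 : ∀ g, ((j + 2 : ℕ) : ℝ) * ((j + 1 : ℕ) : ℝ) * TT A e g ^ j *
      (TT A e g * TT A e g) =
      (((j + 2 : ℕ) : ℝ) * ((j + 1 : ℕ) : ℝ)) * TT A e g ^ (j + 2) := by
    intro g
    ring
  simp only [h3] at h
  rw [integral_const_mul, integral_const_mul, integral_const_mul] at h
  push_cast at h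
  have h5 : ((j : ℝ) + 2) ≠ 0 := by positivity
  have h6 : ((j : ℝ) + 2) * (((j : ℝ) + n) * ∫ g, TT A e g ^ (j + 2) ∂A.μ) =
      ((j : ℝ) + 2) * (((j : ℝ) + 1) * ∫ g, TT A e g ^ j ∂A.μ) := by
    linarith
  exact mul_left_cancel₀ h5 h6

private theorem cont_cs (j k : ℕ) : Continuous fun r : ℝ => Real.cos r ^ j * Real.sin r ^ k := by
  fun_prop

private theorem m_rec (k j : ℕ) :
    ((j : ℝ) + (k + 2)) * ∫ r in (0 : ℝ)..Real.pi, Real.cos r ^ (j + 2) * Real.sin r ^ k =
      ((j : ℝ) + 1) * ∫ r in (0 : ℝ)..Real.pi, Real.cos r ^ j * Real.sin r ^ k := by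
  have hd : ∀ r ∈ uIcc (0 : ℝ) Real.pi,
      HasDerivAt (fun r => Real.cos r ^ (j + 1) * Real.sin r ^ (k + 1))
        (((j : ℝ) + (k + 2)) * (Real.cos r ^ (j + 2) * Real.sin r ^ k) -
          ((j : ℝ) + 1) * (Real.cos r ^ j * Real.sin r ^ k)) r := by
    intro r _
    have h1 := ((Real.hasDerivAt_cos r).pow (j + 1)).mul ((Real.hasDerivAt_sin r).pow (k + 1))
    refine h1.congr_deriv ?_
    simp only [Nat.add_sub_cancel, Pi.pow_apply]
    push_cast
    have hs : Real.sin r ^ 2 = 1 - Real.cos r ^ 2 := by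
      have := Real.sin_sq_add_cos_sq r
      linarith
    have h2 : Real.sin r ^ (k + 1) = Real.sin r ^ k * Real.sin r := pow_succ _ _
    have h3 : Real.cos r ^ (j + 1) = Real.cos r ^ j * Real.cos r := pow_succ _ _
    have h4 : Real.cos r ^ (j + 2) = Real.cos r ^ j * Real.cos r ^ 2 := pow_add _ _ _
    rw [h2, h3, h4]
    have h5 : Real.cos r ^ 2 = 1 - Real.sin r ^ 2 := by linarith
    linear_combination (-((j : ℝ) + 1) * Real.cos r ^ j * Real.sin r ^ k) * hs
  have h1 := intervalIntegral.integral_eq_sub_of_hasDerivAt hd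
    (Continuous.intervalIntegrable (by fun_prop) _ _)
  rw [Real.sin_pi, Real.sin_zero, zero_pow (Nat.succ_ne_zero k), mul_zero, mul_zero, sub_zero,
    intervalIntegral.integral_sub, intervalIntegral.integral_const_mul,
    intervalIntegral.integral_const_mul] at h1
  · linarith
  · exact Continuous.intervalIntegrable (by fun_prop) _ _
  · exact Continuous.intervalIntegrable (by fun_prop) _ _

private theorem m_one (k : ℕ) :
    ∫ r in (0 : ℝ)..Real.pi, Real.cos r ^ 1 * Real.sin r ^ k = 0 := by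
  have hd : ∀ r ∈ uIcc (0 : ℝ) Real.pi,
      HasDerivAt (fun r => Real.sin r ^ (k + 1))
        (((k : ℝ) + 1) * (Real.cos r ^ 1 * Real.sin r ^ k)) r := by
    intro r _
    refine ((Real.hasDerivAt_sin r).pow (k + 1)).congr_deriv ?_
    simp only [Nat.add_sub_cancel]
    push_cast
    ring
  have h1 := intervalIntegral.integral_eq_sub_of_hasDerivAt hd
    (Continuous.intervalIntegrable (by fun_prop) _ _)
  rw [Real.sin_pi, Real.sin_zero, zero_pow (Nat.succ_ne_zero k), sub_zero,
    intervalIntegral.integral_const_mul] at h1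
  have h2 : ((k : ℝ) + 1) ≠ 0 := by positivity
  exact (mul_eq_zero.1 h1).resolve_left h2

private theorem mom (A : Avg n) (hn : 3 ≤ n) (e : E n) (he : ‖e‖ = 1) (j : ℕ) :
    (∫ r in (0 : ℝ)..Real.pi, dens n r) * ∫ g, TT A e g ^ j ∂A.μ =
      ∫ r in (0 : ℝ)..Real.pi, Real.cos r ^ j * dens n r := by
  have key : ∀ j : ℕ, ((∫ r in (0 : ℝ)..Real.pi, dens n r) * ∫ g, TT A e g ^ j ∂A.μ =
      ∫ r in (0 : ℝ)..Real.pi, Real.cos r ^ j * dens n r) ∧
      ((∫ r in (0 : ℝ)..Real.pi, dens n r) * ∫ g, TT A e g ^ (j + 1) ∂A.μ =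
      ∫ r in (0 : ℝ)..Real.pi, Real.cos r ^ (j + 1) * dens n r) := by
    intro j
    induction j with
    | zero =>
      refine ⟨?_, ?_⟩
      · simp only [pow_zero, one_mul, integral_const, probReal_univ, smul_eq_mul, mul_one]
      · simp only [zero_add, pow_one]
        rw [M_one, mul_zero]
        have h := m_one (n - 2)
        simp only [pow_one] at h
        exact h.symm
    | succ j ih =>
      refine ⟨ih.2, ?_⟩
      have h1 := M_rec A e he j
      have h2 := m_rec (n - 2) j
      have h3 : (((n - 2 : ℕ) : ℝ) + 2) = n := by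
        rw [Nat.cast_sub (by omega)]
        push_cast
        ring
      rw [h3] at h2
      have h4 : ((j : ℝ) + n) ≠ 0 := by
        have : (3 : ℝ) ≤ n := by exact_mod_cast hn
        positivity
      refine mul_left_cancel₀ h4 ?_
      have h5 := ih.1
      change (∫ r in (0 : ℝ)..Real.pi, dens n r) * ∫ g, TT A e g ^ j ∂A.μ =
        ∫ r in (0 : ℝ)..Real.pi, Real.cos r ^ j * Real.sin r ^ (n - 2) at h5
      change ((j : ℝ) + n) * ((∫ r in (0 : ℝ)..Real.pi, dens n r) *
        ∫ g, TT A e g ^ (j + 2) ∂A.μ) =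
        ((j : ℝ) + n) * ∫ r in (0 : ℝ)..Real.pi, Real.cos r ^ (j + 2) * Real.sin r ^ (n - 2)
      rw [h2, ← h5]
      linear_combination (∫ r in (0 : ℝ)..Real.pi, dens n r) * h1
  exact (key j).1

private theorem dens_cont : Continuous (dens n) := by
  unfold dens
  fun_prop

private theorem dens_nonneg {r : ℝ} (hr : r ∈ Icc (0 : ℝ) Real.pi) : 0 ≤ dens n r :=
  pow_nonneg (Real.sin_nonneg_of_mem_Icc hr) _

private theorem polyL (A : Avg n) (hn : 3 ≤ n) (e : E n) (he : ‖e‖ = 1)
    (p : Polynomial ℝ) :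
    (∫ r in (0 : ℝ)..Real.pi, dens n r) * ∫ g, p.eval (TT A e g) ∂A.μ =
      ∫ r in (0 : ℝ)..Real.pi, p.eval (Real.cos r) * dens n r := by
  simp only [Polynomial.eval_eq_sum_range, Finset.sum_mul]
  rw [integral_finsetSum, intervalIntegral.integral_finsetSum, Finset.mul_sum]
  · refine Finset.sum_congr rfl fun j _ => ?_
    rw [integral_const_mul]
    have h := mom A hn e he j
    have h2 : ∀ r, p.coeff j * Real.cos r ^ j * dens n r =
        p.coeff j * (Real.cos r ^ j * dens n r) := fun r => mul_assoc _ _ _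
    simp only [h2]
    rw [intervalIntegral.integral_const_mul, ← h]
    ring
  · intro j _
    have := dens_cont (n := n)
    exact Continuous.intervalIntegrable (by fun_prop) _ _
  · intro j _
    exact (TT_int A e he j).const_mul _

private theorem contL (A : Avg n) (hn : 3 ≤ n) (e : E n) (he : ‖e‖ = 1)
    (f : ℝ → ℝ) (hf : Continuous f) :
    (∫ r in (0 : ℝ)..Real.pi, dens n r) * ∫ g, f (TT A e g) ∂A.μ =
      ∫ r in (0 : ℝ)..Real.pi, f (Real.cos r) * dens n r := by
  have hdc := dens_cont (n := n)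
  set m0 : ℝ := ∫ r in (0 : ℝ)..Real.pi, dens n r with hm0
  have hm : 0 ≤ m0 := intervalIntegral.integral_nonneg Real.pi_pos.le fun r hr => dens_nonneg hr
  have hT : ∀ g, TT A e g ∈ Icc (-1 : ℝ) 1 := fun g => abs_le.1 (TT_abs A e he g)
  obtain ⟨C, hC⟩ := (isCompact_Icc (a := (-1 : ℝ)) (b := 1)).exists_bound_of_continuousOn
    hf.continuousOn
  have hfi : Integrable (fun g => f (TT A e g)) A.μ :=
    Integrable.of_bound (hf.measurable.comp (TT_meas A e)).aestronglyMeasurable C
      (Filter.Eventually.of_forall fun g => hC _ (hT g))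
  have key : ∀ ε : ℝ, 0 < ε → |m0 * ∫ g, f (TT A e g) ∂A.μ -
      ∫ r in (0 : ℝ)..Real.pi, f (Real.cos r) * dens n r| ≤ 2 * m0 * ε := by
    intro ε hε
    obtain ⟨p, hp⟩ := exists_polynomial_near_of_continuousOn (-1) 1 f hf.continuousOn ε hε
    have hpi : Integrable (fun g => p.eval (TT A e g)) A.μ := by
      obtain ⟨D, hD⟩ := (isCompact_Icc (a := (-1 : ℝ)) (b := 1)).exists_bound_of_continuousOn
        p.continuous.continuousOn
      exact Integrable.of_bound (p.continuous.measurable.comp (TT_meas A e)).aestronglyMeasurable D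
        (Filter.Eventually.of_forall fun g => hD _ (hT g))
    have h1 := polyL A hn e he p
    have h2 : |∫ g, f (TT A e g) ∂A.μ - ∫ g, p.eval (TT A e g) ∂A.μ| ≤ ε := by
      rw [← integral_sub hfi hpi, ← Real.norm_eq_abs]
      have := norm_integral_le_of_norm_le_const (μ := A.μ) (C := ε)
        (f := fun g => f (TT A e g) - p.eval (TT A e g)) (Filter.Eventually.of_forall fun g => by
          rw [Real.norm_eq_abs, abs_sub_comm]
          exact (hp _ (hT g)).le)
      simpa using this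
    have h3 : |(∫ r in (0 : ℝ)..Real.pi, f (Real.cos r) * dens n r) -
        ∫ r in (0 : ℝ)..Real.pi, p.eval (Real.cos r) * dens n r| ≤ m0 * ε := by
      have hc1 : Continuous fun r => f (Real.cos r) * dens n r := by fun_prop
      have hc2 : Continuous fun r => p.eval (Real.cos r) * dens n r := by fun_prop
      rw [← intervalIntegral.integral_sub (hc1.intervalIntegrable _ _)
        (hc2.intervalIntegrable _ _)]
      refine (intervalIntegral.abs_integral_le_integral_abs Real.pi_pos.le).trans ?_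
      have h4 : ∀ r ∈ Icc (0 : ℝ) Real.pi,
          |f (Real.cos r) * dens n r - p.eval (Real.cos r) * dens n r| ≤ dens n r * ε := by
        intro r hr
        rw [← sub_mul, abs_mul, abs_of_nonneg (dens_nonneg hr), mul_comm]
        refine mul_le_mul_of_nonneg_left ?_ (dens_nonneg hr)
        rw [abs_sub_comm]
        exact (hp _ ⟨Real.neg_one_le_cos r, Real.cos_le_one r⟩).le
      have h5 := intervalIntegral.integral_mono_on Real.pi_pos.le
        (μ := volume) ((hc1.sub hc2).abs.intervalIntegrable 0 Real.pi)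
        ((hdc.mul_const ε).intervalIntegrable 0 Real.pi) h4
      rw [intervalIntegral.integral_mul_const] at h5
      exact h5
    have h4 : m0 * ∫ g, f (TT A e g) ∂A.μ -
        ∫ r in (0 : ℝ)..Real.pi, f (Real.cos r) * dens n r =
        m0 * (∫ g, f (TT A e g) ∂A.μ - ∫ g, p.eval (TT A e g) ∂A.μ) -
        ((∫ r in (0 : ℝ)..Real.pi, f (Real.cos r) * dens n r) -
        ∫ r in (0 : ℝ)..Real.pi, p.eval (Real.cos r) * dens n r) := by
      rw [← h1]
      ring
    rw [h4]
    refine (abs_sub _ _).trans ?_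
    rw [abs_mul, abs_of_nonneg hm]
    have := mul_le_mul_of_nonneg_left h2 hm
    linarith
  have h0 : |m0 * ∫ g, f (TT A e g) ∂A.μ -
      ∫ r in (0 : ℝ)..Real.pi, f (Real.cos r) * dens n r| ≤ 0 := by
    refine le_of_forall_pos_le_add fun δ hδ => ?_
    refine (key (δ / (2 * m0 + 1)) (by positivity)).trans ?_
    rw [zero_add, ← mul_div_assoc, div_le_iff₀ (by positivity)]
    nlinarith
  exact sub_eq_zero.1 (abs_nonpos_iff.1 h0)

theorem law : S_Law := by
  intro n A hn e he Θ hΘ hΘb
  have hdc := dens_cont (n := n)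
  set m0 : ℝ := ∫ r in (0 : ℝ)..Real.pi, dens n r with hm0
  have hm : 0 ≤ m0 := intervalIntegral.integral_nonneg Real.pi_pos.le fun r hr => dens_nonneg hr
  let ν₁ : Measure ℝ := ENNReal.ofReal m0 • A.μ.map (TT A e)
  let ν₀ : Measure ℝ := ((volume : Measure ℝ).restrict (Ioc 0 Real.pi)).withDensity
    fun r => ENNReal.ofReal (dens n r)
  let ν₂ : Measure ℝ := ν₀.map Real.cos
  have hi : Integrable (dens n) ((volume : Measure ℝ).restrict (Ioc 0 Real.pi)) :=
    (hdc.intervalIntegrable 0 Real.pi).1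
  have f0 : IsFiniteMeasure ν₀ := isFiniteMeasure_withDensity_ofReal hi.2
  have f2 : IsFiniteMeasure ν₂ := by
    change IsFiniteMeasure (ν₀.map Real.cos)
    infer_instance
  have f1 : IsFiniteMeasure ν₁ := by
    have : IsFiniteMeasure (A.μ.map (TT A e)) := inferInstance
    exact Measure.smul_finite _ ENNReal.ofReal_ne_top
  have i1 : ∀ f : ℝ → ℝ, Measurable f → ∫ x, f x ∂ν₁ = m0 * ∫ g, f (TT A e g) ∂A.μ := by
    intro f hf
    change ∫ x, f x ∂(ENNReal.ofReal m0 • A.μ.map (TT A e)) = _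
    rw [integral_smul_measure, ENNReal.toReal_ofReal hm, smul_eq_mul,
      integral_map (TT_meas A e).aemeasurable hf.aestronglyMeasurable]
  have i2 : ∀ f : ℝ → ℝ, Measurable f →
      ∫ x, f x ∂ν₂ = ∫ r in (0 : ℝ)..Real.pi, f (Real.cos r) * dens n r := by
    intro f hf
    change ∫ x, f x ∂(ν₀.map Real.cos) = _
    rw [integral_map Real.measurable_cos.aemeasurable hf.aestronglyMeasurable,
      intervalIntegral.integral_of_le Real.pi_pos.le]
    have h1 := integral_withDensity_eq_integral_toReal_smul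
      (μ := (volume : Measure ℝ).restrict (Ioc 0 Real.pi))
      (f := fun r => ENNReal.ofReal (dens n r)) hdc.measurable.ennreal_ofReal
      (Filter.Eventually.of_forall fun r => ENNReal.ofReal_lt_top)
      (fun r => f (Real.cos r))
    change ∫ x, f (Real.cos x) ∂ν₀ = _ at h1
    rw [h1]
    refine setIntegral_congr_fun measurableSet_Ioc fun r hr => ?_
    simp only [smul_eq_mul]
    rw [ENNReal.toReal_ofReal (dens_nonneg ⟨hr.1.le, hr.2⟩), mul_comm]
  have hν : ν₁ = ν₂ := by
    refine ext_of_forall_integral_eq_of_IsFiniteMeasure fun f => ?_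
    rw [i1 f f.continuous.measurable, i2 f f.continuous.measurable]
    exact contL A hn e he f f.continuous
  have hm2 : Measurable fun t => Θ (Real.arccos t) := hΘ.comp Real.measurable_arccos
  have h1 := i1 _ hm2
  have h2 := i2 _ hm2
  rw [hν, h2] at h1
  change m0 * ∫ g, Θ (Real.arccos (TT A e g)) ∂A.μ = _
  rw [← h1]
  refine intervalIntegral.integral_congr fun r hr => ?_
  rw [uIcc_of_le Real.pi_pos.le] at hr
  rw [Real.arccos_cos hr.1 hr.2]

end Pool.Agent.MP562567.Q
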