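import Pool.Agent.Lib.MP_562567_gt.Q.Spec

/-!
# MP_562567_gt, part Q: the main inequality for metrics, `n = 3, 4, 5`
-/

set_option autoImplicit false

namespace Pool.Agent.MP562567.Q

open MeasureTheory Set

/-- the main inequality, from the statements of the modules -/
theorem mi3Of (hAvg : S_Avg) (hAtom : S_Atom) (hOde : S_Ode) (hLapB : S_LapB) (hRad1 : S_Rad1)
    (hRad2 : S_Rad2) (hMean : S_Mean) (hMob1 : S_Mob1) (hMob2 : S_Mob2) (hMob3 : S_Mob3)
    (hCov : S_Cov) (hCovB : S_CovB) (hTr : S_Tr) (hHersch : S_Hersch) (hLen : S_Len)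
    (hLip : S_LipA) (hPoi : S_Poi') (hCore : S_Core3) (hIneq : S_Ineq3) (hSc : S_Sc) (hH : S_H)
    (hUS : S_US) : S_MI3 := by
  intro n s R hn hn5 hs hscal hR hRad
  obtain ⟨A⟩ := hAvg n
  have hn' : (3 : ℝ) ≤ n := by exact_mod_cast hn
  obtain ⟨hsup, hbd⟩ := hUS hSc hH n s hn hs hscal
  set e : E n := EuclideanSpace.single (⟨0, by omega⟩ : Fin n) (1 : ℝ) with hedef
  have he : ‖e‖ = 1 := by
    rw [hedef, PiLp.norm_single, norm_one]
  obtain ⟨v, hv, hvb, hRv⟩ := hCore hAtom hLapB hMob1 hMob2 hMob3 hCov hCovB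
    hTr hHersch hLen hLip hPoi n A s R e hn hn5 hs.continuous he hsup hR hRad
  obtain ⟨hM0, hM1, hmean⟩ := hMean hOde hLapB hRad1 hRad2 n A v hn hv e he
  obtain ⟨h6, hc⟩ := hIneq n A v R e hn hn5 he hR hv hRv hM0 hM1
  refine ⟨h6, ?_⟩
  intro h hh hmc hcase
  have hp : 0 < pp n := by
    unfold pp
    linarith
  have hc0 : 0 ≤ h / ((n : ℝ) - 1) := div_nonneg hh (by linarith)
  exact hc (h / ((n : ℝ) - 1)) hc0
    (hmean (pp n * (h / ((n : ℝ) - 1))) (mul_nonneg hp.le hc0) (hvb _ (hbd h hmc))) hcase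

end Pool.Agent.MP562567.Q
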