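import Pool.Agent.Lib.MP_562567_gt.Q.Spec

/-!
# MP_562567_gt, part Q: the majorant for `u ≤ 1`, `r ≤ π/2`
-/

set_option autoImplicit false

namespace Pool.Agent.MP562567.Q

open MeasureTheory Set

namespace majAux

theorem sin_ge (x : ℝ) (hx : 0 ≤ x) : x - x ^ 3 / 6 ≤ Real.sin x := by
  have hd : ∀ y : ℝ, HasDerivAt (fun y => Real.sin y - (y - y ^ 3 / 6))
      (Real.cos y - (1 - y ^ 2 / 2)) y := by
    intro y
    have h1 := (Real.hasDerivAt_sin y).sub
      ((hasDerivAt_id' y).sub ((hasDerivAt_pow 3 y).div_const 6))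
    refine h1.congr_deriv ?_
    push_cast
    ring
  have hm : MonotoneOn (fun y => Real.sin y - (y - y ^ 3 / 6)) (Ici 0) := by
    apply monotoneOn_of_deriv_nonneg (convex_Ici 0)
    · exact fun y _ => (hd y).continuousAt.continuousWithinAt
    · exact fun y _ => (hd y).differentiableAt.differentiableWithinAt
    · intro y _
      rw [(hd y).deriv]
      have := Real.one_sub_sq_div_two_le_cos (x := y)
      linarith
  have h := hm (mem_Ici.2 le_rfl) (mem_Ici.2 hx) hx
  simp only [Real.sin_zero] at h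
  norm_num at h
  linarith

theorem cos_le (x : ℝ) (hx : 0 ≤ x) : Real.cos x ≤ 1 - x ^ 2 / 2 + x ^ 4 / 24 := by
  have hd : ∀ y : ℝ, HasDerivAt (fun y => 1 - y ^ 2 / 2 + y ^ 4 / 24 - Real.cos y)
      (Real.sin y - (y - y ^ 3 / 6)) y := by
    intro y
    have h1 := ((((hasDerivAt_const y (1 : ℝ)).sub ((hasDerivAt_pow 2 y).div_const 2))).add
      ((hasDerivAt_pow 4 y).div_const 24)).sub (Real.hasDerivAt_cos y)
    refine h1.congr_deriv ?_
    push_cast
    ring
  have hm : MonotoneOn (fun y => 1 - y ^ 2 / 2 + y ^ 4 / 24 - Real.cos y) (Ici 0) := by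
    apply monotoneOn_of_deriv_nonneg (convex_Ici 0)
    · exact fun y _ => (hd y).continuousAt.continuousWithinAt
    · exact fun y _ => (hd y).differentiableAt.differentiableWithinAt
    · intro y hy
      rw [(hd y).deriv]
      rw [interior_Ici] at hy
      have := sin_ge y (le_of_lt hy)
      linarith
  have h := hm (mem_Ici.2 le_rfl) (mem_Ici.2 hx) hx
  simp only [Real.cos_zero] at h
  norm_num at h
  linarith

theorem hh_one : hh 1 = 0 := by
  unfold hh
  rw [Real.one_rpow]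
  ring

theorem P4_zero {u : ℝ} (hu : u ≤ 1) : P4 u = 0 := by
  unfold P4
  rw [max_eq_right hu, hh_one]

theorem P2_eq {u : ℝ} (hu : u ≤ 1) : P2 u = (1 - u) ^ 2 := by
  unfold P2
  rw [max_eq_left (by linarith)]

theorem P3_eq {u : ℝ} (hu : u ≤ 1) : P3 u = (1 - u) ^ 3 := by
  unfold P3
  rw [max_eq_left (by linarith)]

theorem phi_eq {a : ℝ} (ha : a ≤ Real.pi) : phi a = 2 - 2 * Real.cos a := by
  unfold phi
  rw [min_eq_left ha]

end majAux

open majAux in
theorem maj1 : S_Maj1 := by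
  intro r hr u hu
  have hpi := Real.pi_pos
  have hru : r * u ≤ r := by nlinarith [hr.1, hu.2]
  rw [phi_eq (by linarith [hr.2] : r * u ≤ Real.pi), phi_eq (by linarith [hr.2] : r ≤ Real.pi),
    P4_zero hu.2, P2_eq hu.2, P3_eq hu.2]
  unfold ca cb
  rw [if_pos hr.2, if_pos hr.2]
  set x := r * (1 - u) with hx
  have hx0 : 0 ≤ x := mul_nonneg hr.1 (by linarith [hu.2])
  have h1 : r * u = r - x := by rw [hx]; ring
  rw [h1, Real.cos_sub]
  have hc : 0 ≤ Real.cos r := Real.cos_nonneg_of_mem_Icc ⟨by linarith [hr.1], hr.2⟩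
  have hs : 0 ≤ Real.sin r := Real.sin_nonneg_of_mem_Icc ⟨hr.1, by linarith [hr.2]⟩
  have h2 := Real.one_sub_sq_div_two_le_cos (x := x)
  have h3 := sin_ge x hx0
  have h4 : 0 ≤ Real.cos r * (Real.cos x - (1 - x ^ 2 / 2)) := mul_nonneg hc (by linarith)
  have h5 : 0 ≤ Real.sin r * (Real.sin x - (x - x ^ 3 / 6)) := mul_nonneg hs (by linarith)
  have h6 : 2 * r * Real.sin r * (u - 1) = -(2 * Real.sin r * x) := by rw [hx]; ring
  have h7 : r ^ 2 * Real.cos r * (1 - u) ^ 2 = Real.cos r * x ^ 2 := by rw [hx]; ring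
  have h8 : r ^ 3 * Real.sin r / 3 * (1 - u) ^ 3 = Real.sin r * x ^ 3 / 3 := by rw [hx]; ring
  rw [h6, h7, h8]
  nlinarith [h4, h5]

end Pool.Agent.MP562567.Q
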