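import Pool.Agent.Lib.MP_562567_gt.Q.Maj1

/-!
# MP_562567_gt, part Q: the majorant for `u ≤ 1`, `r ≥ π/2`
-/

set_option autoImplicit false

namespace Pool.Agent.MP562567.Q

open MeasureTheory Set

namespace majAux

/-- A function with monotone second derivative which vanishes at `1` together with its derivative is
nonnegative, if it is so at `0`. -/
theorem nonneg_of {L L1 L2 : ℝ → ℝ} (h : ∀ u, HasDerivAt L (L1 u) u)
    (h1 : ∀ u, HasDerivAt L1 (L2 u) u)
    (hm : ∀ a b, 0 ≤ a → a ≤ b → b ≤ 1 → L2 a ≤ L2 b) (hL0 : 0 ≤ L 0) (hL : L 1 = 0)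
    (hL1 : L1 1 = 0) : ∀ u ∈ Icc (0 : ℝ) 1, 0 ≤ L u := by
  intro u hu
  by_contra hc
  push Not at hc
  have hu0 : 0 < u := by
    rcases hu.1.lt_or_eq with h2 | h2
    · exact h2
    · rw [← h2] at hc
      linarith
  have hu1 : u < 1 := by
    rcases hu.2.lt_or_eq with h2 | h2
    · exact h2
    · rw [h2] at hc
      linarith
  have cL : Continuous L := continuous_iff_continuousAt.2 fun x => (h x).continuousAt
  have cL1 : Continuous L1 := continuous_iff_continuousAt.2 fun x => (h1 x).continuousAt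
  obtain ⟨c1, hc1, e1⟩ := exists_hasDerivAt_eq_slope L L1 hu0 cL.continuousOn fun x _ => h x
  obtain ⟨c2, hc2, e2⟩ := exists_hasDerivAt_eq_slope L L1 hu1 cL.continuousOn fun x _ => h x
  have n1 : L1 c1 < 0 := by
    rw [e1]
    exact div_neg_of_neg_of_pos (by linarith) (by linarith)
  have n2 : 0 < L1 c2 := by
    rw [e2]
    exact div_pos (by linarith) (by linarith)
  have hcc : c1 < c2 := hc1.2.trans hc2.1
  obtain ⟨d1, hd1, f1⟩ := exists_hasDerivAt_eq_slope L1 L2 hcc cL1.continuousOn fun x _ => h1 x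
  obtain ⟨d2, hd2, f2⟩ := exists_hasDerivAt_eq_slope L1 L2 hc2.2 cL1.continuousOn
    fun x _ => h1 x
  have m1 : 0 < L2 d1 := by
    rw [f1]
    exact div_pos (by linarith) (by linarith)
  have m2 : L2 d2 < 0 := by
    rw [f2]
    exact div_neg_of_neg_of_pos (by linarith) (by linarith [hc2.2])
  have := hm d1 d2 (by linarith [hd1.1, hc1.1]) (hd1.2.trans hd2.1).le hd2.2.le
  linarith

theorem zero_case (r : ℝ) (h1 : Real.pi / 2 < r) (h2 : r ≤ Real.pi) :
    2 * (r * Real.sin r + Real.cos r - 1) ≤ ca r := by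
  unfold ca
  rw [if_neg (not_le.2 h1)]
  set x := r - Real.pi / 2 with hx
  have hr : r = x + Real.pi / 2 := by rw [hx]; ring
  have hx0 : 0 ≤ x := by rw [hx]; linarith
  have hx1 : x ≤ Real.pi / 2 := by rw [hx]; linarith
  rw [hr, Real.sin_add_pi_div_two, Real.cos_add_pi_div_two]
  have h3 := sin_ge x hx0
  have h4 := cos_le x hx0
  have p1 := Real.pi_gt_d2
  have p2 := Real.pi_lt_d4
  have h5 : (x + Real.pi / 2) * Real.cos x ≤ (x + Real.pi / 2) * (1 - x ^ 2 / 2 + x ^ 4 / 24) :=
    mul_le_mul_of_nonneg_left h4 (by linarith [Real.pi_pos])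
  have h6 : 0 ≤ x ^ 3 * (1 / 3 - Real.pi * x / 48 - x ^ 2 / 24) := by
    apply mul_nonneg (by positivity)
    nlinarith
  have h7 : (x + Real.pi / 2) * Real.cos x + -Real.sin x - 1 ≤
      Real.pi / 2 - 1 - Real.pi / 4 * x ^ 2 := by nlinarith
  have h8 : Real.pi / 2 - 1 - Real.pi / 4 * x ^ 2 ≤ 571 / 1000 - 785 / 1000 * x ^ 2 := by
    nlinarith [sq_nonneg x]
  have h9 := le_max_left (571 / 1000 - 785 / 1000 * x ^ 2) 0
  linarith

end majAux

open majAux in
theorem maj2 : S_Maj2 := by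
  intro r hr u hu
  have hpi := Real.pi_pos
  have hr0 : 0 < r := by linarith [hr.1]
  have hru : r * u ≤ r := by nlinarith [hu.2]
  rw [phi_eq (by linarith [hr.2] : r * u ≤ Real.pi), phi_eq hr.2, P4_zero hu.2, P2_eq hu.2]
  have hcb : cb r = 0 := by
    unfold cb
    rw [if_neg (not_le.2 hr.1)]
  rw [hcb]
  have h0 := zero_case r hr.1 hr.2
  set D := ca r with hD
  have key := nonneg_of (L := fun u => 2 * Real.cos (r * u) - 2 * Real.cos r +
      2 * r * Real.sin r * (u - 1) + D * (1 - u) ^ 2)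
    (L1 := fun u => 2 * r * Real.sin r - 2 * D * (1 - u) - 2 * r * Real.sin (r * u))
    (L2 := fun u => 2 * D - 2 * r ^ 2 * Real.cos (r * u)) ?_ ?_ ?_ ?_ ?_ ?_ u hu
  · have key' : 0 ≤ 2 * Real.cos (r * u) - 2 * Real.cos r +
      2 * r * Real.sin r * (u - 1) + D * (1 - u) ^ 2 := key
    linarith
  · intro u
    have e1 : HasDerivAt (fun u : ℝ => r * u) r u := by
      simpa using (hasDerivAt_id' u).const_mul r
    have e2 : HasDerivAt (fun u : ℝ => u - 1) 1 u := (hasDerivAt_id' u).sub_const 1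
    have e3 : HasDerivAt (fun u : ℝ => 1 - u) (-1) u := (hasDerivAt_id' u).const_sub 1
    have e4 := (((e1.cos.const_mul 2).sub_const (2 * Real.cos r)).add
      (e2.const_mul (2 * r * Real.sin r))).add ((e3.pow 2).const_mul D)
    refine e4.congr_deriv ?_
    push_cast
    ring
  · intro u
    have e1 : HasDerivAt (fun u : ℝ => r * u) r u := by
      simpa using (hasDerivAt_id' u).const_mul r
    have e3 : HasDerivAt (fun u : ℝ => 1 - u) (-1) u := (hasDerivAt_id' u).const_sub 1
    have e4 := ((e3.const_mul (2 * D)).const_sub (2 * r * Real.sin r)).sub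
      (e1.sin.const_mul (2 * r))
    refine e4.congr_deriv ?_
    ring
  · intro a b ha hab hb
    have h1 : Real.cos (r * b) ≤ Real.cos (r * a) := by
      apply Real.cos_le_cos_of_nonneg_of_le_pi (mul_nonneg hr0.le ha)
      · nlinarith [hr.2]
      · exact mul_le_mul_of_nonneg_left hab hr0.le
    have h2 : 0 ≤ 2 * r ^ 2 := by positivity
    have := mul_le_mul_of_nonneg_left h1 h2
    linarith
  · simp only [mul_zero, Real.cos_zero]
    linarith
  · simp only [mul_one]
    ring
  · simp only [mul_one]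
    ring

end Pool.Agent.MP562567.Q
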