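import Pool.Agent.Lib.MP_562567_gt.Q.Spec

/-!
# MP_562567_gt, part Q: the majorant, `u ≥ 1`

The proof is written in the variable `s = √u`, so that `u ^ (3 / 2) = s ^ 3`.
-/

set_option autoImplicit false

namespace Pool.Agent.MP562567.Q

open MeasureTheory Set

private theorem sin_lb {x : ℝ} (hx : 0 ≤ x) : x - x ^ 3 / 6 ≤ Real.sin x := by
  have hd : ∀ y : ℝ, HasDerivAt (fun y => Real.sin y - y + y ^ 3 / 6)
      (Real.cos y - 1 + y ^ 2 / 2) y := by
    intro y
    have h := ((Real.hasDerivAt_sin y).sub (hasDerivAt_id y)).add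
      (((hasDerivAt_id y).pow 3).div_const 6)
    refine HasDerivAt.congr_deriv h ?_
    simp
    ring
  have hm : MonotoneOn (fun y => Real.sin y - y + y ^ 3 / 6) (Ici (0 : ℝ)) := by
    refine monotoneOn_of_deriv_nonneg (convex_Ici 0) (fun y _ => (hd y).continuousAt.continuousWithinAt)
      (fun y _ => (hd y).differentiableAt.differentiableWithinAt) fun y _ => ?_
    rw [(hd y).deriv]
    have := Real.one_sub_sq_div_two_le_cos (x := y)
    linarith
  have h := hm (mem_Ici.2 le_rfl) (mem_Ici.2 hx) hx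
  simp only [Real.sin_zero] at h
  linarith

private theorem cos_ub {x : ℝ} (hx : 0 ≤ x) : Real.cos x ≤ 1 - x ^ 2 / 2 + x ^ 4 / 24 := by
  have hd : ∀ y : ℝ, HasDerivAt (fun y => 1 - y ^ 2 / 2 + y ^ 4 / 24 - Real.cos y)
      (Real.sin y - y + y ^ 3 / 6) y := by
    intro y
    have h := (((hasDerivAt_const y (1 : ℝ)).sub (((hasDerivAt_id y).pow 2).div_const 2)).add
      (((hasDerivAt_id y).pow 4).div_const 24)).sub (Real.hasDerivAt_cos y)
    refine HasDerivAt.congr_deriv h ?_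
    simp
    ring
  have hm : MonotoneOn (fun y => 1 - y ^ 2 / 2 + y ^ 4 / 24 - Real.cos y) (Ici (0 : ℝ)) := by
    refine monotoneOn_of_deriv_nonneg (convex_Ici 0) (fun y _ => (hd y).continuousAt.continuousWithinAt)
      (fun y _ => (hd y).differentiableAt.differentiableWithinAt) fun y hy => ?_
    rw [(hd y).deriv]
    rw [interior_Ici] at hy
    have := sin_lb (le_of_lt (mem_Ioi.1 hy))
    linarith
  have h := hm (mem_Ici.2 le_rfl) (mem_Ici.2 hx) hx
  simp only [Real.cos_zero] at h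
  linarith

/-- `a ^ 2 cos a ≤ 9 / 16` on `[0, π / 2]`. -/
private theorem sq_cos {a : ℝ} (h0 : 0 ≤ a) (h1 : a ≤ Real.pi / 2) :
    a ^ 2 * Real.cos a ≤ 9 / 16 := by
  have hc := cos_ub h0
  have hz : a ^ 2 ≤ 5 / 2 := by
    have hp : Real.pi < 3.15 := Real.pi_lt_d2
    nlinarith
  have hz0 : 0 ≤ a ^ 2 := sq_nonneg a
  have h2 : a ^ 2 * Real.cos a ≤ a ^ 2 * (1 - a ^ 2 / 2 + a ^ 4 / 24) :=
    mul_le_mul_of_nonneg_left hc hz0
  have h3 : a ^ 2 * (1 - a ^ 2 / 2 + a ^ 4 / 24) =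
      a ^ 2 - (a ^ 2) ^ 2 / 2 + (a ^ 2) ^ 3 / 24 := by ring
  rw [h3] at h2
  refine h2.trans ?_
  generalize a ^ 2 = z at hz hz0 ⊢
  nlinarith [mul_nonneg (sq_nonneg (z - 6 / 5)) (sub_nonneg.2 hz), sq_nonneg (z - 7 / 6)]

/-- The derivative of the difference, up to the factor `2 s`, as long as `r s ^ 2 ≤ π / 2`. -/
private theorem K1 {r : ℝ} (hr : 0 ≤ r) {S : ℝ} (hS : 1 ≤ S) (hS2 : r * S ^ 2 ≤ Real.pi / 2) :
    0 ≤ 9 / 4 * (S - 1) - 2 * r * (Real.sin (r * S ^ 2) - Real.sin r) := by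
  have hd : ∀ s : ℝ, HasDerivAt (fun s => 9 / 4 * (s - 1) - 2 * r * (Real.sin (r * s ^ 2) - Real.sin r))
      (9 / 4 - 4 * (r ^ 2 * s * Real.cos (r * s ^ 2))) s := by
    intro s
    have h1 : HasDerivAt (fun s : ℝ => r * s ^ 2) (r * (2 * s)) s := by
      have h := ((hasDerivAt_id s).pow 2).const_mul r
      refine HasDerivAt.congr_deriv h ?_
      simp
    have h2 := ((Real.hasDerivAt_sin (r * s ^ 2)).comp s h1)
    have h := (((hasDerivAt_id s).sub_const 1).const_mul (9 / 4 : ℝ)).sub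
      ((h2.sub_const (Real.sin r)).const_mul (2 * r))
    refine HasDerivAt.congr_deriv h ?_
    ring
  have hm : MonotoneOn (fun s => 9 / 4 * (s - 1) - 2 * r * (Real.sin (r * s ^ 2) - Real.sin r))
      (Icc (1 : ℝ) S) := by
    refine monotoneOn_of_deriv_nonneg (convex_Icc 1 S)
      (fun y _ => (hd y).continuousAt.continuousWithinAt)
      (fun y _ => (hd y).differentiableAt.differentiableWithinAt) fun s hs => ?_
    rw [(hd s).deriv]
    rw [interior_Icc, mem_Ioo] at hs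
    obtain ⟨hs1, hs2⟩ := hs
    have ha0 : 0 ≤ r * s ^ 2 := mul_nonneg hr (sq_nonneg s)
    have ha1 : r * s ^ 2 ≤ Real.pi / 2 := by
      refine le_trans (mul_le_mul_of_nonneg_left ?_ hr) hS2
      nlinarith
    have hc : 0 ≤ Real.cos (r * s ^ 2) :=
      Real.cos_nonneg_of_neg_pi_div_two_le_of_le (by linarith [Real.pi_pos]) ha1
    have h1 : r ^ 2 * s ≤ (r * s ^ 2) ^ 2 := by
      have h2 : (1 : ℝ) ≤ s ^ 3 := one_le_pow₀ hs1.le
      have h3 : (r * s ^ 2) ^ 2 = r ^ 2 * s * s ^ 3 := by ring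
      rw [h3]
      exact le_mul_of_one_le_right (mul_nonneg (sq_nonneg r) (by linarith)) h2
    have h2 := mul_le_mul_of_nonneg_right h1 hc
    have h3 := sq_cos ha0 ha1
    linarith
  have h := hm (left_mem_Icc.2 hS) (right_mem_Icc.2 hS) hS
  simp only [sub_self, mul_zero, one_pow, mul_one] at h
  exact h

/-- The same for all `S ≥ 1`. -/
private theorem K2 {r : ℝ} (hr : 0 ≤ r) (hr2 : r ≤ Real.pi / 2) {S : ℝ} (hS : 1 ≤ S) :
    0 ≤ 9 / 4 * (S - 1) - 2 * r * (Real.sin (r * S ^ 2) - Real.sin r) := by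
  rcases le_or_gt (r * S ^ 2) (Real.pi / 2) with h | h
  · exact K1 hr hS h
  · have hp := Real.pi_pos
    have hr0 : 0 < r := by
      rcases hr.eq_or_lt with h0 | h0
      · rw [← h0, zero_mul] at h
        linarith
      · exact h0
    set s₁ := Real.sqrt (Real.pi / 2 / r) with hs₁
    have hq : 1 ≤ Real.pi / 2 / r := by
      rw [le_div_iff₀ hr0, one_mul]
      exact hr2
    have h1 : s₁ ^ 2 = Real.pi / 2 / r := Real.sq_sqrt (by linarith)
    have h2 : r * s₁ ^ 2 = Real.pi / 2 := by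
      rw [h1]
      field_simp
    have h3 : 1 ≤ s₁ := by
      rw [hs₁]
      exact Real.one_le_sqrt.2 hq
    have h4 : s₁ ≤ S := by
      rw [hs₁]
      refine Real.sqrt_le_iff.2 ⟨by linarith, ?_⟩
      rw [div_le_iff₀ hr0]
      linarith
    have h5 := K1 hr h3 h2.le
    rw [h2, Real.sin_pi_div_two] at h5
    have h6 := Real.sin_le_one (r * S ^ 2)
    have h7 : 2 * r * (Real.sin (r * S ^ 2) - Real.sin r) ≤ 2 * r * (1 - Real.sin r) :=
      mul_le_mul_of_nonneg_left (by linarith) (by linarith)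
    linarith

/-- The difference, without the cut at `π`. -/
private theorem G1 {r : ℝ} (hr : 0 ≤ r) (hr2 : r ≤ Real.pi / 2) {S : ℝ} (hS : 1 ≤ S) :
    0 ≤ 2 * r * Real.sin r * (S ^ 2 - 1) + 3 / 2 * (S ^ 3 - 1 - 3 / 2 * (S ^ 2 - 1)) +
      2 * Real.cos (r * S ^ 2) - 2 * Real.cos r := by
  have hd : ∀ s : ℝ, HasDerivAt (fun s => 2 * r * Real.sin r * (s ^ 2 - 1) +
      3 / 2 * (s ^ 3 - 1 - 3 / 2 * (s ^ 2 - 1)) + 2 * Real.cos (r * s ^ 2) - 2 * Real.cos r)
      (2 * s * (9 / 4 * (s - 1) - 2 * r * (Real.sin (r * s ^ 2) - Real.sin r))) s := by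
    intro s
    have h0 : HasDerivAt (fun s : ℝ => s ^ 2) (2 * s) s := by
      have h := (hasDerivAt_id s).pow 2
      refine HasDerivAt.congr_deriv h ?_
      simp
    have h3 : HasDerivAt (fun s : ℝ => s ^ 3) (3 * s ^ 2) s := by
      have h := (hasDerivAt_id s).pow 3
      refine HasDerivAt.congr_deriv h ?_
      simp
    have h1 : HasDerivAt (fun s : ℝ => r * s ^ 2) (r * (2 * s)) s := h0.const_mul r
    have h2 := ((Real.hasDerivAt_cos (r * s ^ 2)).comp s h1)
    have h := ((((h0.sub_const 1).const_mul (2 * r * Real.sin r)).add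
      (((h3.sub_const 1).sub ((h0.sub_const 1).const_mul (3 / 2 : ℝ))).const_mul (3 / 2 : ℝ))).add
      (h2.const_mul 2)).sub_const (2 * Real.cos r)
    refine HasDerivAt.congr_deriv h ?_
    ring
  have hm : MonotoneOn (fun s => 2 * r * Real.sin r * (s ^ 2 - 1) +
      3 / 2 * (s ^ 3 - 1 - 3 / 2 * (s ^ 2 - 1)) + 2 * Real.cos (r * s ^ 2) - 2 * Real.cos r)
      (Icc (1 : ℝ) S) := by
    refine monotoneOn_of_deriv_nonneg (convex_Icc 1 S)
      (fun y _ => (hd y).continuousAt.continuousWithinAt)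
      (fun y _ => (hd y).differentiableAt.differentiableWithinAt) fun s hs => ?_
    rw [(hd s).deriv]
    rw [interior_Icc, mem_Ioo] at hs
    exact mul_nonneg (by linarith [hs.1]) (K2 hr hr2 hs.1.le)
  have h := hm (left_mem_Icc.2 hS) (right_mem_Icc.2 hS) hS
  simp only [one_pow, sub_self, mul_zero, mul_one, add_zero, zero_add] at h
  exact h

/-- The cut at `π`. -/
private theorem G2 {r : ℝ} (hr : 0 ≤ r) (hr2 : r ≤ Real.pi / 2) {S : ℝ} (hS : 1 ≤ S) :
    0 ≤ 2 * r * Real.sin r * (S ^ 2 - 1) + 3 / 2 * (S ^ 3 - 1 - 3 / 2 * (S ^ 2 - 1)) +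
      2 * Real.cos (min (r * S ^ 2) Real.pi) - 2 * Real.cos r := by
  have hp := Real.pi_pos
  rcases le_or_gt (r * S ^ 2) Real.pi with h | h
  · rw [min_eq_left h]
    exact G1 hr hr2 hS
  · rw [min_eq_right h.le]
    have hr0 : 0 < r := by
      rcases hr.eq_or_lt with h0 | h0
      · rw [← h0, zero_mul] at h
        linarith
      · exact h0
    have hsin : 0 ≤ Real.sin r := Real.sin_nonneg_of_nonneg_of_le_pi hr (by linarith)
    set s₁ := Real.sqrt (Real.pi / r) with hs₁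
    have hq : 1 ≤ Real.pi / r := by
      rw [le_div_iff₀ hr0, one_mul]
      linarith
    have h1 : s₁ ^ 2 = Real.pi / r := Real.sq_sqrt (by linarith)
    have h2 : r * s₁ ^ 2 = Real.pi := by
      rw [h1]
      field_simp
    have h3 : 1 ≤ s₁ := by
      rw [hs₁]
      exact Real.one_le_sqrt.2 hq
    have h4 : s₁ ≤ S := by
      rw [hs₁]
      refine Real.sqrt_le_iff.2 ⟨by linarith, ?_⟩
      rw [div_le_iff₀ hr0]
      linarith
    have h5 := G1 hr hr2 h3
    rw [h2] at h5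
    have h6 : s₁ ^ 2 ≤ S ^ 2 := pow_le_pow_left₀ (by linarith) h4 2
    have h7 : 2 * r * Real.sin r * (s₁ ^ 2 - 1) ≤ 2 * r * Real.sin r * (S ^ 2 - 1) :=
      mul_le_mul_of_nonneg_left (by linarith) (by positivity)
    have h8 : 0 ≤ (S - s₁) * (S ^ 2 + S * s₁ + s₁ ^ 2 - 3 / 2 * (S + s₁)) := by
      refine mul_nonneg (by linarith) ?_
      nlinarith [mul_nonneg (sub_nonneg.2 hS) (sub_nonneg.2 h3), mul_self_nonneg (S - 1),
        mul_self_nonneg (s₁ - 1)]
    nlinarith [h5, h7, h8]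

private theorem rpow32 {s : ℝ} (hs : 0 ≤ s) : (s ^ 2) ^ (3 / 2 : ℝ) = s ^ 3 := by
  rw [← Real.rpow_natCast s 2, ← Real.rpow_mul hs, ← Real.rpow_natCast s 3]
  congr 1
  norm_num

theorem maj3 : S_Maj3 := by
  intro r hr u hu
  obtain ⟨hr0, hrp⟩ := hr
  have hp := Real.pi_pos
  have e2 : P2 u = 0 := by
    unfold P2
    rw [max_eq_right (by linarith)]
    ring
  have e3 : P3 u = 0 := by
    unfold P3
    rw [max_eq_right (by linarith)]
    ring
  have e4 : P4 u = hh u := by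
    unfold P4
    rw [max_eq_left hu]
  rw [e2, e3, e4, mul_zero, mul_zero, add_zero, add_zero]
  obtain ⟨s, hs1, rfl⟩ : ∃ s : ℝ, 1 ≤ s ∧ s ^ 2 = u :=
    ⟨Real.sqrt u, Real.one_le_sqrt.2 hu, Real.sq_sqrt (by linarith)⟩
  have e5 : hh (s ^ 2) = s ^ 3 - 1 - 3 / 2 * (s ^ 2 - 1) := by
    unfold hh
    rw [rpow32 (by linarith)]
  have e6 : phi r = 2 - 2 * Real.cos r := by
    unfold phi
    rw [min_eq_left hrp]
  rw [e5, e6]
  unfold phi
  rcases le_or_gt r (Real.pi / 2) with h | h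
  · have := G2 hr0 h hs1
    linarith
  · -- `r ≥ π / 2`
    have hsin : 0 ≤ Real.sin r := Real.sin_nonneg_of_nonneg_of_le_pi hr0 hrp
    set b := min (r * s ^ 2) Real.pi with hb
    have hb1 : r ≤ b := le_min (le_mul_of_one_le_right hr0 hu) hrp
    have hb2 : b ≤ Real.pi := min_le_right _ _
    have hb3 : b ≤ r * s ^ 2 := min_le_left _ _
    have h1 : Real.cos r - Real.cos b = 2 * Real.sin ((r + b) / 2) * Real.sin ((b - r) / 2) := by
      rw [Real.cos_sub_cos, show (r - b) / 2 = -((b - r) / 2) by ring, Real.sin_neg]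
      ring
    have h2 : Real.sin ((b - r) / 2) ≤ (b - r) / 2 := Real.sin_le (by linarith)
    have h3 : Real.sin ((r + b) / 2) ≤ Real.sin r := by
      rw [← Real.sin_pi_sub ((r + b) / 2), ← Real.sin_pi_sub r]
      exact Real.sin_le_sin_of_le_of_le_pi_div_two (by linarith) (by linarith) (by linarith)
    have h4 : 0 ≤ Real.sin ((r + b) / 2) :=
      Real.sin_nonneg_of_nonneg_of_le_pi (by linarith) (by linarith)
    have h5 : Real.cos r - Real.cos b ≤ (r * s ^ 2 - r) * Real.sin r := by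
      rw [h1]
      calc 2 * Real.sin ((r + b) / 2) * Real.sin ((b - r) / 2)
          ≤ 2 * Real.sin ((r + b) / 2) * ((b - r) / 2) :=
            mul_le_mul_of_nonneg_left h2 (by linarith)
        _ = (b - r) * Real.sin ((r + b) / 2) := by ring
        _ ≤ (b - r) * Real.sin r := mul_le_mul_of_nonneg_left h3 (by linarith)
        _ ≤ (r * s ^ 2 - r) * Real.sin r := mul_le_mul_of_nonneg_right (by linarith) hsin
    have h6 : 0 ≤ s ^ 3 - 1 - 3 / 2 * (s ^ 2 - 1) := by
      have h7 : s ^ 3 - 1 - 3 / 2 * (s ^ 2 - 1) = (s - 1) ^ 2 * (s + 1 / 2) := by ring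
      rw [h7]
      positivity
    nlinarith [h5, h6]

end Pool.Agent.MP562567.Q
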