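import Pool.Agent.Lib.MP_562567_gt.Q.Spec

/-!
# MP_562567_gt, part Q: upper bounds for the integrals of `ca`
-/

set_option autoImplicit false

namespace Pool.Agent.MP562567.Q

open MeasureTheory Set

private theorem nA_sin {x : ℝ} (hx : 0 ≤ x) : x - x ^ 3 / 6 ≤ Real.sin x := by
  have hd : ∀ y : ℝ, HasDerivAt (fun y : ℝ => Real.sin y - y + y ^ 3 / 6)
      (Real.cos y - 1 + y ^ 2 / 2) y := fun y => by
    have h := ((Real.hasDerivAt_sin y).sub (hasDerivAt_id' y)).add
      (((hasDerivAt_id' y).fun_pow 3).div_const 6)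
    refine h.congr_deriv ?_
    norm_num
    ring
  have hm : Monotone (fun y : ℝ => Real.sin y - y + y ^ 3 / 6) :=
    monotone_of_deriv_nonneg (fun y => (hd y).differentiableAt) fun y => by
      rw [(hd y).deriv]
      linarith [Real.one_sub_sq_div_two_le_cos (x := y)]
  have h := hm hx
  simp only [Real.sin_zero] at h
  linarith

private theorem nA_cos {x : ℝ} (hx : 0 ≤ x) : Real.cos x ≤ 1 - x ^ 2 / 2 + x ^ 4 / 24 := by
  have hd : ∀ y : ℝ, HasDerivAt (fun y : ℝ => (1 - y ^ 2 / 2 + y ^ 4 / 24) - Real.cos y)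
      (Real.sin y - (y - y ^ 3 / 6)) y := fun y => by
    have h := (((((hasDerivAt_id' y).fun_pow 2).div_const 2).const_sub 1).add
      (((hasDerivAt_id' y).fun_pow 4).div_const 24)).sub (Real.hasDerivAt_cos y)
    refine h.congr_deriv ?_
    norm_num
    ring
  have hm : MonotoneOn (fun y : ℝ => (1 - y ^ 2 / 2 + y ^ 4 / 24) - Real.cos y) (Ici 0) := by
    refine monotoneOn_of_deriv_nonneg (convex_Ici 0)
      (fun y _ => (hd y).continuousAt.continuousWithinAt)
      (fun y _ => (hd y).differentiableAt.differentiableWithinAt) fun y hy => ?_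
    rw [interior_Ici] at hy
    rw [(hd y).deriv]
    linarith [nA_sin (le_of_lt hy)]
  have h := hm (mem_Ici.2 (le_refl 0)) (mem_Ici.2 hx) hx
  simp only [Real.cos_zero] at h
  linarith

/-- Integrals of even polynomials. -/
private theorem nA_poly (a : ℝ) (c : ℕ → ℝ) (m : ℕ) :
    (∫ x in (0 : ℝ)..a, ∑ i ∈ Finset.range m, c i * x ^ (2 * i)) =
      ∑ i ∈ Finset.range m, c i * (a ^ (2 * i + 1) / (2 * i + 1)) := by
  rw [intervalIntegral.integral_finsetSum fun i _ => (Continuous.intervalIntegrable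
    (by fun_prop) _ _)]
  refine Finset.sum_congr rfl fun i _ => ?_
  rw [intervalIntegral.integral_const_mul, integral_pow]
  simp

private theorem nA_F1 (x : ℝ) : HasDerivAt (fun r : ℝ => r ^ 2 * Real.sin r ^ 2 / 2 -
    (r ^ 2 / 4 - r * (Real.sin r * Real.cos r) / 2 - (1 - 2 * Real.sin r ^ 2) / 8))
    (x ^ 2 * Real.cos x * Real.sin x ^ 1) x := by
  have hs := Real.hasDerivAt_sin x
  have hc := Real.hasDerivAt_cos x
  have hi := hasDerivAt_id' x
  have h := (((hi.fun_pow 2).fun_mul (hs.fun_pow 2)).div_const 2).sub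
    ((((hi.fun_pow 2).div_const 4).sub ((hi.fun_mul (hs.fun_mul hc)).div_const 2)).sub
      ((((hs.fun_pow 2).const_mul 2).const_sub 1).div_const 8))
  refine h.congr_deriv ?_
  have e := Real.sin_sq_add_cos_sq x
  norm_num
  linear_combination (x / 2) * e

private theorem nA_F2 (x : ℝ) : HasDerivAt (fun r : ℝ => r ^ 2 * Real.sin r ^ 3 / 3 -
    2 / 3 * (r * (Real.cos r ^ 3 / 3 - Real.cos r) + 2 / 3 * Real.sin r + Real.sin r ^ 3 / 9))
    (x ^ 2 * Real.cos x * Real.sin x ^ 2) x := by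
  have hs := Real.hasDerivAt_sin x
  have hc := Real.hasDerivAt_cos x
  have hi := hasDerivAt_id' x
  have h := (((hi.fun_pow 2).fun_mul (hs.fun_pow 3)).div_const 3).sub
    ((((hi.fun_mul (((hc.fun_pow 3).div_const 3).sub hc)).add (hs.const_mul (2 / 3))).add
      ((hs.fun_pow 3).div_const 9)).const_mul (2 / 3))
  refine h.congr_deriv ?_
  have e := Real.sin_sq_add_cos_sq x
  norm_num
  linear_combination (2 / 3 * x * Real.sin x - 2 / 9 * Real.cos x) * e

private theorem nA_F3 (x : ℝ) : HasDerivAt (fun r : ℝ => r ^ 2 * Real.sin r ^ 4 / 4 -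
    1 / 2 * (r * (3 * r / 8 - 3 / 8 * (Real.sin r * Real.cos r) -
      1 / 4 * (Real.sin r ^ 3 * Real.cos r)) - 3 / 16 * r ^ 2 + 3 / 16 * Real.sin r ^ 2 +
      Real.sin r ^ 4 / 16))
    (x ^ 2 * Real.cos x * Real.sin x ^ 3) x := by
  have hs := Real.hasDerivAt_sin x
  have hc := Real.hasDerivAt_cos x
  have hi := hasDerivAt_id' x
  have h := (((hi.fun_pow 2).fun_mul (hs.fun_pow 4)).div_const 4).sub
    ((((((hi.fun_mul ((((hi.const_mul 3).div_const 8).sub ((hs.fun_mul hc).const_mul (3 / 8))).sub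
      (((hs.fun_pow 3).fun_mul hc).const_mul (1 / 4)))).sub ((hi.fun_pow 2).const_mul (3 / 16))).add
      ((hs.fun_pow 2).const_mul (3 / 16))).add ((hs.fun_pow 4).div_const 16))).const_mul (1 / 2))
  refine h.congr_deriv ?_
  have e := Real.sin_sq_add_cos_sq x
  norm_num
  linear_combination (3 / 16 * x + 3 / 8 * x * Real.sin x ^ 2) * e

private theorem nA_first {F : ℝ → ℝ} {k : ℕ}
    (hF : ∀ x, HasDerivAt F (x ^ 2 * Real.cos x * Real.sin x ^ k) x) :
    (∫ r in (0 : ℝ)..(Real.pi / 2), r ^ 2 * Real.cos r * Real.sin r ^ k) =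
      F (Real.pi / 2) - F 0 :=
  intervalIntegral.integral_eq_sub_of_hasDerivAt (fun x _ => hF x)
    (Continuous.intervalIntegrable (by fun_prop) _ _)

/-- The two parts. -/
private theorem nA_split (n : ℕ) : (∫ r in (0 : ℝ)..Real.pi, ca r * dens n r) =
    (∫ r in (0 : ℝ)..(Real.pi / 2), r ^ 2 * Real.cos r * Real.sin r ^ (n - 2)) +
      ∫ x in (0 : ℝ)..(Real.pi / 2),
        2 * max (571 / 1000 - 785 / 1000 * x ^ 2) 0 * Real.cos x ^ (n - 2) := by
  have hp := Real.pi_pos
  have e1 : EqOn (fun r : ℝ => r ^ 2 * Real.cos r * Real.sin r ^ (n - 2))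
      (fun r => ca r * dens n r) (Ioo 0 (Real.pi / 2)) := fun r hr => by
    simp only [ca, dens]
    rw [if_pos (le_of_lt hr.2)]
  have e2 : EqOn (fun r : ℝ => 2 * max (571 / 1000 - 785 / 1000 * (r - Real.pi / 2) ^ 2) 0 *
      Real.sin r ^ (n - 2)) (fun r => ca r * dens n r) (Ioo (Real.pi / 2) Real.pi) := fun r hr => by
    simp only [ca, dens]
    rw [if_neg (not_le.2 hr.1)]
  have i1 : IntervalIntegrable (fun r => ca r * dens n r) volume 0 (Real.pi / 2) := by
    refine IntervalIntegrable.congr_uIoo (f := fun r : ℝ => r ^ 2 * Real.cos r *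
      Real.sin r ^ (n - 2)) (Continuous.intervalIntegrable (by fun_prop) _ _) ?_
    rw [uIoo_of_le (by linarith)]
    exact e1
  have i2 : IntervalIntegrable (fun r => ca r * dens n r) volume (Real.pi / 2) Real.pi := by
    refine IntervalIntegrable.congr_uIoo (f := fun r : ℝ =>
      2 * max (571 / 1000 - 785 / 1000 * (r - Real.pi / 2) ^ 2) 0 * Real.sin r ^ (n - 2))
      (Continuous.intervalIntegrable (by fun_prop) _ _) ?_
    rw [uIoo_of_le (by linarith)]
    exact e2
  rw [← intervalIntegral.integral_add_adjacent_intervals i1 i2]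
  congr 1
  · exact (intervalIntegral.integral_congr_Ioo_of_le (by linarith) e1).symm
  · rw [← intervalIntegral.integral_congr_Ioo_of_le (by linarith) e2]
    have h := intervalIntegral.integral_comp_add_left (a := 0) (b := Real.pi / 2) (fun r : ℝ =>
      2 * max (571 / 1000 - 785 / 1000 * (r - Real.pi / 2) ^ 2) 0 * Real.sin r ^ (n - 2))
      (Real.pi / 2)
    rw [add_zero, add_halves] at h
    rw [← h]
    refine intervalIntegral.integral_congr fun x _ => ?_
    simp only [add_sub_cancel_left]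
    rw [add_comm, Real.sin_add_pi_div_two]

/-- The second part. -/
private theorem nA_second (k : ℕ) : (∫ x in (0 : ℝ)..(Real.pi / 2),
      2 * max (571 / 1000 - 785 / 1000 * x ^ 2) 0 * Real.cos x ^ k) ≤
    ∫ x in (0 : ℝ)..(853 / 1000), 2 * (571 / 1000 - 785 / 1000 * x ^ 2 + 1 / 5000) *
      (1 - x ^ 2 / 2 + x ^ 4 / 24) ^ k := by
  have hp := Real.pi_gt_three
  have hc : Continuous fun x : ℝ =>
      2 * max (571 / 1000 - 785 / 1000 * x ^ 2) 0 * Real.cos x ^ k := by fun_prop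
  rw [← intervalIntegral.integral_add_adjacent_intervals (b := 853 / 1000)
    (hc.intervalIntegrable _ _) (hc.intervalIntegrable _ _)]
  have h2 : (∫ x in (853 / 1000 : ℝ)..(Real.pi / 2),
      2 * max (571 / 1000 - 785 / 1000 * x ^ 2) 0 * Real.cos x ^ k) = 0 := by
    have e : EqOn (fun x : ℝ => 2 * max (571 / 1000 - 785 / 1000 * x ^ 2) 0 * Real.cos x ^ k)
        (fun _ => (0 : ℝ)) (Ioo (853 / 1000) (Real.pi / 2)) := fun x hx => by
      have h1 : 571 / 1000 - 785 / 1000 * x ^ 2 ≤ 0 := by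
        have := hx.1
        nlinarith
      simp only [max_eq_right h1, mul_zero, zero_mul]
    rw [intervalIntegral.integral_congr_Ioo_of_le (by linarith) e,
      intervalIntegral.integral_zero]
  rw [h2, add_zero]
  refine intervalIntegral.integral_mono_on (by norm_num) (hc.intervalIntegrable _ _)
    (Continuous.intervalIntegrable (by fun_prop) _ _) fun x hx => ?_
  have h0 := hx.1
  have h1 := hx.2
  have q1 : max (571 / 1000 - 785 / 1000 * x ^ 2) 0 ≤
      571 / 1000 - 785 / 1000 * x ^ 2 + 1 / 5000 := by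
    refine max_le (by linarith) ?_
    nlinarith
  have q2 : 0 ≤ max (571 / 1000 - 785 / 1000 * x ^ 2) 0 := le_max_right _ _
  have c0 : 0 ≤ Real.cos x := Real.cos_nonneg_of_neg_pi_div_two_le_of_le (by linarith)
    (by linarith)
  have c1 := pow_le_pow_left₀ c0 (nA_cos h0) k
  refine mul_le_mul (by linarith) c1 (pow_nonneg c0 k) (by linarith)

/-- The integrals of the polynomials. -/
private theorem nA_val (k m : ℕ) (c : ℕ → ℝ)
    (h : ∀ x : ℝ, 2 * (571 / 1000 - 785 / 1000 * x ^ 2 + 1 / 5000) *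
      (1 - x ^ 2 / 2 + x ^ 4 / 24) ^ k = ∑ i ∈ Finset.range m, c i * x ^ (2 * i)) :
    (∫ x in (0 : ℝ)..(853 / 1000), 2 * (571 / 1000 - 785 / 1000 * x ^ 2 + 1 / 5000) *
      (1 - x ^ 2 / 2 + x ^ 4 / 24) ^ k) =
      ∑ i ∈ Finset.range m, c i * ((853 / 1000) ^ (2 * i + 1) / (2 * i + 1)) := by
  rw [← nA_poly]
  exact intervalIntegral.integral_congr fun x _ => h x

private theorem nA_1 : (∫ x in (0 : ℝ)..(853 / 1000),
    2 * (571 / 1000 - 785 / 1000 * x ^ 2 + 1 / 5000) * (1 - x ^ 2 / 2 + x ^ 4 / 24) ^ 1) ≤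
    6037 / 10000 := by
  rw [nA_val 1 4 (fun i => ([714 / 625, -5353 / 2500, 4163 / 5000, -157 / 2400] : List ℝ).getD i 0)
    (fun x => by simp [Finset.sum_range_succ]; ring)]
  simp [Finset.sum_range_succ]
  norm_num

private theorem nA_2 : (∫ x in (0 : ℝ)..(853 / 1000),
    2 * (571 / 1000 - 785 / 1000 * x ^ 2 + 1 / 5000) * (1 - x ^ 2 / 2 + x ^ 4 / 24) ^ 2) ≤
    5645 / 10000 := by
  rw [nA_val 2 6 (fun i => ([714 / 625, -6781 / 2500, 4877 / 2500, -2141 / 3750, 337 / 5000,
    -157 / 57600] : List ℝ).getD i 0) (fun x => by simp [Finset.sum_range_succ]; ring)]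
  simp [Finset.sum_range_succ]
  norm_num

private theorem nA_3 : (∫ x in (0 : ℝ)..(853 / 1000),
    2 * (571 / 1000 - 785 / 1000 * x ^ 2 + 1 / 5000) * (1 - x ^ 2 / 2 + x ^ 4 / 24) ^ 3) ≤
    5309 / 10000 := by
  rw [nA_val 3 8 (fun i => ([714 / 625, -8209 / 2500, 16773 / 5000, -33187 / 20000, 8683 / 20000,
    -28903 / 480000, 12013 / 2880000, -157 / 1382400] : List ℝ).getD i 0)
    (fun x => by simp [Finset.sum_range_succ]; ring)]
  simp [Finset.sum_range_succ]
  norm_num

/-- **NA.** -/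
theorem numA : S_NumA := by
  have hp : Real.pi ^ 2 ≤ 98697 / 10000 := by
    have h1 := Real.pi_lt_d4
    have h2 := Real.pi_pos
    nlinarith
  refine ⟨?_, ?_, ?_⟩
  · rw [nA_split 3]
    have h1 := nA_first (k := 1) nA_F1
    have h2 := (nA_second 1).trans nA_1
    simp only [Real.sin_pi_div_two, Real.cos_pi_div_two, Real.sin_zero, Real.cos_zero] at h1
    change (∫ r in (0 : ℝ)..(Real.pi / 2), r ^ 2 * Real.cos r * Real.sin r ^ 1) +
      (∫ x in (0 : ℝ)..(Real.pi / 2),
        2 * max (571 / 1000 - 785 / 1000 * x ^ 2) 0 * Real.cos x ^ 1) ≤ _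
    rw [h1]
    nlinarith
  · rw [nA_split 4]
    have h1 := nA_first (k := 2) nA_F2
    have h2 := (nA_second 2).trans nA_2
    simp only [Real.sin_pi_div_two, Real.cos_pi_div_two, Real.sin_zero, Real.cos_zero] at h1
    change (∫ r in (0 : ℝ)..(Real.pi / 2), r ^ 2 * Real.cos r * Real.sin r ^ 2) +
      (∫ x in (0 : ℝ)..(Real.pi / 2),
        2 * max (571 / 1000 - 785 / 1000 * x ^ 2) 0 * Real.cos x ^ 2) ≤ _
    rw [h1]
    nlinarith
  · rw [nA_split 5]
    have h1 := nA_first (k := 3) nA_F3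
    have h2 := (nA_second 3).trans nA_3
    simp only [Real.sin_pi_div_two, Real.cos_pi_div_two, Real.sin_zero, Real.cos_zero] at h1
    change (∫ r in (0 : ℝ)..(Real.pi / 2), r ^ 2 * Real.cos r * Real.sin r ^ 3) +
      (∫ x in (0 : ℝ)..(Real.pi / 2),
        2 * max (571 / 1000 - 785 / 1000 * x ^ 2) 0 * Real.cos x ^ 3) ≤ _
    rw [h1]
    nlinarith

end Pool.Agent.MP562567.Q
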