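import Pool.Agent.Lib.MP_562567_gt.Q.Spec

/-! # The integrals with closed forms -/

set_option autoImplicit false

namespace Pool.Agent.MP562567.Q

open MeasureTheory Set

private theorem intD (F f : ℝ → ℝ) (h : ∀ r, HasDerivAt F (f r) r) (hf : Continuous f) :
    ∫ r in (0 : ℝ)..Real.pi, f r = F Real.pi - F 0 :=
  intervalIntegral.integral_eq_sub_of_hasDerivAt (fun r _ => h r) (hf.intervalIntegrable _ _)

private theorem sc (r : ℝ) : Real.cos r ^ 2 = 1 - Real.sin r ^ 2 := by
  have h := Real.sin_sq_add_cos_sq r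
  linarith

private theorem d3 : (∫ r in (0 : ℝ)..Real.pi, dens 3 r) = 2 := by
  have h := intD (fun r => -Real.cos r) (fun r => dens 3 r) (fun r => by
    refine (Real.hasDerivAt_cos r).neg.congr_deriv ?_
    rw [dens, neg_neg]
    norm_num) (by
    unfold dens
    fun_prop)
  rw [h]
  norm_num

private theorem d4 : (∫ r in (0 : ℝ)..Real.pi, dens 4 r) = Real.pi / 2 := by
  have h := intD (fun r => 1 / 2 * r - 1 / 2 * (Real.sin r * Real.cos r)) (fun r => dens 4 r)
    (fun r => by
      refine (((hasDerivAt_id r).const_mul (1 / 2)).sub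
        (((Real.hasDerivAt_sin r).mul (Real.hasDerivAt_cos r)).const_mul (1 / 2))).congr_deriv ?_
      rw [dens]
      linear_combination (-1 / 2) * sc r) (by
    unfold dens
    fun_prop)
  rw [h]
  norm_num
  ring

private theorem d5 : (∫ r in (0 : ℝ)..Real.pi, dens 5 r) = 4 / 3 := by
  have h := intD (fun r => -Real.cos r + 1 / 3 * Real.cos r ^ 3) (fun r => dens 5 r)
    (fun r => by
      refine ((Real.hasDerivAt_cos r).neg.add
        (((Real.hasDerivAt_cos r).pow 3).const_mul (1 / 3))).congr_deriv ?_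
      rw [dens]
      norm_num
      linear_combination (-Real.sin r) * sc r) (by
    unfold dens
    fun_prop)
  rw [h]
  norm_num

private theorem b3 : (∫ r in (0 : ℝ)..Real.pi, 2 * r * Real.sin r * dens 3 r) =
    Real.pi ^ 2 / 2 := by
  have h := intD (fun r => 1 / 2 * r ^ 2 - r * (Real.sin r * Real.cos r) + 1 / 2 * Real.sin r ^ 2)
    (fun r => 2 * r * Real.sin r * dens 3 r)
    (fun r => by
      refine (((((hasDerivAt_id r).pow 2).const_mul (1 / 2)).sub
        ((hasDerivAt_id r).mul ((Real.hasDerivAt_sin r).mul (Real.hasDerivAt_cos r)))).add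
        (((Real.hasDerivAt_sin r).pow 2).const_mul (1 / 2))).congr_deriv ?_
      rw [dens]
      norm_num
      linear_combination (-r) * sc r) (by
    unfold dens
    fun_prop)
  rw [h]
  norm_num
  ring

private theorem b4 : (∫ r in (0 : ℝ)..Real.pi, 2 * r * Real.sin r * dens 4 r) =
    4 * Real.pi / 3 := by
  have h := intD (fun r => 2 * (r * (-Real.cos r + 1 / 3 * Real.cos r ^ 3)) +
      4 / 3 * Real.sin r + 2 / 9 * Real.sin r ^ 3)
    (fun r => 2 * r * Real.sin r * dens 4 r)
    (fun r => by
      refine (((((hasDerivAt_id r).mul ((Real.hasDerivAt_cos r).neg.add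
        (((Real.hasDerivAt_cos r).pow 3).const_mul (1 / 3)))).const_mul 2).add
        ((Real.hasDerivAt_sin r).const_mul (4 / 3))).add
        (((Real.hasDerivAt_sin r).pow 3).const_mul (2 / 9))).congr_deriv ?_
      rw [dens]
      norm_num
      linear_combination (-2 * r * Real.sin r + 2 / 3 * Real.cos r) * sc r) (by
    unfold dens
    fun_prop)
  rw [h]
  norm_num
  ring

private theorem b5 : (∫ r in (0 : ℝ)..Real.pi, 2 * r * Real.sin r * dens 5 r) =
    3 * Real.pi ^ 2 / 8 := by
  have h := intD (fun r => 3 / 8 * r ^ 2 - 3 / 4 * (r * (Real.sin r * Real.cos r)) -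
      1 / 2 * (r * (Real.sin r ^ 3 * Real.cos r)) + 3 / 8 * Real.sin r ^ 2 +
      1 / 8 * Real.sin r ^ 4)
    (fun r => 2 * r * Real.sin r * dens 5 r)
    (fun r => by
      refine (((((((hasDerivAt_id r).pow 2).const_mul (3 / 8)).sub
        (((hasDerivAt_id r).mul ((Real.hasDerivAt_sin r).mul
          (Real.hasDerivAt_cos r))).const_mul (3 / 4))).sub
        (((hasDerivAt_id r).mul (((Real.hasDerivAt_sin r).pow 3).mul
          (Real.hasDerivAt_cos r))).const_mul (1 / 2))).add
        (((Real.hasDerivAt_sin r).pow 2).const_mul (3 / 8))).add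
        (((Real.hasDerivAt_sin r).pow 4).const_mul (1 / 8))).congr_deriv ?_
      rw [dens]
      norm_num
      linear_combination (-(3 / 4) * r - 3 / 2 * r * Real.sin r ^ 2) * sc r) (by
    unfold dens
    fun_prop)
  rw [h]
  norm_num
  ring

theorem numB : S_NumB := ⟨⟨d3, d4, d5⟩, b3, b4, b5⟩

end Pool.Agent.MP562567.Q
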