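import Pool.Agent.Lib.MP_562567_gt.Q.Spec

/-!
# MP_562567_gt, part Q: the integrals of `cb`
-/

set_option autoImplicit false

namespace Pool.Agent.MP562567.Q

open MeasureTheory Set

private theorem numC_split (k : ℕ) : (∫ r in (0 : ℝ)..Real.pi, cb r * dens (k + 2) r) =
    ∫ r in (0 : ℝ)..(Real.pi / 2), r ^ 3 * Real.sin r / 3 * Real.sin r ^ k := by
  have hpi := Real.pi_pos
  rw [intervalIntegral.integral_of_le hpi.le, intervalIntegral.integral_of_le (by linarith)]
  have h1 : (fun r => cb r * dens (k + 2) r) =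
      (Iic (Real.pi / 2)).indicator fun r => r ^ 3 * Real.sin r / 3 * Real.sin r ^ k := by
    funext r
    unfold cb dens
    by_cases h : r ≤ Real.pi / 2
    · rw [if_pos h, indicator_of_mem (mem_Iic.2 h), Nat.add_sub_cancel]
    · rw [if_neg h, indicator_of_notMem (fun h2 => h (mem_Iic.1 h2)), zero_mul]
  rw [h1, setIntegral_indicator measurableSet_Iic, Ioc_inter_Iic, min_eq_right (by linarith)]

/-- antiderivative of `r ^ 3 cos (c r)` -/
private noncomputable def numC_G (c r : ℝ) : ℝ :=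
  r ^ 3 * Real.sin (c * r) / c + 3 * r ^ 2 * Real.cos (c * r) / c ^ 2 -
    6 * r * Real.sin (c * r) / c ^ 3 - 6 * Real.cos (c * r) / c ^ 4

/-- antiderivative of `r ^ 3 sin (c r)` -/
private noncomputable def numC_H (c r : ℝ) : ℝ :=
  -(r ^ 3 * Real.cos (c * r) / c) + 3 * r ^ 2 * Real.sin (c * r) / c ^ 2 +
    6 * r * Real.cos (c * r) / c ^ 3 - 6 * Real.sin (c * r) / c ^ 4

private theorem numC_sin (c r : ℝ) :
    HasDerivAt (fun r => Real.sin (c * r)) (Real.cos (c * r) * c) r := by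
  have h : HasDerivAt (fun r => c * r) c r := by
    have := (hasDerivAt_id r).const_mul c
    rwa [mul_one] at this
  exact h.sin

private theorem numC_cos (c r : ℝ) :
    HasDerivAt (fun r => Real.cos (c * r)) (-Real.sin (c * r) * c) r := by
  have h : HasDerivAt (fun r => c * r) c r := by
    have := (hasDerivAt_id r).const_mul c
    rwa [mul_one] at this
  exact h.cos

private theorem numC_G' {c : ℝ} (hc : c ≠ 0) (r : ℝ) :
    HasDerivAt (numC_G c) (r ^ 3 * Real.cos (c * r)) r := by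
  have hs := numC_sin c r
  have hk := numC_cos c r
  have h3 : HasDerivAt (fun r : ℝ => r ^ 3) (3 * r ^ 2) r := by
    simpa using hasDerivAt_pow 3 r
  have h2 : HasDerivAt (fun r : ℝ => 3 * r ^ 2) (3 * (2 * r)) r := by
    simpa using (hasDerivAt_pow 2 r).const_mul 3
  have h1 : HasDerivAt (fun r : ℝ => 6 * r) 6 r := by
    simpa using (hasDerivAt_id r).const_mul 6
  have h := ((((h3.mul hs).div_const c).add ((h2.mul hk).div_const (c ^ 2))).sub
    ((h1.mul hs).div_const (c ^ 3))).sub ((hk.const_mul 6).div_const (c ^ 4))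
  refine h.congr_deriv ?_
  field_simp
  ring

private theorem numC_H' {c : ℝ} (hc : c ≠ 0) (r : ℝ) :
    HasDerivAt (numC_H c) (r ^ 3 * Real.sin (c * r)) r := by
  have hs := numC_sin c r
  have hk := numC_cos c r
  have h3 : HasDerivAt (fun r : ℝ => r ^ 3) (3 * r ^ 2) r := by
    simpa using hasDerivAt_pow 3 r
  have h2 : HasDerivAt (fun r : ℝ => 3 * r ^ 2) (3 * (2 * r)) r := by
    simpa using (hasDerivAt_pow 2 r).const_mul 3
  have h1 : HasDerivAt (fun r : ℝ => 6 * r) 6 r := by
    simpa using (hasDerivAt_id r).const_mul 6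
  have h := ((((h3.mul hk).div_const c).neg.add ((h2.mul hs).div_const (c ^ 2))).add
    ((h1.mul hk).div_const (c ^ 3))).sub ((hs.const_mul 6).div_const (c ^ 4))
  refine h.congr_deriv ?_
  field_simp
  ring

private theorem numC_int (F f : ℝ → ℝ) (hF : ∀ r, HasDerivAt F (f r) r) (hf : Continuous f) :
    (∫ r in (0 : ℝ)..(Real.pi / 2), f r) = F (Real.pi / 2) - F 0 :=
  intervalIntegral.integral_eq_sub_of_hasDerivAt (fun r _ => hF r) (hf.intervalIntegrable _ _)

private theorem numC_q (r : ℝ) : HasDerivAt (fun r : ℝ => r ^ 4) (4 * r ^ 3) r := by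
  simpa using hasDerivAt_pow 4 r

private theorem numC_2pi : Real.sin (2 * (Real.pi / 2)) = 0 ∧ Real.cos (2 * (Real.pi / 2)) = -1 := by
  rw [show 2 * (Real.pi / 2) = Real.pi by ring]
  exact ⟨Real.sin_pi, Real.cos_pi⟩

private theorem numC_4pi : Real.sin (4 * (Real.pi / 2)) = 0 ∧ Real.cos (4 * (Real.pi / 2)) = 1 := by
  rw [show 4 * (Real.pi / 2) = 2 * Real.pi by ring]
  exact ⟨Real.sin_two_pi, Real.cos_two_pi⟩

private theorem numC_3pi : Real.sin (3 * (Real.pi / 2)) = -1 ∧ Real.cos (3 * (Real.pi / 2)) = 0 := by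
  rw [Real.sin_three_mul, Real.cos_three_mul, Real.sin_pi_div_two, Real.cos_pi_div_two]
  constructor <;> norm_num

private theorem numC_three : (∫ r in (0 : ℝ)..Real.pi, cb r * dens 3 r) =
    (Real.pi ^ 4 / 128 + 3 * Real.pi ^ 2 / 32 - 3 / 8) / 3 := by
  rw [numC_split 1, numC_int (fun r => (r ^ 4 / 8 - numC_G 2 r / 2) / 3)]
  · obtain ⟨h1, h2⟩ := numC_2pi
    simp only [numC_G, h1, h2, mul_zero, Real.sin_zero, Real.cos_zero]
    ring
  · intro r
    have h := (((numC_q r).div_const 8).sub ((numC_G' (two_ne_zero (α := ℝ)) r).div_const 2)).div_const 3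
    refine h.congr_deriv ?_
    rw [Real.cos_two_mul, pow_one, Real.cos_sq']
    ring
  · fun_prop

private theorem numC_four : (∫ r in (0 : ℝ)..Real.pi, cb r * dens 4 r) =
    (7 * Real.pi ^ 2 / 3 - 488 / 27) / 12 := by
  rw [numC_split 2, numC_int (fun r => (3 * numC_H 1 r - numC_H 3 r) / 12)]
  · obtain ⟨h1, h2⟩ := numC_3pi
    simp only [numC_H, h1, h2, mul_zero, one_mul, Real.sin_zero, Real.cos_zero, Real.sin_pi_div_two,
      Real.cos_pi_div_two]
    ring
  · intro r
    have h := (((numC_H' (one_ne_zero (α := ℝ)) r).const_mul 3).sub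
      (numC_H' (three_ne_zero (α := ℝ)) r)).div_const 12
    refine h.congr_deriv ?_
    rw [Real.sin_three_mul, one_mul]
    ring
  · fun_prop

private theorem numC_five : (∫ r in (0 : ℝ)..Real.pi, cb r * dens 5 r) =
    (3 * Real.pi ^ 4 / 512 + 51 * Real.pi ^ 2 / 512 - 3 / 8) / 3 := by
  rw [numC_split 3, numC_int (fun r => (3 * r ^ 4 / 32 - numC_G 2 r / 2 + numC_G 4 r / 8) / 3)]
  · obtain ⟨h1, h2⟩ := numC_2pi
    obtain ⟨h3, h4⟩ := numC_4pi
    simp only [numC_G, h1, h2, h3, h4, mul_zero, Real.sin_zero, Real.cos_zero]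
    ring
  · intro r
    have h := (((((numC_q r).const_mul 3).div_const 32).sub
      ((numC_G' (two_ne_zero (α := ℝ)) r).div_const 2)).add
      ((numC_G' (four_ne_zero (α := ℝ)) r).div_const 8)).div_const 3
    refine h.congr_deriv ?_
    have e1 : Real.cos (2 * r) = 1 - 2 * Real.sin r ^ 2 := by
      rw [Real.cos_two_mul, Real.cos_sq']; ring
    have e2 : Real.cos (4 * r) = 2 * Real.cos (2 * r) ^ 2 - 1 := by
      rw [show 4 * r = 2 * (2 * r) by ring, Real.cos_two_mul]
    rw [e2, e1]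
    ring
  · fun_prop

theorem numC : S_NumC := ⟨numC_three, numC_four, numC_five⟩

end Pool.Agent.MP562567.Q
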