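import Pool.Agent.Lib.MP_562567_gt.Q.Spec
import Pool.Agent.Lib.MP_562567_gt.Poinc

/-!
# MP_562567_gt, part Q: the Poincaré inequality with the exponent `3/2`
-/

set_option autoImplicit false

namespace Pool.Agent.MP562567.Q

open MeasureTheory Set

namespace poiAux

variable {n : ℕ}

theorem hh_sq (s : ℝ) (hs : 0 ≤ s) : hh (s ^ 2) = (1 - s) ^ 2 * (s + 1 / 2) := by
  have h1 : (s ^ 2) ^ (3 / 2 : ℝ) = s ^ 3 := by
    rw [← Real.rpow_natCast s 2, ← Real.rpow_mul hs]
    rw [← Real.rpow_natCast s 3]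
    norm_num
  unfold hh
  rw [h1]
  ring

theorem hh_nonneg (u : ℝ) (hu : 0 ≤ u) : 0 ≤ hh u := by
  have h := hh_sq (Real.sqrt u) (Real.sqrt_nonneg u)
  rw [Real.sq_sqrt hu] at h
  rw [h]
  have := Real.sqrt_nonneg u
  positivity

theorem hh_one : hh 1 = 0 := by
  unfold hh
  norm_num

theorem hh_cont : Continuous hh := by
  unfold hh
  have h : Continuous fun u : ℝ => u ^ (3 / 2 : ℝ) :=
    Real.continuous_rpow_const (by norm_num)
  fun_prop

theorem P2_cont : Continuous P2 := by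
  unfold P2
  fun_prop

theorem P3_cont : Continuous P3 := by
  unfold P3
  fun_prop

theorem P4_cont : Continuous P4 := by
  unfold P4
  exact hh_cont.comp (continuous_id.max continuous_const)

theorem phi_cont : Continuous phi := by
  unfold phi
  exact continuous_const.sub (continuous_const.mul
    (Real.continuous_cos.comp (continuous_id.min continuous_const)))

theorem phi_bd (r : ℝ) : |phi r| ≤ 4 := by
  unfold phi
  have h1 := Real.neg_one_le_cos (min r Real.pi)
  have h2 := Real.cos_le_one (min r Real.pi)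
  rw [abs_le]
  constructor <;> linarith

theorem ca_meas : Measurable ca := by
  unfold ca
  refine Measurable.ite measurableSet_Iic ?_ ?_
  · exact (by fun_prop : Continuous fun r : ℝ => r ^ 2 * Real.cos r).measurable
  · exact (by fun_prop : Continuous fun r : ℝ =>
      2 * max (571 / 1000 - 785 / 1000 * (r - Real.pi / 2) ^ 2) 0).measurable

theorem cb_meas : Measurable cb := by
  unfold cb
  refine Measurable.ite measurableSet_Iic ?_ measurable_const
  exact (by fun_prop : Continuous fun r : ℝ => r ^ 3 * Real.sin r / 3).measurable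

theorem ca_bd {r : ℝ} (h0 : 0 ≤ r) : |ca r| ≤ 4 := by
  unfold ca
  have hpi := Real.pi_lt_d2
  split_ifs with h
  · rw [abs_mul, abs_of_nonneg (sq_nonneg r)]
    have h1 := Real.abs_cos_le_one r
    have h2 : r ^ 2 ≤ 4 := by nlinarith
    calc r ^ 2 * |Real.cos r| ≤ 4 * 1 := mul_le_mul h2 h1 (abs_nonneg _) (by norm_num)
      _ = 4 := by norm_num
  · rw [abs_of_nonneg (by positivity)]
    have : max (571 / 1000 - 785 / 1000 * (r - Real.pi / 2) ^ 2) 0 ≤ 571 / 1000 :=
      max_le (by nlinarith [sq_nonneg (r - Real.pi / 2)]) (by norm_num)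
    linarith

theorem cb_bd {r : ℝ} (h0 : 0 ≤ r) : |cb r| ≤ 4 := by
  unfold cb
  have hpi := Real.pi_lt_d2
  split_ifs with h
  · have h1 := Real.abs_sin_le_one r
    have h2 : r ^ 3 ≤ 8 := by
      have : r ≤ 2 := by linarith
      calc r ^ 3 ≤ 2 ^ 3 := pow_le_pow_left₀ h0 this 3
        _ = 8 := by norm_num
    rw [abs_div, abs_mul, abs_of_nonneg (by positivity : (0 : ℝ) ≤ r ^ 3),
      abs_of_pos (by norm_num : (0 : ℝ) < 3)]
    have h3 : r ^ 3 * |Real.sin r| ≤ 8 * 1 := mul_le_mul h2 h1 (abs_nonneg _) (by norm_num)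
    linarith
  · simp

theorem dens_cont (n : ℕ) : Continuous (dens n) := by
  unfold dens
  fun_prop

theorem dens_bd (n : ℕ) (r : ℝ) : |dens n r| ≤ 1 := by
  unfold dens
  rw [abs_pow]
  exact pow_le_one₀ (abs_nonneg _) (Real.abs_sin_le_one r)

/-- bounded measurable functions times the density are integrable -/
theorem int_bd (n : ℕ) (f : ℝ → ℝ) (hf : Measurable f) (C : ℝ)
    (hC : ∀ r ∈ Icc (0 : ℝ) Real.pi, |f r| ≤ C) :
    IntervalIntegrable (fun r => f r * dens n r) volume 0 Real.pi := by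
  rw [intervalIntegrable_iff_integrableOn_Icc_of_le Real.pi_pos.le]
  refine Measure.integrableOn_of_bounded (M := C) (by simp) ?_ ?_
  · exact (hf.mul (dens_cont n).measurable).aestronglyMeasurable
  · rw [ae_restrict_iff' measurableSet_Icc]
    refine Filter.Eventually.of_forall fun r hr => ?_
    rw [Real.norm_eq_abs, abs_mul]
    calc |f r| * |dens n r| ≤ C * 1 :=
          mul_le_mul (hC r hr) (dens_bd n r) (abs_nonneg _) ((abs_nonneg _).trans (hC r hr))
      _ = C := mul_one C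

theorem exists_X' (hn : 2 ≤ n) (e y : E n) (he : ‖e‖ = 1) (hy : ‖y‖ = 1) :
    ∃ b : E n, ‖b‖ = 1 ∧ inner ℝ e b = 0 ∧ X e b (Real.arccos (inner ℝ y e)) = y := by
  rw [real_inner_comm]
  set c : ℝ := inner ℝ e y with hc
  have hc1 : |c| ≤ 1 := by
    have h := abs_real_inner_le_norm e y
    rwa [he, hy, one_mul] at h
  obtain ⟨hc2, hc3⟩ := abs_le.mp hc1
  set u : E n := y - c • e with hu
  have heu : inner ℝ e u = 0 := by
    rw [hu, inner_sub_right, inner_smul_right, real_inner_self_eq_norm_sq, he, ← hc]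
    ring
  have hu2 : ‖u‖ ^ 2 = 1 - c ^ 2 := by
    rw [hu, norm_sub_sq_real, hy, norm_smul, he, inner_smul_right, real_inner_comm, ← hc]
    rw [Real.norm_eq_abs, mul_one, sq_abs]
    ring
  have hcos : Real.cos (Real.arccos c) = c := Real.cos_arccos hc2 hc3
  have hsin : Real.sin (Real.arccos c) = ‖u‖ := by
    rw [Real.sin_arccos, ← hu2, Real.sqrt_sq (norm_nonneg _)]
  by_cases hu0 : u = 0
  · obtain ⟨b, hb, hbe⟩ := poincAux.exists_orth hn e he
    refine ⟨b, hb, hbe, ?_⟩
    unfold X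
    rw [hcos, hsin, hu0, norm_zero, zero_smul, add_zero]
    exact (sub_eq_zero.mp (hu.symm.trans hu0)).symm
  · have hun : ‖u‖ ≠ 0 := norm_ne_zero_iff.mpr hu0
    refine ⟨‖u‖⁻¹ • u, ?_, ?_, ?_⟩
    · rw [norm_smul, norm_inv, norm_norm, inv_mul_cancel₀ hun]
    · rw [inner_smul_right, heu, mul_zero]
    · unfold X
      rw [hcos, hsin, smul_smul, mul_inv_cancel₀ hun, one_smul, hu]
      abel

end poiAux

open poiAux poincAux in
theorem poi_meas (hM1 : S_Maj1) (hM2 : S_Maj2) (hM3 : S_Maj3) (hLaw : S_Law) (hArc : S_Arc)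
    (hNA : S_NumA) (hNB : S_NumB) (hNC : S_NumC) (hNum : S_Num) (n : ℕ) (A : Avg n)
    (hn : 3 ≤ n) (hn5 : n ≤ 5) (F : E n → E n) (w : E n → ℝ)
    (hFm : Measurable F) (hwm : Measurable w)
    (hw : ContinuousOn w (Metric.sphere 0 1))
    (hw0 : ∀ x, 0 ≤ w x)
    (hFs : ∀ x ∈ Metric.sphere (0 : E n) 1, ‖F x‖ = 1)
    (hF1 : ∀ x, ‖F x‖ ≤ 1) (C : ℝ) (hwC : ∀ x, |w x| ≤ C)
    (hFw : ∀ a b : E n, ‖a‖ = 1 → ‖b‖ = 1 → inner ℝ a b = 0 → ∀ σ τ : ℝ, σ ≤ τ →
      InnerProductGeometry.angle (F (Q.X a b σ)) (F (Q.X a b τ)) ≤ ∫ t in σ..τ, w (Q.X a b t))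
    (e : E n) (he : ‖e‖ = 1) (hF0 : ∫ g, F (A.ρ g e) ∂A.μ = 0) :
    1 ≤ ∫ g, w (A.ρ g e) ^ (3 / 2 : ℝ) ∂A.μ := by
  set W₁ : ℝ := ∫ g, w (A.ρ g e) ∂A.μ with hW₁
  set M₂ : ℝ := ∫ g, P2 (w (A.ρ g e)) ∂A.μ with hM₂
  set M₃ : ℝ := ∫ g, P3 (w (A.ρ g e)) ∂A.μ with hM₃
  set M₄ : ℝ := ∫ g, P4 (w (A.ρ g e)) ∂A.μ with hM₄
  set G : ℝ → ℝ := fun r => phi r + 2 * r * Real.sin r * (W₁ - 1) + ca r * M₂ + cb r * M₃ +
    3 / 2 * M₄ with hG
  set Z : ℝ := ∫ r in (0 : ℝ)..Real.pi, dens n r with hZ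
  set Bt : ℝ := ∫ r in (0 : ℝ)..Real.pi, 2 * r * Real.sin r * dens n r with hBt
  set IA : ℝ := ∫ r in (0 : ℝ)..Real.pi, ca r * dens n r with hIA
  set IB : ℝ := ∫ r in (0 : ℝ)..Real.pi, cb r * dens n r with hIB
  obtain ⟨hnum1, hZ0, hnum2⟩ := hNum hNA hNB hNC n hn hn5
  have hC0 : 0 ≤ C := (abs_nonneg _).trans (hwC e)
  have hsph : ∀ g (x : E n), ‖x‖ = 1 → A.ρ g x ∈ Metric.sphere (0 : E n) 1 := by
    intro g x hx
    rw [mem_sphere_zero_iff_norm, LinearIsometryEquiv.norm_map, hx]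
  -- the bound for each `k`
  have h1 : ∀ k : A.G, ∫ g, ‖F (A.ρ g (A.ρ k e)) - F (A.ρ g e)‖ ^ 2 ∂A.μ ≤
      G (Real.arccos (inner ℝ (A.ρ k e) e)) := by
    intro k
    obtain ⟨b, hb, heb, hX⟩ := exists_X' (by omega) e (A.ρ k e) he
      (by rw [LinearIsometryEquiv.norm_map, he])
    have h2 := hArc hM1 hM2 hM3 n A F w C hFm hwm hw (fun x _ => hw0 x) hwC hFs hFw e b he hb heb
      (Real.arccos (inner ℝ (A.ρ k e) e)) ⟨Real.arccos_nonneg _, Real.arccos_le_pi _⟩
    rw [hX] at h2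
    exact h2
  have hm1 : Measurable fun q : A.G × A.G => A.ρ q.2 (A.ρ q.1 e) :=
    A.measJ.comp (measurable_snd.prodMk ((meas A e).comp measurable_fst))
  have hm2 : Measurable fun q : A.G × A.G => A.ρ q.2 e := (meas A e).comp measurable_snd
  have hint : Integrable (Function.uncurry fun k g : A.G =>
      ‖F (A.ρ g (A.ρ k e)) - F (A.ρ g e)‖ ^ 2) (A.μ.prod A.μ) := by
    refine Integrable.of_bound
      ((((hFm.comp hm1).sub (hFm.comp hm2)).norm).pow_const 2).aestronglyMeasurable 4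
      (Filter.Eventually.of_forall fun q => ?_)
    change ‖‖F (A.ρ q.2 (A.ρ q.1 e)) - F (A.ρ q.2 e)‖ ^ 2‖ ≤ 4
    rw [Real.norm_eq_abs, abs_of_nonneg (by positivity)]
    have h1 : ‖F (A.ρ q.2 (A.ρ q.1 e)) - F (A.ρ q.2 e)‖ ≤ 2 :=
      (norm_sub_le _ _).trans (by linarith [hF1 (A.ρ q.2 (A.ρ q.1 e)), hF1 (A.ρ q.2 e)])
    nlinarith [norm_nonneg (F (A.ρ q.2 (A.ρ q.1 e)) - F (A.ρ q.2 e))]
  have hL : ∫ k, ∫ g, ‖F (A.ρ g (A.ρ k e)) - F (A.ρ g e)‖ ^ 2 ∂A.μ ∂A.μ = 2 := by
    rw [integral_integral_swap hint]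
    have h2 : ∀ g, ∫ k, ‖F (A.ρ g (A.ρ k e)) - F (A.ρ g e)‖ ^ 2 ∂A.μ = 2 := by
      intro g
      have h3 := linv A g (fun k => ‖F (A.ρ k e) - F (A.ρ g e)‖ ^ 2)
        ((((hFm.comp (meas A _)).sub measurable_const).norm).pow_const 2).aestronglyMeasurable
      simp only [rho_mul] at h3
      rw [h3]
      exact avg_sq A (fun k => F (A.ρ k e)) (hFm.comp (meas A e))
        (fun k => hFs _ (hsph k e he)) hF0 _ (hFs _ (hsph g e he))
    simp only [h2]
    simp
  have hE0 : ∫ k, A.ρ k e ∂A.μ = 0 := by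
    obtain ⟨k, hk⟩ := exists_rho A (y := e) (y' := -e) (by rw [norm_neg])
    have h3 := rinv A k (fun g => A.ρ g e) (meas A e).aestronglyMeasurable
    simp only [rho_mul, hk, map_neg] at h3
    rw [integral_neg] at h3
    have h4 : (2 : ℝ) • ∫ g, A.ρ g e ∂A.μ = 0 := by
      rw [two_smul]
      nth_rewrite 1 [← h3]
      exact neg_add_cancel _
    exact (smul_eq_zero.mp h4).resolve_left two_ne_zero
  -- measurability and bounds of the right side
  have hGm : Measurable G := by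
    have hs : Measurable fun r : ℝ => 2 * r * Real.sin r := by fun_prop
    exact ((((phi_cont.measurable.add (hs.mul_const _)).add (ca_meas.mul_const _)).add
      (cb_meas.mul_const _)).add measurable_const)
  set K : ℝ := 4 + 2 * Real.pi * |W₁ - 1| + 4 * |M₂| + 4 * |M₃| + |3 / 2 * M₄| with hK
  have hGb : ∀ r ∈ Icc (0 : ℝ) Real.pi, |G r| ≤ K := by
    intro r hr
    have a1 := phi_bd r
    have a2 : |2 * r * Real.sin r * (W₁ - 1)| ≤ 2 * Real.pi * |W₁ - 1| := by
      rw [abs_mul]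
      refine mul_le_mul_of_nonneg_right ?_ (abs_nonneg _)
      rw [abs_mul, abs_of_nonneg (by linarith [hr.1] : (0 : ℝ) ≤ 2 * r)]
      have := Real.abs_sin_le_one r
      nlinarith [hr.1, hr.2, abs_nonneg (Real.sin r)]
    have a3 : |ca r * M₂| ≤ 4 * |M₂| := by
      rw [abs_mul]
      exact mul_le_mul_of_nonneg_right (ca_bd hr.1) (abs_nonneg _)
    have a4 : |cb r * M₃| ≤ 4 * |M₃| := by
      rw [abs_mul]
      exact mul_le_mul_of_nonneg_right (cb_bd hr.1) (abs_nonneg _)
    have t1 := abs_add_le (phi r + 2 * r * Real.sin r * (W₁ - 1) + ca r * M₂ + cb r * M₃)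
      (3 / 2 * M₄)
    have t2 := abs_add_le (phi r + 2 * r * Real.sin r * (W₁ - 1) + ca r * M₂) (cb r * M₃)
    have t3 := abs_add_le (phi r + 2 * r * Real.sin r * (W₁ - 1)) (ca r * M₂)
    have t4 := abs_add_le (phi r) (2 * r * Real.sin r * (W₁ - 1))
    simp only [hG, hK]
    linarith
  have hK0 : 0 ≤ K := by
    have := Real.pi_pos
    positivity
  set Θ : ℝ → ℝ := (Icc (0 : ℝ) Real.pi).indicator G with hΘ
  have hΘe : ∀ r ∈ Icc (0 : ℝ) Real.pi, Θ r = G r := fun r hr => indicator_of_mem hr G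
  have hΘm : Measurable Θ := hGm.indicator measurableSet_Icc
  have hΘb : ∀ r, |Θ r| ≤ K := by
    intro r
    by_cases hr : r ∈ Icc (0 : ℝ) Real.pi
    · rw [hΘe r hr]
      exact hGb r hr
    · rw [hΘ, indicator_of_notMem hr, abs_zero]
      exact hK0
  have hlaw := hLaw n A hn e he Θ hΘm ⟨K, hΘb⟩
  have hlawphi := hLaw n A hn e he phi phi_cont.measurable ⟨4, phi_bd⟩
  have harc : ∀ k : A.G, Real.arccos (inner ℝ (A.ρ k e) e) ∈ Icc (0 : ℝ) Real.pi := fun k =>
    ⟨Real.arccos_nonneg _, Real.arccos_le_pi _⟩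
  -- the integral of `phi`
  have hphi : ∫ k, phi (Real.arccos (inner ℝ (A.ρ k e) e)) ∂A.μ = 2 := by
    have hi : Integrable (fun k => A.ρ k e) A.μ := int_bdd A _ (meas A e).aestronglyMeasurable 1
      fun k => by rw [LinearIsometryEquiv.norm_map, he]
    have h3 : ∀ k : A.G, phi (Real.arccos (inner ℝ (A.ρ k e) e)) =
        2 - 2 * inner ℝ e (A.ρ k e) := by
      intro k
      have hin : |inner ℝ (A.ρ k e) e| ≤ 1 := by
        have h := abs_real_inner_le_norm (A.ρ k e) e
        rwa [LinearIsometryEquiv.norm_map, he, one_mul] at h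
      obtain ⟨hc2, hc3⟩ := abs_le.mp hin
      unfold phi
      rw [min_eq_left (Real.arccos_le_pi _), Real.cos_arccos hc2 hc3, real_inner_comm]
    simp only [h3]
    rw [integral_sub (integrable_const _) ((hi.const_inner e).const_mul 2), integral_const_mul,
      integral_inner hi, hE0, inner_zero_right, integral_const]
    simp
  have hΘG : ∫ k, Θ (Real.arccos (inner ℝ (A.ρ k e) e)) ∂A.μ =
      ∫ k, G (Real.arccos (inner ℝ (A.ρ k e) e)) ∂A.μ :=
    integral_congr_ae (Filter.Eventually.of_forall fun k => hΘe _ (harc k))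
  have hGint : Integrable (fun k => G (Real.arccos (inner ℝ (A.ρ k e) e))) A.μ := by
    refine int_bdd A _ ?_ K fun k => ?_
    · refine (hGm.comp (Real.continuous_arccos.measurable.comp ?_)).aestronglyMeasurable
      exact (meas A e).inner measurable_const
    · rw [Real.norm_eq_abs]
      exact hGb _ (harc k)
  have h4 : 2 ≤ ∫ k, G (Real.arccos (inner ℝ (A.ρ k e) e)) ∂A.μ := by
    have h5 := integral_mono hint.integral_prod_left hGint h1
    simp only [Function.uncurry] at h5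
    rwa [hL] at h5
  -- the integral of `G`
  have hi1 : IntervalIntegrable (fun r => phi r * dens n r) volume 0 Real.pi :=
    int_bd n phi phi_cont.measurable 4 fun r _ => phi_bd r
  have hi2 : IntervalIntegrable (fun r => 2 * r * Real.sin r * dens n r) volume 0 Real.pi := by
    have : Continuous fun r => 2 * r * Real.sin r * dens n r :=
      (by fun_prop : Continuous fun r : ℝ => 2 * r * Real.sin r).mul (dens_cont n)
    exact this.intervalIntegrable _ _
  have hi3 : IntervalIntegrable (fun r => ca r * dens n r) volume 0 Real.pi :=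
    int_bd n ca ca_meas 4 fun r hr => ca_bd hr.1
  have hi4 : IntervalIntegrable (fun r => cb r * dens n r) volume 0 Real.pi :=
    int_bd n cb cb_meas 4 fun r hr => cb_bd hr.1
  have hi5 : IntervalIntegrable (dens n) volume 0 Real.pi := (dens_cont n).intervalIntegrable _ _
  have hGI : ∫ r in (0 : ℝ)..Real.pi, Θ r * dens n r =
      (∫ r in (0 : ℝ)..Real.pi, phi r * dens n r) + Bt * (W₁ - 1) + IA * M₂ + IB * M₃ +
        3 / 2 * M₄ * Z := by
    have e1 : ∫ r in (0 : ℝ)..Real.pi, Θ r * dens n r = ∫ r in (0 : ℝ)..Real.pi,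
        (phi r * dens n r + (2 * r * Real.sin r * dens n r) * (W₁ - 1) + (ca r * dens n r) * M₂ +
          (cb r * dens n r) * M₃ + dens n r * (3 / 2 * M₄)) := by
      refine intervalIntegral.integral_congr fun r hr => ?_
      rw [uIcc_of_le Real.pi_pos.le] at hr
      rw [hΘe r hr]
      simp only [hG]
      ring
    rw [e1, intervalIntegral.integral_add, intervalIntegral.integral_add,
      intervalIntegral.integral_add, intervalIntegral.integral_add,
      intervalIntegral.integral_mul_const, intervalIntegral.integral_mul_const,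
      intervalIntegral.integral_mul_const, intervalIntegral.integral_mul_const]
    · ring
    · exact hi1
    · exact hi2.mul_const _
    · exact hi1.add (hi2.mul_const _)
    · exact hi3.mul_const _
    · exact (hi1.add (hi2.mul_const _)).add (hi3.mul_const _)
    · exact hi4.mul_const _
    · exact ((hi1.add (hi2.mul_const _)).add (hi3.mul_const _)).add (hi4.mul_const _)
    · exact hi5.mul_const _
  have h5 : 0 ≤ Bt * (W₁ - 1) + IA * M₂ + IB * M₃ + 3 / 2 * M₄ * Z := by
    rw [hΘG, hGI, ← hlawphi, hphi] at hlaw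
    have h6 : Z * 2 ≤ Z * ∫ k, G (Real.arccos (inner ℝ (A.ρ k e) e)) ∂A.μ :=
      mul_le_mul_of_nonneg_left h4 hZ0.le
    linarith
  -- the pointwise inequality
  have hpt : ∀ u : ℝ, 0 ≤ u → IA * P2 u + IB * P3 u + 3 / 2 * Z * P4 u ≤ 2 / 3 * Bt * hh u := by
    intro u hu
    rcases le_total u 1 with h | h
    · have h6 := hnum2 (1 - u) ⟨by linarith, by linarith⟩
      have e1 : (1 : ℝ) - (1 - u) = u := by ring
      rw [e1] at h6
      unfold P2 P3 P4
      rw [max_eq_left (by linarith : (0 : ℝ) ≤ 1 - u), max_eq_right h, hh_one]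
      linarith
    · unfold P2 P3 P4
      rw [max_eq_right (by linarith : (1 : ℝ) - u ≤ 0), max_eq_left h]
      have h6 := hh_nonneg u hu
      have h7 : 3 / 2 * Z ≤ 2 / 3 * Bt := by linarith
      have h8 := mul_le_mul_of_nonneg_right h7 h6
      simpa using h8
  -- integrate it
  have hwm' : Measurable fun g => w (A.ρ g e) := hwm.comp (meas A e)
  have hcomp : ∀ f : ℝ → ℝ, Continuous f → Integrable (fun g => f (w (A.ρ g e))) A.μ := by
    intro f hf
    obtain ⟨D, hD⟩ := (isCompact_Icc (a := -C) (b := C)).exists_bound_of_continuousOn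
      hf.continuousOn
    refine int_bdd A _ (hf.measurable.comp hwm').aestronglyMeasurable D fun g => ?_
    exact hD _ (abs_le.mp (hwC _))
  have hrp : Continuous fun u : ℝ => u ^ (3 / 2 : ℝ) := Real.continuous_rpow_const (by norm_num)
  have h9 : IA * M₂ + IB * M₃ + 3 / 2 * Z * M₄ ≤
      2 / 3 * Bt * ((∫ g, w (A.ρ g e) ^ (3 / 2 : ℝ) ∂A.μ) - 1 - 3 / 2 * (W₁ - 1)) := by
    have j1 := integral_mono
      (((hcomp P2 P2_cont).const_mul IA).add ((hcomp P3 P3_cont).const_mul IB) |>.add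
        ((hcomp P4 P4_cont).const_mul (3 / 2 * Z)))
      ((hcomp hh hh_cont).const_mul (2 / 3 * Bt)) fun g => hpt _ (hw0 (A.ρ g e))
    have e1 : ∫ g, hh (w (A.ρ g e)) ∂A.μ =
        (∫ g, w (A.ρ g e) ^ (3 / 2 : ℝ) ∂A.μ) - 1 - 3 / 2 * (W₁ - 1) := by
      have j2 : Integrable (fun g => w (A.ρ g e) ^ (3 / 2 : ℝ)) A.μ := hcomp _ hrp
      have j3 : Integrable (fun g => w (A.ρ g e)) A.μ := hcomp _ continuous_id
      have j4 : ∀ g, hh (w (A.ρ g e)) =
          w (A.ρ g e) ^ (3 / 2 : ℝ) - (1 + 3 / 2 * (w (A.ρ g e) - 1)) := by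
        intro g
        unfold hh
        ring
      simp only [j4]
      have j5 : Integrable (fun g => w (A.ρ g e) - 1) A.μ := j3.sub (integrable_const 1)
      have j6 : Integrable (fun g => 3 / 2 * (w (A.ρ g e) - 1)) A.μ := j5.const_mul _
      have j7 : Integrable (fun g => 1 + 3 / 2 * (w (A.ρ g e) - 1)) A.μ := (integrable_const 1).add j6
      rw [integral_sub j2 j7, integral_add (integrable_const 1) j6,
        integral_const_mul, integral_sub j3 (integrable_const 1)]
      simp only [integral_const, probReal_univ, smul_eq_mul, mul_one]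
      ring
    rw [integral_const_mul, e1] at j1
    refine le_trans (le_of_eq ?_) j1
    simp only [Pi.add_apply]
    rw [integral_add, integral_add, integral_const_mul, integral_const_mul, integral_const_mul]
    · exact (hcomp P2 P2_cont).const_mul IA
    · exact (hcomp P3 P3_cont).const_mul IB
    · exact ((hcomp P2 P2_cont).const_mul IA).add ((hcomp P3 P3_cont).const_mul IB)
    · exact (hcomp P4 P4_cont).const_mul (3 / 2 * Z)
  have hBt0 : 0 < Bt := by linarith
  have h10 : 0 ≤ 2 / 3 * Bt * ((∫ g, w (A.ρ g e) ^ (3 / 2 : ℝ) ∂A.μ) - 1) := by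
    nlinarith
  have h11 : 0 ≤ (∫ g, w (A.ρ g e) ^ (3 / 2 : ℝ) ∂A.μ) - 1 := by
    by_contra h
    push Not at h
    have : 2 / 3 * Bt * ((∫ g, w (A.ρ g e) ^ (3 / 2 : ℝ) ∂A.μ) - 1) < 0 :=
      mul_neg_of_pos_of_neg (by positivity) h
    linarith
  linarith

open poiAux in
open Classical in
theorem poi : S_Poi := by
  intro hM1 hM2 hM3 hLaw hArc hNA hNB hNC hNum n A hn hn5 F w hF hw hw0 hFs hFw e he hF0
  set S : Set (E n) := Metric.sphere 0 1 with hS
  have hSm : MeasurableSet S := Metric.isClosed_sphere.measurableSet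
  set F₁ : E n → E n := S.piecewise F (fun _ => 0) with hF₁
  set w₁ : E n → ℝ := S.piecewise w (fun _ => 0) with hw₁
  have hFe : ∀ x ∈ S, F₁ x = F x := fun x hx => Set.piecewise_eq_of_mem _ _ _ hx
  have hwe : ∀ x ∈ S, w₁ x = w x := fun x hx => Set.piecewise_eq_of_mem _ _ _ hx
  have hFm : Measurable F₁ := hF.measurable_piecewise continuousOn_const hSm
  have hwm : Measurable w₁ := hw.measurable_piecewise continuousOn_const hSm
  obtain ⟨C, hC⟩ := (isCompact_sphere (0 : E n) 1).exists_bound_of_continuousOn hw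
  have hsph : ∀ g, A.ρ g e ∈ S := by
    intro g
    rw [hS, mem_sphere_zero_iff_norm, LinearIsometryEquiv.norm_map, he]
  have hCS : ∀ a b : E n, ‖a‖ = 1 → ‖b‖ = 1 → inner ℝ a b = 0 → ∀ t : ℝ,
      Q.X a b t ∈ S := by
    intro a b ha hb hab t
    rw [hS, mem_sphere_zero_iff_norm]
    exact poincAux.X_norm a b ha hb hab t
  have hres := poi_meas hM1 hM2 hM3 hLaw hArc hNA hNB hNC hNum n A hn hn5 F₁ w₁ hFm hwm
    (hw.congr fun x hx => hwe x hx)
    (fun x => by
      by_cases hx : x ∈ S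
      · rw [hwe x hx]; exact hw0 x hx
      · rw [hw₁, Set.piecewise_eq_of_notMem _ _ _ hx])
    (fun x hx => by rw [hFe x hx]; exact hFs x hx)
    (fun x => by
      by_cases hx : x ∈ S
      · rw [hFe x hx, hFs x hx]
      · rw [hF₁, Set.piecewise_eq_of_notMem _ _ _ hx, norm_zero]
        exact zero_le_one)
    (max C 0)
    (fun x => by
      by_cases hx : x ∈ S
      · rw [hwe x hx, ← Real.norm_eq_abs]
        exact (hC x hx).trans (le_max_left _ _)
      · rw [hw₁, Set.piecewise_eq_of_notMem _ _ _ hx, abs_zero]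
        exact le_max_right _ _)
    (fun a b ha hb hab σ τ hστ => by
      rw [hFe _ (hCS a b ha hb hab τ), hFe _ (hCS a b ha hb hab σ)]
      refine (hFw a b ha hb hab σ τ hστ).trans (le_of_eq ?_)
      refine intervalIntegral.integral_congr fun t _ => ?_
      exact (hwe _ (hCS a b ha hb hab t)).symm)
    e he
    (by
      rw [← hF0]
      refine integral_congr_ae (Filter.Eventually.of_forall fun g => ?_)
      exact hFe _ (hsph g))
  refine hres.trans (le_of_eq ?_)
  refine integral_congr_ae (Filter.Eventually.of_forall fun g => ?_)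
  change w₁ (A.ρ g e) ^ (3 / 2 : ℝ) = w (A.ρ g e) ^ (3 / 2 : ℝ)
  rw [hwe _ (hsph g)]

end Pool.Agent.MP562567.Q
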