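import Pool.Agent.Lib.MP_562567_gt.Main
import Pool.Agent.Lib.MP_562567_gt.Q.Maj1
import Pool.Agent.Lib.MP_562567_gt.Q.Maj2
import Pool.Agent.Lib.MP_562567_gt.Q.Maj3
import Pool.Agent.Lib.MP_562567_gt.Q.Law
import Pool.Agent.Lib.MP_562567_gt.Q.LipA
import Pool.Agent.Lib.MP_562567_gt.Q.Arc
import Pool.Agent.Lib.MP_562567_gt.Q.NumA
import Pool.Agent.Lib.MP_562567_gt.Q.NumB
import Pool.Agent.Lib.MP_562567_gt.Q.NumC
import Pool.Agent.Lib.MP_562567_gt.Q.Num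
import Pool.Agent.Lib.MP_562567_gt.Q.Poi
import Pool.Agent.Lib.MP_562567_gt.Q.Core3
import Pool.Agent.Lib.MP_562567_gt.Q.Ineq3
import Pool.Agent.Lib.MP_562567_gt.Q.MI3
import Pool.Agent.Lib.MP_562567_gt.Q.Final3

/-!
# MP_562567_gt, part Q: the main theorem (all `R` for `n ≥ 5`, and `R² ≤ (n - 2) / 3` for `n = 3, 4`)
-/

set_option autoImplicit false

namespace Pool.Agent.MP562567.Q

theorem poi' : S_Poi' :=
  poi maj1 maj2 maj3 law arc numA numB numC num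

theorem mi3 : S_MI3 :=
  mi3Of avg atom ode lapB rad1 rad2 mean mob1 mob2 mob3 cov covB trr hersch lenn lipA poi' core3
    ineq3 sc MP562567.hh us

theorem main3 (n : ℕ) (R : ℝ) (hR : 0 < R)
    (h : 5 ≤ n ∨ (3 ≤ n ∧ R ^ 2 ≤ ((n : ℝ) - 2) / 3)) :
    PhiConf n R = if R ≤ 1 then (((((n : ℝ) - 1) * Real.sqrt (1 / R ^ 2 - 1) : ℝ)) : EReal)
      else ⊥ :=
  final3 mi mi3 cap capRad idNot lenn ang sc MP562567.hh n R hR h

end Pool.Agent.MP562567.Q
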