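import Pool.Agent.Lib.MP_562567_gt.Q.Spec

/-! # The numerical inequality -/

set_option autoImplicit false

namespace Pool.Agent.MP562567.Q

open MeasureTheory Set

private theorem hh_sq (s : ℝ) (hs : 0 ≤ s) : hh (s ^ 2) = (1 - s) ^ 2 * (s + 1 / 2) := by
  have h : (s ^ 2) ^ (3 / 2 : ℝ) = s ^ 3 := by
    rw [← Real.rpow_natCast s 2, ← Real.rpow_mul hs, ← Real.rpow_natCast s 3]
    norm_num
  rw [hh, h]
  ring

private theorem fin (IA IB D a b c v : ℝ) (hA : IA ≤ a) (hB : IB ≤ b) (hD : c ≤ D)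
    (hv : v ∈ Icc (0 : ℝ) 1)
    (hP : ∀ s : ℝ, 0 ≤ s → s ≤ 1 →
      a * (1 + s) ^ 2 + b * (1 - s) * (1 + s) ^ 3 ≤ c * (s + 1 / 2)) :
    IA * v ^ 2 + IB * v ^ 3 ≤ D * hh (1 - v) := by
  obtain ⟨h0, h1⟩ := hv
  have hs0 : 0 ≤ Real.sqrt (1 - v) := Real.sqrt_nonneg _
  have hs1 : Real.sqrt (1 - v) ≤ 1 := by
    rw [Real.sqrt_le_one]
    linarith
  have hss : Real.sqrt (1 - v) ^ 2 = 1 - v := Real.sq_sqrt (by linarith)
  set s := Real.sqrt (1 - v) with hs
  have hvs : v = (1 - s) * (1 + s) := by linear_combination hss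
  rw [← hss, hh_sq s hs0]
  have h2 := hP s hs0 hs1
  have h3 : IA * v ^ 2 + IB * v ^ 3 ≤ a * v ^ 2 + b * v ^ 3 :=
    add_le_add (mul_le_mul_of_nonneg_right hA (by positivity))
      (mul_le_mul_of_nonneg_right hB (by positivity))
  have h4 : c * ((1 - s) ^ 2 * (s + 1 / 2)) ≤ D * ((1 - s) ^ 2 * (s + 1 / 2)) :=
    mul_le_mul_of_nonneg_right hD (by positivity)
  have h5 := mul_le_mul_of_nonneg_left h2 (sq_nonneg (1 - s))
  refine h3.trans (le_trans (le_of_eq ?_) (h5.trans (le_trans (le_of_eq ?_) h4)))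
  · rw [hvs]
    ring
  · ring

theorem num : S_Num := by
  intro hA hB hC n h3 h5
  obtain ⟨a3, a4, a5⟩ := hA
  obtain ⟨⟨z3, z4, z5⟩, b3, b4, b5⟩ := hB
  obtain ⟨c3, c4, c5⟩ := hC
  have p1 := Real.pi_gt_d6
  have p2 := Real.pi_lt_d6
  have q1 : (9.8696 : ℝ) < Real.pi ^ 2 := by nlinarith
  have q2 : Real.pi ^ 2 < (9.86961 : ℝ) := by nlinarith
  have q3 : Real.pi ^ 4 < (97.4093 : ℝ) := by nlinarith
  have hn : n = 3 ∨ n = 4 ∨ n = 5 := by omega
  rcases hn with rfl | rfl | rfl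
  · refine ⟨?_, ?_, ?_⟩
    · rw [z3, b3]
      linarith
    · rw [z3]
      norm_num
    · intro v hv
      refine fin _ _ _ (972 / 1000) (4373 / 10000) (32898 / 10000) v a3 ?_ ?_ hv ?_
      · rw [c3]
        linarith
      · rw [b3]
        linarith
      · intro s hs _
        nlinarith [mul_nonneg hs (sq_nonneg (s - 23 / 50)),
          mul_nonneg (sq_nonneg s) (sq_nonneg (s - 23 / 50)), sq_nonneg (s - 23 / 50)]
  · refine ⟨?_, ?_, ?_⟩
    · rw [z4, b4]
      linarith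
    · rw [z4]
      linarith
    · intro v hv
      refine fin _ _ _ (870 / 1000) (41296 / 100000) (27925 / 10000) v a4 ?_ ?_ hv ?_
      · rw [c4]
        linarith
      · rw [b4]
        linarith
      · intro s hs _
        nlinarith [mul_nonneg hs (sq_nonneg (s - 23 / 50)),
          mul_nonneg (sq_nonneg s) (sq_nonneg (s - 23 / 50)), sq_nonneg (s - 23 / 50)]
  · refine ⟨?_, ?_, ?_⟩
    · rw [z5, b5]
      linarith
    · rw [z5]
      norm_num
    · intro v hv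
      refine fin _ _ _ (792 / 1000) (39298 / 100000) (24673 / 10000) v a5 ?_ ?_ hv ?_
      · rw [c5]
        linarith
      · rw [b5]
        linarith
      · intro s hs _
        nlinarith [mul_nonneg hs (sq_nonneg (s - 23 / 50)),
          mul_nonneg (sq_nonneg s) (sq_nonneg (s - 23 / 50)), sq_nonneg (s - 23 / 50)]

end Pool.Agent.MP562567.Q
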