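import Pool.Agent.Lib.MP_562567_gt.Q.Defs

/-!
# MP_562567_gt, part Q: the statements of the modules

The statement of Theorem C of note 3679: the sharp bound of the mean curvature in the conformal class of the ball for
all `R` if `n ≥ 5`, and for `R² ≤ (n - 2) / 3` if `n = 3, 4`.  Notation as in `MP_562567_gt/Spec.lean`; for `‖e‖ = 1` the integral `∫ g, f (A.ρ g e) ∂A.μ` is
the average of `f` over the unit sphere.  Every `S_...` is to be proved in its own file; the docstring contains the complete proof.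
-/

set_option autoImplicit false

namespace Pool.Agent.MP562567.Q

open MeasureTheory Set

/-- **MJ1.** The majorant, `u ≤ 1`, `r ≤ π/2`.

Proof. Put `v = 1 - u ∈ [0, 1]`, `x = r v`, so `r u = r - x ∈ [0, π/2]` and both minima are the first arguments.  `cos (r - x) = cos r cos x + sin r sin x`, hence
`phi (r u) - phi r + 2 r sin r v = 2 cos r (1 - cos x) + 2 sin r (x - sin x)`.  Now `1 - cos x ≤ x²/2` (`Real.one_sub_sq_div_two_le_cos`) and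
`x - sin x ≤ x³/6` for `x ≥ 0` (`Real.sin_gt_sub_cube` has the constant `1/4` only for `x ≤ 1`; prove `x - x³/6 ≤ sin x` for `x ≥ 0` by monotonicity: the derivative of
`sin x - x + x³/6` is `cos x - 1 + x²/2 ≥ 0`), `cos r ≥ 0`, `sin r ≥ 0`. `P2 u = v²`, `P3 u = v³`, `P4 u = hh 1 = 0`. -/
def S_Maj1 : Prop := ∀ r ∈ Icc (0 : ℝ) (Real.pi / 2), ∀ u ∈ Icc (0 : ℝ) 1,
  phi (r * u) ≤ phi r + 2 * r * Real.sin r * (u - 1) + ca r * P2 u + cb r * P3 u + 3 / 2 * P4 u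

/-- **MJ2.** The majorant, `u ≤ 1`, `r ≥ π/2`.

Proof. Let `x₀ = r - π/2 ∈ [0, π/2]`, `D = ca r = 2 max (571/1000 - 785/1000 x₀²) 0 ≥ 0` for `r > π/2` (for `r = π/2`, `ca r = 0`: this value of `r` is excluded).
(1) `2 (r sin r + cos r - 1) ≤ D`: `sin r = cos x₀`, `cos r = - sin x₀`, and `(π/2 + x) cos x - sin x - 1 ≤ π/2 - 1 - (π/4) x²` for `x ∈ [0, π/2]`: the derivative of the
difference (right minus left) is `- (π/2) x + (π/2 + x) sin x ≥ - (π/2) x + (π/2) sin x + x sin x`, which is `≥ 0` on `[0, π/2]` because `sin x ≥ x - x³/6` gives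
`- (π/2) x³/6 + x² (1 - x²/6) = x² (1 - x²/6 - π x/12) ≥ 0`: `x²/6 + π x / 12 ≤ π²/24 + π²/24 < 1`.  Finally `π/2 - 1 ≤ 0.571`, `π/4 ≥ 0.785`.
(2) For fixed `r` let `L u = phi r + 2 r sin r (u - 1) + D (1 - u)² - 2 + 2 cos (r u)` (`phi (r u) = 2 - 2 cos (r u)`).  `L 1 = 0`, `L' 1 = 0`, `L 0 = - 2 (r sin r + cos r - 1) + D ≥ 0` by (1).
`L'' u = 2 D - 2 r² cos (r u)` is increasing in `u` on `[0, 1]` (`r u ∈ [0, π]`) and `L'' 1 ≥ 0`.  If `L'' 0 ≥ 0`, `L` is convex on `[0, 1]` and `L ≥ L 1 + L' 1 (u - 1) = 0`.  Otherwise there is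
`u₀ ∈ [0, 1]` with `L'' u₀ = 0`; `L` is convex on `[u₀, 1]`, so `L ≥ 0` there, and concave on `[0, u₀]` with `L 0 ≥ 0`, `L u₀ ≥ 0`, so `L ≥ 0`.
(A variant without second derivatives: `L' u = 2 r sin r - 2 D (1 - u) - 2 r sin (r u)`.)  `P2 u = (1-u)²`, `cb r = 0`, `P4 u = 0`. -/
def S_Maj2 : Prop := ∀ r ∈ Ioc (Real.pi / 2) Real.pi, ∀ u ∈ Icc (0 : ℝ) 1,
  phi (r * u) ≤ phi r + 2 * r * Real.sin r * (u - 1) + ca r * P2 u + cb r * P3 u + 3 / 2 * P4 u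

/-- **MJ3.** The majorant, `u ≥ 1`.

Proof. `P2 u = P3 u = 0`, `P4 u = hh u`, `hh 1 = hh' 1 = 0`, `hh'' u = (3/4) u^(-1/2) ≥ 0`.
`r ≥ π/2`: `phi (r u) ≤ phi r + 2 r sin r (u - 1)`: `a ↦ phi a` has the derivative `2 sin a`, decreasing on `[π/2, π]`, and is constant `= 4` for `a ≥ π`:
`phi a ≤ phi r + 2 sin r (a - r)` for `a ≥ r` (`cos r - cos a ≤ (a - r) sin r` for `π/2 ≤ r ≤ a ≤ π`; for `a > π` use monotonicity in `a` of the right side).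
`r ≤ π/2`: (i) `a² cos a ≤ 9/16` for `a ∈ [0, π/2]`: `cos a ≤ 1 - a²/2 + a⁴/24` and `z - z²/2 + z³/24 ≤ 9/16` for `0 ≤ z ≤ 5/2`.  (ii) For `1 ≤ u`, `r u ≤ π/2`:
`2 r² cos (r u) ≤ 2 r² u² cos (r u) u^(-1/2) ≤ (9/8) u^(-1/2) = (3/2) hh'' u` (as `u² u^(-1/2) ≥ 1`).  So `G u = 2 r sin r (u - 1) + (3/2) hh u - phi (r u) + phi r` has
`G 1 = G' 1 = 0`, `G'' ≥ 0` as long as `r u ≤ π/2`, so `G ≥ 0` and `G' ≥ 0` there; for `r u ≥ π/2` `G' u = 2 r sin r + (3/2) hh' u - 2 r sin (r u)` (`r u ≤ π`) is increasing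
(`hh'` and `- sin (r u)` are increasing), so `G' ≥ 0`, and for `r u ≥ π` `phi` is constant and `G` is increasing.  (`r = 0` is trivial.) -/
def S_Maj3 : Prop := ∀ r ∈ Icc (0 : ℝ) Real.pi, ∀ u : ℝ, 1 ≤ u →
  phi (r * u) ≤ phi r + 2 * r * Real.sin r * (u - 1) + ca r * P2 u + cb r * P3 u + 3 / 2 * P4 u

/-- **LW.** The law of the angle.

Proof. `T g = ⟨A.ρ g e, e⟩ ∈ [-1, 1]`, `k = n - 2`.  (1) Moments: `M_j = ∫ T^j`.  `M_0 = 1`, `M_1 = 0` (right invariance under the isometry `-1`), and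
`(j + n - 2) M_j = (j - 1) M_(j-2)` for `j ≥ 2`: apply `rad2` (`S_Rad2`, with `r = 1`) to the polynomial `v x = ⟨x, e⟩^j`: `D v(x)(x) = j v x`, `D² v(x)(x, x) = j (j-1) v x`,
`lap v x = j (j - 1) ⟨x, e⟩^(j-2)` for unit `e`; so `j (j-1) M_j + (n-1) j M_j = j (j-1) M_(j-2)`.  (2) `m_j = ∫_0^π cos^j sin^k` satisfies the same recursion: integrate
`(cos^(j-1) sin^(k+1))' = - (j-1) cos^(j-2) sin^(k+2) + (k+1) cos^j sin^k`, `sin^(k+2) = sin^k (1 - cos²)`; and `m_1 = 0` (substitution `r ↦ π - r`, or the antiderivative `sin^(k+1)/(k+1)`).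
So `m_0 M_j = m_j` for all `j`, and `m_0 ∫ p (T g) = ∫_0^π p (cos r) sin^k r dr` for all polynomials `p`, hence (Weierstrass, `exists_polynomial_near_of_continuousOn`) for all continuous `p`.
(3) The image of `A.μ` under `T` and the image of `(1/m_0) sin^k r dr` on `[0, π]` under `cos` are finite measures on `ℝ` with the same integrals of bounded continuous functions, so they are
equal (`MeasureTheory.ext_of_forall_integral_eq_of_IsFiniteMeasure`).  Integrate the bounded measurable function `t ↦ Θ (arccos t)`; `arccos (cos r) = r` on `[0, π]`. -/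
def S_Law : Prop := ∀ (n : ℕ) (A : Avg n), 3 ≤ n → ∀ e : E n, ‖e‖ = 1 → ∀ Θ : ℝ → ℝ,
  Measurable Θ → (∃ C : ℝ, ∀ r, |Θ r| ≤ C) →
  (∫ r in (0 : ℝ)..Real.pi, dens n r) * ∫ g, Θ (Real.arccos (inner ℝ (A.ρ g e) e)) ∂A.μ =
    ∫ r in (0 : ℝ)..Real.pi, Θ r * dens n r

/-- **LA.** The map `F ∘ mob a` along great circles, with the angle.

Proof. This is the proof of `lipPath` (`MP_562567_gt/LipPath.lean`) without its last step `‖u - v‖ ≤ angle u v`. -/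
def S_LipA : Prop := S_Mob1 → S_Mob2 → S_Len → ∀ (n : ℕ) (s : E n → ℝ) (R : ℝ)
  (f : C(Sph n, Sph n)) (F : E n → E n) (a : E n), 0 < R → Continuous s → ‖a‖ < 1 →
  (∀ x : Sph n, F x = f x) →
  (∀ γ : ℝ → E n, ContDiff ℝ 1 γ → (∀ t ∈ Set.Icc (0 : ℝ) 1, γ t ∈ Metric.sphere (0 : E n) 1) →
    ∀ x y : Sph n, γ 0 = x → γ 1 = y →
      R * InnerProductGeometry.angle (f x : E n) (f y : E n) ≤ len (conf s) γ) →
  ∀ b c : E n, ‖b‖ = 1 → ‖c‖ = 1 → inner ℝ b c = 0 → ∀ σ τ : ℝ, σ ≤ τ →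
    InnerProductGeometry.angle (F (mob a (Real.cos σ • b + Real.sin σ • c)))
        (F (mob a (Real.cos τ • b + Real.sin τ • c))) ≤
      ∫ t in σ..τ, Real.exp (s (mob a (Real.cos t • b + Real.sin t • c))) *
        lam a (Real.cos t • b + Real.sin t • c) / R

/-- **AR.** The average of the squared chords at the angle `r`.

Proof. `0 < r ≤ π` (for `r = 0` the left side is `0` and `phi 0 = 0`, `ca 0 = cb 0 = 0`, the remaining term `(3/2) ∫ P4 ≥ 0`; `hh ≥ 0` on `[1, ∞)`).  Fix `g`; `ω t = w (ρ g (X e b t)) ≥ 0` is continuous,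
`a = ∫_0^r ω`, `u = a / r ≥ 0`.  `‖F (..r) - F (..0)‖² = 2 - 2 cos (angle) ≤ phi a`, because the angle is at most `min a π` and `cos` is decreasing on `[0, π]`.  By `S_Maj1-3`
`phi a = phi (r u) ≤ phi r + 2 r sin r (u - 1) + ca r P2 u + cb r P3 u + (3/2) P4 u`, where `ca r, cb r ≥ 0`.  `P2`, `P3`, `P4` are convex and continuous on `[0, ∞)` (`P4 u = hh (max u 1)`, `hh` convex and
monotone on `[1, ∞)`), so by Jensen (`ConvexOn.map_set_average_le`; or: they are `C¹` convex functions) `P_i u ≤ (1/r) ∫_0^r P_i (ω t) dt`; and `u = (1/r) ∫_0^r ω`.  Integrate over `g`: for every `t`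
`∫_g f (w (ρ g (X e b t))) = ∫_g f (w (ρ g e))` by right invariance (`poincAux.rinv`, `poincAux.exists_rho`, `poincAux.rho_mul` in `MP_562567_gt/Poinc.lean`), and Fubini (as in `poincAux.swapI` there, with `[0, r]` in place of `[0, 2 π]`). -/
def S_Arc : Prop := S_Maj1 → S_Maj2 → S_Maj3 → ∀ (n : ℕ) (A : Avg n) (F : E n → E n) (w : E n → ℝ)
  (C : ℝ), Measurable F → Measurable w → ContinuousOn w (Metric.sphere 0 1) →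
  (∀ x ∈ Metric.sphere (0 : E n) 1, 0 ≤ w x) → (∀ x, |w x| ≤ C) →
  (∀ x ∈ Metric.sphere (0 : E n) 1, ‖F x‖ = 1) →
  (∀ a b : E n, ‖a‖ = 1 → ‖b‖ = 1 → inner ℝ a b = 0 → ∀ σ τ : ℝ, σ ≤ τ →
    InnerProductGeometry.angle (F (X a b σ)) (F (X a b τ)) ≤ ∫ t in σ..τ, w (X a b t)) →
  ∀ e b : E n, ‖e‖ = 1 → ‖b‖ = 1 → inner ℝ e b = 0 → ∀ r ∈ Icc (0 : ℝ) Real.pi,
    ∫ g, ‖F (A.ρ g (X e b r)) - F (A.ρ g e)‖ ^ 2 ∂A.μ ≤
      phi r + 2 * r * Real.sin r * ((∫ g, w (A.ρ g e) ∂A.μ) - 1) +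
        ca r * (∫ g, P2 (w (A.ρ g e)) ∂A.μ) + cb r * (∫ g, P3 (w (A.ρ g e)) ∂A.μ) +
        3 / 2 * ∫ g, P4 (w (A.ρ g e)) ∂A.μ

/-- **NB.** The integrals with closed forms, `n = 3, 4, 5`.

Proof. Antiderivatives.  `∫_0^π sin = 2`, `∫_0^π sin² = π/2`, `∫_0^π sin³ = 4/3` (Mathlib: `integral_sin`, `integral_sin_sq`, `integral_sin_pow_three`?  or `integral_sin_pow`).
`∫_0^π 2 r sin r sin^k r dr` for `k = 1, 2, 3`: `π²/2`, `4 π/3`, `3 π²/8` (antiderivatives of `r sin²`: `r²/4 - r sin (2r)/4 - cos (2r)/8`; of `r sin³ = r (3 sin r - sin 3r)/4`: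
`(3 (sin r - r cos r) - (sin (3r)/9 - r cos (3r)/3))/4`; of `r sin⁴ = r (3/8 - cos (2r)/2 + cos (4r)/8)`: `3 r²/16 - (r sin (2r)/2 + cos (2r)/4)/2 + (r sin (4r)/4 + cos (4r)/16)/8`). -/
def S_NumB : Prop :=
  ((∫ r in (0 : ℝ)..Real.pi, dens 3 r) = 2 ∧ (∫ r in (0 : ℝ)..Real.pi, dens 4 r) = Real.pi / 2 ∧
    (∫ r in (0 : ℝ)..Real.pi, dens 5 r) = 4 / 3) ∧
  (∫ r in (0 : ℝ)..Real.pi, 2 * r * Real.sin r * dens 3 r) = Real.pi ^ 2 / 2 ∧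
  (∫ r in (0 : ℝ)..Real.pi, 2 * r * Real.sin r * dens 4 r) = 4 * Real.pi / 3 ∧
  (∫ r in (0 : ℝ)..Real.pi, 2 * r * Real.sin r * dens 5 r) = 3 * Real.pi ^ 2 / 8

/-- **NC.** The integrals of `cb`, `n = 3, 4, 5`.

Proof. `cb = r³ sin r / 3` on `[0, π/2]`, `0` on `(π/2, π]` (split the integral; a.e. equality).  `∫_0^(π/2) r³ sin^(k+1) r dr / 3` for `k = 1, 2, 3`:
`(π⁴/128 + 3 π²/32 - 3/8) / 3`, `(7 π²/3 - 488/27) / 12`, `(3 π⁴/512 + 51 π²/512 - 3/8) / 3`.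
Antiderivatives: `∫ r³ cos (c r) = r³ sin (cr)/c + 3 r² cos (cr)/c² - 6 r sin (cr)/c³ - 6 cos (cr)/c⁴`, `∫ r³ sin (cr) = - r³ cos (cr)/c + 3 r² sin (cr)/c² + 6 r cos (cr)/c³ - 6 sin (cr)/c⁴`,
`sin² = 1/2 - cos (2r)/2`, `sin³ = (3 sin r - sin 3r)/4`, `sin⁴ = 3/8 - cos (2r)/2 + cos (4r)/8`. -/
def S_NumC : Prop :=
  (∫ r in (0 : ℝ)..Real.pi, cb r * dens 3 r) = (Real.pi ^ 4 / 128 + 3 * Real.pi ^ 2 / 32 - 3 / 8) / 3 ∧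
  (∫ r in (0 : ℝ)..Real.pi, cb r * dens 4 r) = (7 * Real.pi ^ 2 / 3 - 488 / 27) / 12 ∧
  (∫ r in (0 : ℝ)..Real.pi, cb r * dens 5 r) =
    (3 * Real.pi ^ 4 / 512 + 51 * Real.pi ^ 2 / 512 - 3 / 8) / 3

/-- **NA.** The integrals of `ca`, `n = 3, 4, 5` (upper bounds).

Proof. `ca = r² cos r` on `[0, π/2]`: `∫_0^(π/2) r² cos r sin^k r dr` for `k = 1, 2, 3`: `π²/16 - 1/4`, `π²/12 - 14/27`, `5 π²/128 - 1/8` (antiderivative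
`r² sin^(k+1)/(k+1) - (2/(k+1)) ∫ r sin^(k+1)`, see NB).  On `[π/2, π]`, `r = π/2 + x`: `2 ∫_0^(π/2) max (q x) 0 cos^k x dx`, `q x = 571/1000 - 785/1000 x²`.  With `x₁ = 853/1000`: `q < 0` for `x > x₁`, and for
`0 ≤ x ≤ x₁`: `max (q x) 0 ≤ q x + 1/5000`, `0 ≤ cos x ≤ 1 - x²/2 + x⁴/24`; integrate the polynomials.  (Numbers: the second parts are `0.60330`, `0.56416`, `0.53058`
for `k = 1, 2, 3`, the first parts `0.36685`, `0.30395`, `0.26053`; with the polynomial bounds the second parts are `0.60362`, `0.56446`, `0.53086`.) -/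
def S_NumA : Prop :=
  (∫ r in (0 : ℝ)..Real.pi, ca r * dens 3 r) ≤ 972 / 1000 ∧
  (∫ r in (0 : ℝ)..Real.pi, ca r * dens 4 r) ≤ 870 / 1000 ∧
  (∫ r in (0 : ℝ)..Real.pi, ca r * dens 5 r) ≤ 792 / 1000

/-- **NU.** The numerical inequality, `n = 3, 4, 5`.

Proof. (1) is NB and `π² ≥ 9.86`.  (2) `s = √(1 - v)`, `hh (s²) = (1 - s)² (s + 1/2)`, `v = (1 - s) (1 + s)`: the claim is
`(1 - s)² (IA (1 + s)² + IB (1 - s) (1 + s)³) ≤ (1 - s)² (2/3) Bt (s + 1/2)`; by NA, NB, NC and bounds for `π` it is enough that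
`2/3 Bt (s + 1/2) - IA (1+s)² - IB (1-s)(1+s)³ ≥ 0` on `[0, 1]` with `(2/3 Bt, IA, IB) = (3.2898, 0.972, 0.4373)`, `(2.7925, 0.870, 0.41296)`, `(2.4673, 0.792, 0.39298)` (minima
`0.23`, `0.11`, `0.019`). -/
def S_Num : Prop := S_NumA → S_NumB → S_NumC → ∀ n : ℕ, 3 ≤ n → n ≤ 5 →
  9 / 4 * (∫ r in (0 : ℝ)..Real.pi, dens n r) ≤
    (∫ r in (0 : ℝ)..Real.pi, 2 * r * Real.sin r * dens n r) ∧
  0 < (∫ r in (0 : ℝ)..Real.pi, dens n r) ∧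
  ∀ v ∈ Icc (0 : ℝ) 1,
    (∫ r in (0 : ℝ)..Real.pi, ca r * dens n r) * v ^ 2 +
        (∫ r in (0 : ℝ)..Real.pi, cb r * dens n r) * v ^ 3 ≤
      2 / 3 * (∫ r in (0 : ℝ)..Real.pi, 2 * r * Real.sin r * dens n r) * hh (1 - v)

/-- **PO.** The Poincaré inequality with the exponent `3/2`, `n = 3, 4, 5` (Lemma H of note 3679).

Proof. As in `poinc` (`MP_562567_gt/Poinc.lean`) we may replace `F` and `w` by measurable functions (zero outside of the sphere).  For a unit vector `y` choose `b`, `r ∈ [0, π]` with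
`y = X e b r` (`r = arccos ⟨y, e⟩`, `poincAux.exists_X`), then AR.  Put `y = ρ k e`, integrate over `k`: the left side is `2` (balanced, as in `poinc`), and by LW the right side times `Z = ∫ dens` is
`∫_0^π (phi r + 2 r sin r (W₁ - 1) + ca r M₂ + cb r M₃ + (3/2) M₄) dens r dr`, and `Z⁻¹ ∫ phi dens = 2` (LW for `phi`, `phi (arccos t) = 2 - 2 t`, `∫ ⟨ρ k e, e⟩ = 0`).  So
`0 ≤ Bt (W₁ - 1) + IA M₂ + IB M₃ + (3/2) Z M₄`.  By NU, pointwise `IA P2 u + IB P3 u + (3/2) Z P4 u ≤ (2/3) Bt hh u` (`u ≥ 0`; for `u ≥ 1`: `(3/2) Z ≤ (2/3) Bt` and `hh u ≥ 0`), and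
`(2/3) Bt ∫ hh (w) = (2/3) Bt (∫ w^(3/2) - 1) - Bt (W₁ - 1)`.  Hence `0 ≤ (2/3) Bt (∫ w^(3/2) - 1)`. -/
def S_Poi : Prop := S_Maj1 → S_Maj2 → S_Maj3 → S_Law → S_Arc → S_NumA → S_NumB → S_NumC → S_Num →
  ∀ (n : ℕ) (A : Avg n), 3 ≤ n → n ≤ 5 →
  ∀ (F : E n → E n) (w : E n → ℝ), ContinuousOn F (Metric.sphere 0 1) →
  ContinuousOn w (Metric.sphere 0 1) → (∀ x ∈ Metric.sphere (0 : E n) 1, 0 ≤ w x) →
  (∀ x ∈ Metric.sphere (0 : E n) 1, ‖F x‖ = 1) →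
  (∀ a b : E n, ‖a‖ = 1 → ‖b‖ = 1 → inner ℝ a b = 0 → ∀ σ τ : ℝ, σ ≤ τ →
    InnerProductGeometry.angle (F (X a b σ)) (F (X a b τ)) ≤ ∫ t in σ..τ, w (X a b t)) →
  ∀ e : E n, ‖e‖ = 1 → ∫ g, F (A.ρ g e) ∂A.μ = 0 →
    1 ≤ ∫ g, w (A.ρ g e) ^ (3 / 2 : ℝ) ∂A.μ

/-- the statement of the Poincaré inequality, without the modules -/
def S_Poi' : Prop := ∀ (n : ℕ) (A : Avg n), 3 ≤ n → n ≤ 5 →
  ∀ (F : E n → E n) (w : E n → ℝ), ContinuousOn F (Metric.sphere 0 1) →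
  ContinuousOn w (Metric.sphere 0 1) → (∀ x ∈ Metric.sphere (0 : E n) 1, 0 ≤ w x) →
  (∀ x ∈ Metric.sphere (0 : E n) 1, ‖F x‖ = 1) →
  (∀ a b : E n, ‖a‖ = 1 → ‖b‖ = 1 → inner ℝ a b = 0 → ∀ σ τ : ℝ, σ ≤ τ →
    InnerProductGeometry.angle (F (X a b σ)) (F (X a b τ)) ≤ ∫ t in σ..τ, w (X a b t)) →
  ∀ e : E n, ‖e‖ = 1 → ∫ g, F (A.ρ g e) ∂A.μ = 0 →
    1 ≤ ∫ g, w (A.ρ g e) ^ (3 / 2 : ℝ) ∂A.μ

/-- **CR.** The core with the exponent `3/2`.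

Proof. As `core` (`MP_562567_gt/Core.lean`), with LA and PO: `w = e^(s ∘ mob a) lam a / R`, `w^(3/2) = R^(-3/2) v^(3/(2p))` for `v = tr a u` on the sphere. -/
def S_Core3 : Prop := S_Atom → S_LapB → S_Mob1 → S_Mob2 → S_Mob3 → S_Cov → S_CovB → S_Tr →
  S_Hersch → S_Len → S_LipA → S_Poi' →
  ∀ (n : ℕ) (A : Avg n) (s : E n → ℝ) (R : ℝ) (e : E n), 3 ≤ n → n ≤ 5 → Continuous s → ‖e‖ = 1 →
  Sup n (fun x => Real.exp (pp n * s x)) → 0 < R → RadGe (conf s) R →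
  ∃ v : E n → ℝ, Sup n v ∧
    (∀ κ : ℝ, Bd n κ (fun x => Real.exp (pp n * s x)) → Bd n κ v) ∧
    R ^ (3 / 2 : ℝ) ≤ ∫ g, v (A.ρ g e) ^ (3 / (2 * pp n)) ∂A.μ

/-- **IE.** The main inequality, `n = 3, 4, 5`.

Proof. `M = ∫ v`, `K = ∫ v^(1+1/p)`, `0 < M ≤ 1`; `v` is continuous and positive on the sphere, so everything is integrable; `c K ≤ M √(1 - M^(2/p))` (divide by `p > 0`).
`n = 3` (`p = 1/2`): `R^(3/2) ≤ K = ∫ v³`, `M³ ≤ K` (Jensen), `c K ≤ M √(1 - M⁴)`.  `x = M²`: `c² x² ≤ 1 - x²`, so `x² ≤ ρ² := 1/(1+c²) ≤ 1/3`, and `c² R³ ≤ c² K² ≤ x (1 - x²) ≤ ρ (1 - ρ²) = c² ρ³`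
(`t (1 - t²)` is increasing on `[0, 1/√3]`), `c² ≥ 2`, so `R ≤ ρ`.
`n = 4` (`p = 1`): `R³ ≤ (∫ v^(3/2))² ≤ M K` (Cauchy-Schwarz, `v^(3/2) = v^(1/2) v`), `K = ∫ v² ≥ M²`, `c K ≤ M √(1 - M²)`: `c² M² ≤ 1 - M²`, `M² ≤ ρ² ≤ 2/3`, and `c² R⁶ ≤ c² M² K² ≤ M⁴ (1 - M²) ≤ ρ⁴ (1 - ρ²) = c² ρ⁶`
(`z² (1 - z)` is increasing on `[0, 2/3]`), `c² ≥ 1/2`.
`n = 5` (`p = 3/2`): `R^(3/2) ≤ ∫ v = M ≤ 1`, so `R ≤ 1`; `K ≥ M^(5/3)`, so `c M^(2/3) ≤ √(1 - M^(4/3))`, `M^(4/3) (1 + c²) ≤ 1`, `R² ≤ M^(4/3)`. -/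
def S_Ineq3 : Prop := ∀ (n : ℕ) (A : Avg n) (v : E n → ℝ) (R : ℝ) (e : E n), 3 ≤ n → n ≤ 5 →
  ‖e‖ = 1 → 0 < R → Sup n v → R ^ (3 / 2 : ℝ) ≤ ∫ g, v (A.ρ g e) ^ (3 / (2 * pp n)) ∂A.μ →
  0 < ∫ g, v (A.ρ g e) ∂A.μ → ∫ g, v (A.ρ g e) ∂A.μ ≤ 1 →
  (n = 5 → R ≤ 1) ∧
  ∀ c : ℝ, 0 ≤ c → (pp n * c) * ∫ g, v (A.ρ g e) ^ (1 + 1 / pp n) ∂A.μ ≤
      pp n * (∫ g, v (A.ρ g e) ∂A.μ) * Real.sqrt (1 - (∫ g, v (A.ρ g e) ∂A.μ) ^ (2 / pp n)) →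
    (n = 5 ∨ 1 / (1 + c ^ 2) ≤ ((n : ℝ) - 2) / 3) → R ^ 2 * (1 + c ^ 2) ≤ 1

/-- the main inequality for metrics, `n = 3, 4, 5` -/
def S_MI3 : Prop := ∀ (n : ℕ) (s : E n → ℝ) (R : ℝ), 3 ≤ n → n ≤ 5 → ContDiff ℝ (↑(⊤ : ℕ∞)) s →
  (∀ x ∈ Metric.closedBall (0 : E n) 1, (n : ℝ) * ((n : ℝ) - 1) ≤ scal (conf s) x) → 0 < R →
  RadGe (conf s) R → (n = 5 → R ≤ 1) ∧ ∀ h : ℝ, 0 ≤ h →
    (∀ x ∈ Metric.sphere (0 : E n) 1, h ≤ meanCurv (conf s) x) →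
    (n = 5 ∨ 1 / (1 + (h / ((n : ℝ) - 1)) ^ 2) ≤ ((n : ℝ) - 2) / 3) →
    R ^ 2 * (1 + (h / ((n : ℝ) - 1)) ^ 2) ≤ 1

end Pool.Agent.MP562567.Q
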